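import Pool.Agent.K4H27.VF.Cycle

noncomputable section

namespace Pool.Agent.K4H27.VF

theorem third (i i' : Fin 4) : ∃ l : Fin 4, l ≠ i ∧ l ≠ i' := by
  revert i i'
  decide

theorem surj_pos (i : Fin 4) (hi : i ≠ 0) : Function.Surjective
    (fun l : Fin 4 => if l = 0 then (0 : Fin 3) else if l = i then 1 else 2) := by
  revert i
  decide

theorem surj_neg (i : Fin 4) (hi : i ≠ 0) : Function.Surjective
    (fun l : Fin 4 => if l = 0 then (0 : Fin 3) else if l = i then 2 else 1) := by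
  revert i
  decide

open scoped Classical

set_option linter.unusedSectionVars false

variable {m n : ℕ} [NeZero m] {χ : Fin n → Fin 4 → ZMod m}

/-- There is a cycle among the characters `χ j`. -/
def HasCycle (χ : Fin n → Fin 4 → ZMod m) : Prop := ∃ ℓ b κ α, IsCycle χ ℓ b κ α

/-- Cycles of length one. -/
theorem mk_one (j : Fin n) {i i' : Fin 4} (hi : i ≠ i') (h : χ j i + χ j i' = 0) :
    HasCycle χ := by
  refine ⟨1, fun _ => j, fun _ l => if l = i then 1 else if l = i' then 2 else 0,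
    fun _ => χ j i, one_pos, ?_, ?_, rfl, ?_, ?_⟩
  · intro s hs s' hs' _; omega
  · intro s _ q
    fin_cases q
    · obtain ⟨l, h1, h2⟩ := third i i'
      exact ⟨l, by simp [h1, h2]⟩
    · exact ⟨i, by simp⟩
    · exact ⟨i', by simp [Ne.symm hi]⟩
  · intro s _
    rw [Finset.sum_eq_single i]
    · simp
    · intro l _ hl
      rw [if_neg]
      simp only [if_neg hl]
      split_ifs <;> decide
    · simp
  · intro s _
    rw [Finset.sum_eq_single i']
    · simp only [if_neg (Ne.symm hi), if_true]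
      linear_combination h
    · intro l _ hl
      rw [if_neg]
      simp only [if_neg hl]
      split_ifs <;> decide
    · simp

/-- Cycles of length two. -/
theorem mk_two {j j' : Fin n} (hj : j ≠ j') (κ₁ κ₂ : Fin 4 → Fin 3)
    (hs1 : Function.Surjective κ₁) (hs2 : Function.Surjective κ₂)
    (h1 : (∑ i, if κ₁ i = 2 then χ j i else 0) + (∑ i, if κ₂ i = 1 then χ j' i else 0) = 0)
    (h2 : (∑ i, if κ₂ i = 2 then χ j' i else 0) + (∑ i, if κ₁ i = 1 then χ j i else 0) = 0) :
    HasCycle χ := by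
  refine ⟨2, fun s => if s = 0 then j else j', fun s => if s = 0 then κ₁ else κ₂,
    fun s => if s = 1 then (∑ i, if κ₂ i = 1 then χ j' i else 0) else
      ∑ i, if κ₁ i = 1 then χ j i else 0, two_pos, ?_, ?_, ?_, ?_, ?_⟩
  · intro s hs s' hs' h
    interval_cases s <;> interval_cases s'
    · rfl
    · simp at h; exact absurd h hj
    · simp at h; exact absurd h.symm hj
    · rfl
  · intro s hs
    interval_cases s
    · simpa using hs1
    · simpa using hs2
  · simp
  · intro s hs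
    interval_cases s <;> simp
  · intro s hs
    interval_cases s
    · simp only [if_true, zero_add]
      exact eq_neg_of_add_eq_zero_left h1
    · simp only [one_ne_zero, if_false, Nat.reduceAdd, OfNat.ofNat_ne_one]
      exact eq_neg_of_add_eq_zero_left h2

/-- Cycles of length two, with permuted coordinates. -/
theorem mk_two_perm {j j' : Fin n} (hj : j ≠ j') (e : Equiv.Perm (Fin 4))
    (κ₁ κ₂ : Fin 4 → Fin 3)
    (hs1 : Function.Surjective κ₁) (hs2 : Function.Surjective κ₂)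
    (h1 : (∑ i, if κ₁ i = 2 then χ j (e i) else 0) +
      (∑ i, if κ₂ i = 1 then χ j' (e i) else 0) = 0)
    (h2 : (∑ i, if κ₂ i = 2 then χ j' (e i) else 0) +
      (∑ i, if κ₁ i = 1 then χ j (e i) else 0) = 0) :
    HasCycle χ := by
  apply mk_two hj (κ₁ ∘ e.symm) (κ₂ ∘ e.symm) (hs1.comp e.symm.surjective)
    (hs2.comp e.symm.surjective)
  · rw [← Equiv.sum_comp e, ← Equiv.sum_comp e (fun i => if (κ₂ ∘ e.symm) i = 1 then χ j' i
      else 0)]
    simpa using h1
  · rw [← Equiv.sum_comp e, ← Equiv.sum_comp e (fun i => if (κ₁ ∘ e.symm) i = 1 then χ j i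
      else 0)]
    simpa using h2

/-- Two characters whose paths have the same three vertices. -/
theorem three_set {j j' : Fin n} (hj : j ≠ j') (hsum : ∀ j, ∑ i, χ j i = 0)
    (e : Equiv.Perm (Fin 4)) {p₁ p₂ p₃ q₁ q₂ q₃ : ZMod m}
    (hp₁ : p₁ = χ j (e 0)) (hp₂ : p₂ = χ j (e 0) + χ j (e 1)) (hp₃ : p₃ = -χ j (e 3))
    (hq₁ : q₁ = χ j' (e 0)) (hq₂ : q₂ = χ j' (e 0) + χ j' (e 1)) (hq₃ : q₃ = -χ j' (e 3))
    (h : (q₁ = p₁ ∧ q₂ = p₃ ∧ q₃ = p₂) ∨ (q₁ = p₂ ∧ q₂ = p₁ ∧ q₃ = p₃) ∨
      (q₁ = p₂ ∧ q₂ = p₃ ∧ q₃ = p₁) ∨ (q₁ = p₃ ∧ q₂ = p₁ ∧ q₃ = p₂) ∨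
      (q₁ = p₃ ∧ q₂ = p₂ ∧ q₃ = p₁)) : HasCycle χ := by
  have hs : ∀ j, χ j (e 0) + χ j (e 1) + χ j (e 2) + χ j (e 3) = 0 := by
    intro j
    have := hsum j
    rw [← Equiv.sum_comp e, Fin.sum_univ_four] at this
    exact this
  have s1 := hs j
  have s2 := hs j'
  subst hp₁ hp₂ hp₃ hq₁ hq₂ hq₃
  rcases h with ⟨h1, h2, h3⟩ | ⟨h1, h2, h3⟩ | ⟨h1, h2, h3⟩ | ⟨h1, h2, h3⟩ | ⟨h1, h2, h3⟩
  · apply mk_two_perm hj e ![2, 2, 0, 1] ![2, 2, 0, 1] (by decide) (by decide)
    · simp [Fin.sum_univ_four]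
      linear_combination -h3
    · simp [Fin.sum_univ_four]
      linear_combination h2
  · apply mk_two_perm hj e ![1, 0, 2, 2] ![1, 0, 2, 2] (by decide) (by decide)
    · simp [Fin.sum_univ_four]
      linear_combination s1 + h1
    · simp [Fin.sum_univ_four]
      linear_combination s2 - h2
  · apply mk_two_perm hj e ![0, 2, 2, 1] ![2, 2, 1, 0] (by decide) (by decide)
    · simp [Fin.sum_univ_four]
      linear_combination s1 + s2 + h3 - h2
    · simp [Fin.sum_univ_four]
      linear_combination h2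
  · apply mk_two_perm hj e ![1, 2, 2, 0] ![0, 1, 2, 2] (by decide) (by decide)
    · simp [Fin.sum_univ_four]
      linear_combination s1 + h2 - h1
    · simp [Fin.sum_univ_four]
      linear_combination s2 - h2
  · apply mk_two_perm hj e ![2, 2, 1, 0] ![0, 2, 1, 1] (by decide) (by decide)
    · simp [Fin.sum_univ_four]
      linear_combination s2 - h2
    · simp [Fin.sum_univ_four]
      linear_combination h2 - h1 + s1

/-- Two characters with opposite signs and the same tails. -/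
theorem opp_sign {j j' : Fin n} (hj : j ≠ j') (hsum : ∀ j, ∑ i, χ j i = 0)
    (h0 : χ j 0 = χ j' 0) (h1 : χ j 1 = -χ j' 1 - χ j' 0) (h2 : χ j 2 = -χ j' 2 - χ j' 0) :
    HasCycle χ := by
  have s1 := hsum j
  have s2 := hsum j'
  rw [Fin.sum_univ_four] at s1 s2
  apply mk_two hj ![2, 1, 2, 0] ![2, 2, 1, 0] (by decide) (by decide)
  · simp [Fin.sum_univ_four]
    linear_combination h0 + h2
  · simp [Fin.sum_univ_four]
    linear_combination h1

end Pool.Agent.K4H27.VF
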