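import Pool.Agent.K4H27.VF.Comb1

noncomputable section

namespace Pool.Agent.K4H27.VF

open scoped Classical

set_option linter.unusedSectionVars false

variable {m n : ℕ} [NeZero m] {χ : Fin n → Fin 4 → ZMod m}

/-- The tail of the edge of the character `χ j` at the position `i`. -/
def tl (χ : Fin n → Fin 4 → ZMod m) (pos : Fin n → Prop) (i : Fin 4) (j : Fin n) : ZMod m :=
  if pos j then χ j i else -χ j i - χ j 0

theorem sum_pos (a : Fin 4 → ZMod m) {i : Fin 4} (hi : i ≠ 0) (q : Fin 3) :
    (∑ l, if (if l = 0 then (0 : Fin 3) else if l = i then 1 else 2) = q then a l else 0) =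
      if q = 0 then a 0 else if q = 1 then a i else ∑ l, a l - a 0 - a i := by
  have h1 : ∑ l, a l = a 0 + a 1 + a 2 + a 3 := Fin.sum_univ_four a
  have hi' : i = 1 ∨ i = 2 ∨ i = 3 := by
    fin_cases i
    · exact absurd rfl hi
    · simp
    · simp
    · simp
  fin_cases q <;> rcases hi' with rfl | rfl | rfl <;> simp [Fin.sum_univ_four] <;> ring

theorem sum_neg (a : Fin 4 → ZMod m) {i : Fin 4} (hi : i ≠ 0) (q : Fin 3) :
    (∑ l, if (if l = 0 then (0 : Fin 3) else if l = i then 2 else 1) = q then a l else 0) =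
      if q = 0 then a 0 else if q = 2 then a i else ∑ l, a l - a 0 - a i := by
  have h1 : ∑ l, a l = a 0 + a 1 + a 2 + a 3 := Fin.sum_univ_four a
  have hi' : i = 1 ∨ i = 2 ∨ i = 3 := by
    fin_cases i
    · exact absurd rfl hi
    · simp
    · simp
    · simp
  fin_cases q <;> rcases hi' with rfl | rfl | rfl <;> simp [Fin.sum_univ_four] <;> ring

/-- A finite set of vertices each of which has an edge into the set gives a cycle. -/
theorem coset_cycle (hsum : ∀ j, ∑ i, χ j i = 0) (J : Finset (Fin n)) (pos : Fin n → Prop)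
    {i : Fin 4} (hi : i ≠ 0) (W : Finset (ZMod m)) (hW : W.Nonempty)
    (h : ∀ x ∈ W, ∃ j ∈ J, tl χ pos i j = x ∧ tl χ pos i j + χ j 0 ∈ W) : HasCycle χ := by
  choose g hgJ hg1 hg2 using h
  let G : W → Fin n := fun x => g x.1 x.2
  have hG : ∀ x : W, tl χ pos i (G x) = x.1 := fun x => hg1 x.1 x.2
  let φ : W → W := fun x => ⟨tl χ pos i (G x) + χ (G x) 0, hg2 x.1 x.2⟩
  obtain ⟨x₀, hx₀⟩ := hW
  obtain ⟨a, b, hab, heq⟩ := Finite.exists_ne_map_eq_of_infinite
    (fun s : ℕ => φ^[s] ⟨x₀, hx₀⟩)
  obtain ⟨y, ℓ, hℓ, hy⟩ : ∃ (y : W) (ℓ : ℕ), 0 < ℓ ∧ φ^[ℓ] y = y := by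
    rcases lt_or_gt_of_ne hab with h1 | h1
    · refine ⟨φ^[a] ⟨x₀, hx₀⟩, b - a, by omega, ?_⟩
      rw [← Function.iterate_add_apply, Nat.sub_add_cancel h1.le]
      exact heq.symm
    · refine ⟨φ^[b] ⟨x₀, hx₀⟩, a - b, by omega, ?_⟩
      rw [← Function.iterate_add_apply, Nat.sub_add_cancel h1.le]
      exact heq
  have hper : Function.IsPeriodicPt φ ℓ y := hy
  let L := Function.minimalPeriod φ y
  have hL : 0 < L := hper.minimalPeriod_pos hℓ
  have hLy : φ^[L] y = y := Function.isPeriodicPt_minimalPeriod φ y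
  have hinj : ∀ s < L, ∀ s' < L, φ^[s] y = φ^[s'] y → s = s' := by
    intro s hs s' hs' h1
    exact Function.iterate_injOn_Iio_minimalPeriod (f := φ) (x := y) hs hs' h1
  have hstep : ∀ s, (φ^[s + 1] y).1 = (φ^[s] y).1 + χ (G (φ^[s] y)) 0 := by
    intro s
    rw [Function.iterate_succ_apply']
    show tl χ pos i (G (φ^[s] y)) + χ (G (φ^[s] y)) 0 = _
    rw [hG]
  refine ⟨L, fun s => G (φ^[s] y), fun s => if pos (G (φ^[s] y)) then
      (fun l : Fin 4 => if l = 0 then (0 : Fin 3) else if l = i then 1 else 2)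
      else (fun l : Fin 4 => if l = 0 then (0 : Fin 3) else if l = i then 2 else 1),
    fun s => (φ^[s] y).1, hL, ?_, ?_, ?_, ?_, ?_⟩
  · intro s hs s' hs' h1
    apply hinj s hs s' hs'
    apply Subtype.ext
    rw [← hG, ← hG (φ^[s'] y)]
    exact congrArg (tl χ pos i) h1
  · intro s _
    split_ifs
    · exact surj_pos i hi
    · exact surj_neg i hi
  · show (φ^[L] y).1 = (φ^[0] y).1
    rw [hLy]; rfl
  · intro s _
    have h1 := hG (φ^[s] y)
    by_cases hp : pos (G (φ^[s] y))
    · simp only [if_pos hp]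
      rw [sum_pos _ hi 1]
      simp only [tl, if_pos hp] at h1
      simp [h1]
    · simp only [if_neg hp]
      rw [sum_neg _ hi 1, hsum]
      simp only [tl, if_neg hp] at h1
      simp
      linear_combination h1
  · intro s _
    have h1 := hG (φ^[s] y)
    have h2 := hstep s
    by_cases hp : pos (G (φ^[s] y))
    · simp only [if_pos hp]
      rw [sum_pos _ hi 2, hsum, h2]
      simp only [tl, if_pos hp] at h1
      simp
      linear_combination -h1
    · simp only [if_neg hp]
      rw [sum_neg _ hi 2, h2]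
      simp only [tl, if_neg hp] at h1
      simp
      linear_combination -h1

/-- The labels of the edges starting at `x`. -/
def out (χ : Fin n → Fin 4 → ZMod m) (J : Finset (Fin n)) (pos : Fin n → Prop) (i : Fin 4)
    (x : ZMod m) : Finset (ZMod m) :=
  (J.filter fun j => tl χ pos i j = x).image fun j => χ j 0

/-- If there is no cycle, few vertices have many edges. -/
theorem card_big (hsum : ∀ j, ∑ i, χ j i = 0) (hno : ¬ HasCycle χ) (J : Finset (Fin n))
    (pos : Fin n → Prop) {i : Fin 4} (hi : i ≠ 0) (X : Finset (ZMod m)) {d : ℕ} (hX : X.card ≤ d)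
    (hJ : ∀ j ∈ J, tl χ pos i j ∈ X → tl χ pos i j + χ j 0 ∈ X) (t : ℕ) :
    (X.filter fun x => t ≤ (out χ J pos i x).card).card ≤ d - t := by
  obtain ⟨W, hWdef⟩ : ∃ W, W = X.filter fun x => t ≤ (out χ J pos i x).card := ⟨_, rfl⟩
  rw [← hWdef]
  have hWX : W ⊆ X := by rw [hWdef]; exact Finset.filter_subset _ _
  by_cases hW : W.Nonempty
  · obtain ⟨x, hxW, hx⟩ : ∃ x ∈ W, ∀ j ∈ J, tl χ pos i j = x → tl χ pos i j + χ j 0 ∉ W := by
      by_contra hcon
      push Not at hcon
      apply hno
      apply coset_cycle hsum J pos hi W hW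
      intro x hx
      obtain ⟨j, h1, h2, h3⟩ := hcon x hx
      exact ⟨j, h1, h2, h3⟩
    have hxX : x ∈ X := hWX hxW
    have hxt : t ≤ (out χ J pos i x).card := by
      rw [hWdef] at hxW
      exact (Finset.mem_filter.1 hxW).2
    have h1 : ((out χ J pos i x).image fun c => x + c) ⊆ X \ W := by
      intro y hy
      rw [Finset.mem_image] at hy
      obtain ⟨c, hc, rfl⟩ := hy
      rw [out, Finset.mem_image] at hc
      obtain ⟨j, hj, rfl⟩ := hc
      rw [Finset.mem_filter] at hj
      rw [Finset.mem_sdiff]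
      have h2 := hx j hj.1 hj.2
      have h3 := hJ j hj.1 (by rw [hj.2]; exact hxX)
      rw [hj.2] at h2 h3
      exact ⟨h3, h2⟩
    have h2 := Finset.card_le_card h1
    rw [Finset.card_image_of_injective _ (add_right_injective x),
      Finset.card_sdiff_of_subset hWX] at h2
    have h3 : W.card ≤ X.card := Finset.card_le_card hWX
    omega
  · rw [Finset.not_nonempty_iff_eq_empty] at hW
    rw [hW]
    simp

/-- The bound for one pair of opposite classes. -/
theorem card_class (hsum : ∀ j, ∑ i, χ j i = 0) (hno : ¬ HasCycle χ) (hinj : Function.Injective χ)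
    (J : Finset (Fin n)) (pos : Fin n → Prop) (X₁ X₂ : Finset (ZMod m)) {d : ℕ}
    (hX₁ : X₁.card ≤ d) (hX₂ : X₂.card ≤ d) (h1 : ∀ j ∈ J, tl χ pos 1 j ∈ X₁)
    (h2 : ∀ j ∈ J, tl χ pos 2 j ∈ X₂) (h1' : ∀ j ∈ J, tl χ pos 1 j + χ j 0 ∈ X₁)
    (h2' : ∀ j ∈ J, tl χ pos 2 j + χ j 0 ∈ X₂) :
    J.card ≤ ∑ t ∈ Finset.Icc 1 (d - 1), (d - t) * (d - t) := by
  let Y : Finset (Σ _ : ZMod m × ZMod m, ZMod m) := (X₁ ×ˢ X₂).sigma fun p =>
    out χ J pos 1 p.1 ∩ out χ J pos 2 p.2
  have hJY : J.card ≤ Y.card := by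
    apply Finset.card_le_card_of_injOn
      (fun j => (⟨(tl χ pos 1 j, tl χ pos 2 j), χ j 0⟩ : Σ _ : ZMod m × ZMod m, ZMod m))
    · intro j hj
      rw [Finset.mem_coe] at hj ⊢
      rw [Finset.mem_sigma]
      refine ⟨Finset.mem_product.2 ⟨h1 j hj, h2 j hj⟩, Finset.mem_inter.2 ⟨?_, ?_⟩⟩
      · exact Finset.mem_image.2 ⟨j, Finset.mem_filter.2 ⟨hj, rfl⟩, rfl⟩
      · exact Finset.mem_image.2 ⟨j, Finset.mem_filter.2 ⟨hj, rfl⟩, rfl⟩
    · intro j _ j' _ heq
      by_contra hne
      simp only [Sigma.mk.injEq, Prod.mk.injEq, heq_eq_eq] at heq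
      obtain ⟨⟨e1, e2⟩, e0⟩ := heq
      have s1 := hsum j
      have s2 := hsum j'
      rw [Fin.sum_univ_four] at s1 s2
      simp only [tl] at e1 e2
      by_cases hp : pos j
      · by_cases hp' : pos j'
        · rw [if_pos hp, if_pos hp'] at e1 e2
          apply hne
          apply hinj
          funext l
          fin_cases l
          · exact e0
          · exact e1
          · exact e2
          · show χ j 3 = χ j' 3
            linear_combination s1 - s2 - e0 - e1 - e2
        · rw [if_pos hp, if_neg hp'] at e1 e2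
          exact hno (opp_sign hne hsum e0 e1 e2)
      · by_cases hp' : pos j'
        · rw [if_neg hp, if_pos hp'] at e1 e2
          exact hno (opp_sign (Ne.symm hne) hsum e0.symm e1.symm e2.symm)
        · rw [if_neg hp, if_neg hp'] at e1 e2
          apply hne
          apply hinj
          funext l
          fin_cases l
          · exact e0
          · show χ j 1 = χ j' 1
            linear_combination -e1 - e0
          · show χ j 2 = χ j' 2
            linear_combination -e2 - e0
          · show χ j 3 = χ j' 3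
            linear_combination s1 - s2 + e0 + e1 + e2
  have hout : ∀ (i : Fin 4) (hi : i ≠ 0) (X : Finset (ZMod m)), X.card ≤ d →
      (∀ j ∈ J, tl χ pos i j + χ j 0 ∈ X) → ∀ x ∈ X, (out χ J pos i x).card ≤ d - 1 := by
    intro i hi X hX h x hx
    by_contra hlt
    push Not at hlt
    have := card_big hsum hno J pos hi X hX (fun j hj _ => h j hj) (out χ J pos i x).card
    have h3 : 0 < (X.filter fun y => (out χ J pos i x).card ≤ (out χ J pos i y).card).card :=
      Finset.card_pos.2 ⟨x, Finset.mem_filter.2 ⟨hx, le_rfl⟩⟩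
    omega
  refine hJY.trans ?_
  rw [Finset.card_sigma]
  calc ∑ p ∈ X₁ ×ˢ X₂, (out χ J pos 1 p.1 ∩ out χ J pos 2 p.2).card
      ≤ ∑ p ∈ X₁ ×ˢ X₂, ∑ t ∈ Finset.Icc 1 (d - 1),
        (if t ≤ (out χ J pos 1 p.1).card then 1 else 0) *
        (if t ≤ (out χ J pos 2 p.2).card then 1 else 0) := by
        apply Finset.sum_le_sum
        intro p hp
        rw [Finset.mem_product] at hp
        have a1 := hout 1 (by decide) X₁ hX₁ h1' p.1 hp.1
        have a2 := hout 2 (by decide) X₂ hX₂ h2' p.2 hp.2
        have b1 : (out χ J pos 1 p.1 ∩ out χ J pos 2 p.2).card ≤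
            min (out χ J pos 1 p.1).card (out χ J pos 2 p.2).card :=
          le_min (Finset.card_le_card Finset.inter_subset_left)
            (Finset.card_le_card Finset.inter_subset_right)
        refine b1.trans ?_
        have : ∀ t, (if t ≤ (out χ J pos 1 p.1).card then 1 else 0) *
            (if t ≤ (out χ J pos 2 p.2).card then 1 else 0) =
            if t ≤ min (out χ J pos 1 p.1).card (out χ J pos 2 p.2).card then 1 else 0 := by
          intro t
          by_cases ha : t ≤ (out χ J pos 1 p.1).card <;>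
            by_cases hb : t ≤ (out χ J pos 2 p.2).card <;> simp [ha, hb]
        simp only [this]
        rw [← Finset.card_filter]
        calc min (out χ J pos 1 p.1).card (out χ J pos 2 p.2).card
            = (Finset.Icc 1 (min (out χ J pos 1 p.1).card (out χ J pos 2 p.2).card)).card := by
              rw [Nat.card_Icc]; omega
          _ ≤ _ := by
              apply Finset.card_le_card
              intro t ht
              rw [Finset.mem_Icc] at ht
              rw [Finset.mem_filter, Finset.mem_Icc]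
              exact ⟨⟨ht.1, by omega⟩, ht.2⟩
    _ = ∑ t ∈ Finset.Icc 1 (d - 1), (X₁.filter fun x => t ≤ (out χ J pos 1 x).card).card *
        (X₂.filter fun x => t ≤ (out χ J pos 2 x).card).card := by
        rw [Finset.sum_comm]
        apply Finset.sum_congr rfl
        intro t _
        rw [Finset.sum_product, Finset.card_filter, Finset.card_filter, Finset.sum_mul_sum]
    _ ≤ ∑ t ∈ Finset.Icc 1 (d - 1), (d - t) * (d - t) := by
        apply Finset.sum_le_sum
        intro t _
        exact Nat.mul_le_mul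
          (card_big hsum hno J pos (by decide) X₁ hX₁ (fun j hj _ => h1' j hj) t)
          (card_big hsum hno J pos (by decide) X₂ hX₂ (fun j hj _ => h2' j hj) t)

end Pool.Agent.K4H27.VF
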