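import Pool.Agent.K4H27.VF.Comb2

noncomputable section

namespace Pool.Agent.K4H27.VF

open scoped Classical

set_option linter.unusedSectionVars false

/-- Sorting three different natural numbers. -/
theorem sort3 {p₁ p₂ p₃ : ℕ} (h12 : p₁ ≠ p₂) (h23 : p₂ ≠ p₃) (h13 : p₁ ≠ p₃) :
    ∃ q : ℕ × ℕ × ℕ, q.1 < q.2.1 ∧ q.2.1 < q.2.2 ∧
      (q = (p₁, p₂, p₃) ∨ q = (p₁, p₃, p₂) ∨ q = (p₂, p₁, p₃) ∨ q = (p₂, p₃, p₁) ∨
        q = (p₃, p₁, p₂) ∨ q = (p₃, p₂, p₁)) := by
  rcases lt_or_gt_of_ne h12 with h1 | h1 <;> rcases lt_or_gt_of_ne h23 with h2 | h2 <;>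
    rcases lt_or_gt_of_ne h13 with h3 | h3
  · exact ⟨(p₁, p₂, p₃), h1, h2, by simp⟩
  · omega
  · exact ⟨(p₁, p₃, p₂), h3, h2, by simp⟩
  · exact ⟨(p₃, p₁, p₂), h3, h1, by simp⟩
  · exact ⟨(p₂, p₁, p₃), h1, h3, by simp⟩
  · exact ⟨(p₂, p₃, p₁), h2, h3, by simp⟩
  · omega
  · exact ⟨(p₃, p₂, p₁), h2, h1, by simp⟩

variable {d N n : ℕ} [NeZero d] [NeZero N] [NeZero (d * N)]

/-- Reduction modulo `N`. -/
def red : ZMod (d * N) →+* ZMod N := ZMod.castHom (dvd_mul_left N d) (ZMod N)

theorem red_eq (x : ZMod (d * N)) : red x = (x.val : ZMod N) := by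
  rw [red, ZMod.castHom_apply, ZMod.natCast_val]

theorem red_nat (x : ℕ) : red (x : ZMod (d * N)) = (x : ZMod N) := map_natCast red x

theorem red_of_mul (x : ZMod (d * N)) (h : x * (d : ZMod (d * N)) = 0) : red x = 0 := by
  rw [red_eq, ZMod.natCast_eq_zero_iff]
  have h1 : ((x.val * d : ℕ) : ZMod (d * N)) = 0 := by
    push_cast
    rw [ZMod.natCast_zmod_val]
    exact h
  rw [ZMod.natCast_eq_zero_iff] at h1
  have h2 : N * d ∣ x.val * d := by rw [mul_comm N d]; exact h1
  exact Nat.dvd_of_mul_dvd_mul_right (Nat.pos_of_ne_zero (NeZero.ne d)) h2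

theorem mul_of_red {y k : ZMod (d * N)} (hy : red y = 0) (hk : (N : ZMod (d * N)) * k = 0) :
    y * k = 0 := by
  rw [red_eq, ZMod.natCast_eq_zero_iff] at hy
  obtain ⟨q, hq⟩ := hy
  have h1 : y = (N : ZMod (d * N)) * q := by
    rw [← ZMod.natCast_zmod_val y, hq]
    push_cast
    ring
  rw [h1]
  linear_combination (q : ZMod (d * N)) * hk

/-- The condition of being trivial on `H` depends only on the residues modulo `N`. -/
theorem perp_of_red {H : AddSubgroup (Fin 4 → ZMod (d * N))}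
    (hH : ∀ k ∈ H, ∀ i, (N : ZMod (d * N)) * k i = 0) {a a' : Fin 4 → ZMod (d * N)}
    (ha : ∀ k ∈ H, ∑ i, a i * k i = 0)
    (h : (∀ i, red (a' i) = red (a i)) ∨ (∀ i, red (a' i) = -red (a i))) :
    ∀ k ∈ H, ∑ i, a' i * k i = 0 := by
  intro k hk
  rcases h with h | h
  · have h1 : ∀ i, a' i * k i = a i * k i := by
      intro i
      have : (a' i - a i) * k i = 0 := mul_of_red (by rw [map_sub, h, sub_self]) (hH k hk i)
      linear_combination this
    simp only [h1]
    exact ha k hk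
  · have h1 : ∀ i, a' i * k i = -(a i * k i) := by
      intro i
      have : (a' i + a i) * k i = 0 := mul_of_red (by rw [map_add, h]; ring) (hH k hk i)
      linear_combination this
    simp only [h1]
    rw [Finset.sum_neg_distrib, ha k hk, neg_zero]

/-- The elements with a given residue. -/
def resid (d N : ℕ) [NeZero (d * N)] [NeZero N] (r : ZMod N) : Finset (ZMod (d * N)) :=
  Finset.univ.filter fun x => red x = r

theorem card_resid (r : ZMod N) : (resid d N r).card ≤ d := by
  have h1 : (resid d N r).card ≤ (Finset.range d).card := by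
    apply Finset.card_le_card_of_injOn (fun x => x.val / N)
    · intro x _
      rw [Finset.mem_coe, Finset.mem_range]
      have := ZMod.val_lt x
      exact Nat.div_lt_of_lt_mul (lt_of_lt_of_eq this (mul_comm d N))
    · intro x hx y hy hxy
      simp only [resid, Finset.coe_filter, Finset.mem_univ, true_and, Set.mem_ofPred_eq,
        red_eq] at hx hy
      have h2 : x.val % N = y.val % N := by
        have : ((x.val : ℕ) : ZMod N) = ((y.val : ℕ) : ZMod N) := by rw [hx, hy]
        exact (ZMod.natCast_eq_natCast_iff' _ _ _).1 this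
      apply ZMod.val_injective
      rw [← Nat.div_add_mod x.val N, ← Nat.div_add_mod y.val N, h2]
      have h3 : x.val / N = y.val / N := hxy
      rw [h3]
  rwa [Finset.card_range] at h1

/-- The sum of the representatives of the residues. -/
def sv (r : Fin 4 → ZMod N) : ℕ := (r 1).val + (r 2).val + (r 3).val

/-- The label of a character. -/
def lab (a : Fin 4 → ZMod (d * N)) : Fin 4 → ZMod N :=
  if (∃ i, i ≠ 0 ∧ red (a i) = 0) ∨ sv (fun i => red (a i)) = N then fun i => red (a i)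
  else fun i => -red (a i)

theorem lab_zero {a : Fin 4 → ZMod (d * N)} {r : Fin 4 → ZMod N} (h : lab a = r)
    {i : Fin 4} (hi : i ≠ 0) (hr : r i = 0) : ∀ i, red (a i) = r i := by
  intro i'
  rw [lab] at h
  split_ifs at h with hc
  · exact congrFun h i'
  · exfalso
    apply hc
    left
    refine ⟨i, hi, ?_⟩
    have := congrFun h i
    rw [hr, neg_eq_zero] at this
    exact this

theorem lab_cases {a : Fin 4 → ZMod (d * N)} {r : Fin 4 → ZMod N} (h : lab a = r) :
    (∀ i, red (a i) = r i) ∨ (∀ i, red (a i) = -r i) := by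
  rw [lab] at h
  split_ifs at h with hc
  · left; exact fun i => congrFun h i
  · right
    intro i
    rw [← h]
    simp

theorem val_neg_add {x : ZMod N} (hx : x ≠ 0) : (-x).val + x.val = N := by
  have : NeZero x := ⟨hx⟩
  rw [ZMod.val_neg_of_ne_zero]
  have := ZMod.val_lt x
  omega

theorem sv_neg {r : Fin 4 → ZMod N} (hr : ∀ i, i ≠ 0 → r i ≠ 0) :
    sv (fun i => -r i) + sv r = 3 * N := by
  have h1 := val_neg_add (hr 1 (by decide))
  have h2 := val_neg_add (hr 2 (by decide))
  have h3 := val_neg_add (hr 3 (by decide))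
  simp only [sv]
  omega

theorem val_pos_of_ne {x : ZMod N} (hx : x ≠ 0) : 0 < x.val := by
  rw [Nat.pos_iff_ne_zero]
  intro h
  exact hx ((ZMod.val_eq_zero x).1 h)

theorem sv_cases {r : Fin 4 → ZMod N} (h0 : r 0 = 0) (hs : ∑ i, r i = 0)
    (hr : ∀ i, i ≠ 0 → r i ≠ 0) : sv r = N ∨ sv r = 2 * N := by
  rw [Fin.sum_univ_four, h0] at hs
  have h1 : ((sv r : ℕ) : ZMod N) = 0 := by
    simp only [sv]
    push_cast
    rw [ZMod.natCast_zmod_val, ZMod.natCast_zmod_val, ZMod.natCast_zmod_val]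
    linear_combination hs
  rw [ZMod.natCast_eq_zero_iff] at h1
  obtain ⟨q, hq⟩ := h1
  have a1 := ZMod.val_lt (r 1)
  have a2 := ZMod.val_lt (r 2)
  have a3 := ZMod.val_lt (r 3)
  have b1 := val_pos_of_ne (hr 1 (by decide))
  simp only [sv] at hq ⊢
  have hq3 : q < 3 := by
    by_contra hcon
    push Not at hcon
    have : 3 * N ≤ q * N := Nat.mul_le_mul_right N hcon
    rw [mul_comm q N] at this
    omega
  interval_cases q
  · omega
  · left; omega
  · right; omega

theorem lab_sv {a : Fin 4 → ZMod (d * N)} {r : Fin 4 → ZMod N} (h : lab a = r)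
    (ha0 : red (a 0) = 0) (hs : ∑ i, a i = 0) (hr : ∀ i, i ≠ 0 → r i ≠ 0) : sv r = N := by
  have hred : ∑ i, red (a i) = 0 := by rw [← map_sum, hs, map_zero]
  rw [lab] at h
  split_ifs at h with hc
  · rcases hc with ⟨i, hi, hi0⟩ | hc
    · exfalso
      apply hr i hi
      rw [← h]
      exact hi0
    · rw [← h]; exact hc
  · push Not at hc
    obtain ⟨hc1, hc2⟩ := hc
    rcases sv_cases (r := fun i => red (a i)) ha0 hred hc1 with h1 | h1
    · exact absurd h1 hc2
    · have := sv_neg (r := fun i => red (a i)) hc1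
      rw [← h]
      omega

theorem lab_of_pos {a : Fin 4 → ZMod (d * N)} {r : Fin 4 → ZMod N}
    (h : ∀ i, red (a i) = r i) (hr : (∃ i, i ≠ 0 ∧ r i = 0) ∨ sv r = N) : lab a = r := by
  have h1 : (fun i => red (a i)) = r := funext h
  rw [lab, h1]
  simp only [h]
  rw [if_pos hr]

theorem lab_of_neg {a : Fin 4 → ZMod (d * N)} {r : Fin 4 → ZMod N}
    (h : ∀ i, red (a i) = -r i) (hr : ∀ i, i ≠ 0 → r i ≠ 0) (hs : sv r = N) : lab a = r := by
  rw [lab, if_neg]
  · funext i
    rw [h, neg_neg]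
  · rintro (⟨i, hi, hi0⟩ | hc)
    · rw [h, neg_eq_zero] at hi0
      exact hr i hi hi0
    · have h1 : (fun i => red (a i)) = fun i => -r i := funext h
      rw [h1] at hc
      have := sv_neg hr
      have hN : 0 < N := Nat.pos_of_ne_zero (NeZero.ne N)
      omega

end Pool.Agent.K4H27.VF
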