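import Pool.Agent.K4H27.VF.Comb3

noncomputable section

namespace Pool.Agent.K4H27.VF

open scoped Classical

set_option linter.unusedSectionVars false

theorem perm3 {p₁ p₂ p₃ p₁' p₂' p₃' : ℕ} {q : ℕ × ℕ × ℕ}
    (h : q = (p₁, p₂, p₃) ∨ q = (p₁, p₃, p₂) ∨ q = (p₂, p₁, p₃) ∨ q = (p₂, p₃, p₁) ∨
        q = (p₃, p₁, p₂) ∨ q = (p₃, p₂, p₁))
    (h' : q = (p₁', p₂', p₃') ∨ q = (p₁', p₃', p₂') ∨ q = (p₂', p₁', p₃') ∨
        q = (p₂', p₃', p₁') ∨ q = (p₃', p₁', p₂') ∨ q = (p₃', p₂', p₁')) :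
    (p₁' = p₁ ∧ p₂' = p₂ ∧ p₃' = p₃) ∨ (p₁' = p₁ ∧ p₂' = p₃ ∧ p₃' = p₂) ∨
      (p₁' = p₂ ∧ p₂' = p₁ ∧ p₃' = p₃) ∨ (p₁' = p₂ ∧ p₂' = p₃ ∧ p₃' = p₁) ∨
      (p₁' = p₃ ∧ p₂' = p₁ ∧ p₃' = p₂) ∨ (p₁' = p₃ ∧ p₂' = p₂ ∧ p₃' = p₁) := by
  rcases h with rfl | rfl | rfl | rfl | rfl | rfl <;>
    rcases h' with h' | h' | h' | h' | h' | h' <;> simp only [Prod.mk.injEq] at h' <;>
    obtain ⟨rfl, rfl, rfl⟩ := h' <;> simp

variable {d N n : ℕ} [NeZero d] [NeZero N] [NeZero (d * N)]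

theorem val_w {w : Fin 4 → ℕ} (h1 : ∀ i, 1 ≤ w i) (hs : ∑ i, w i = d * N) (i : Fin 4) :
    ((w i : ℕ) : ZMod (d * N)).val = w i := by
  apply ZMod.val_natCast_of_lt
  rw [Fin.sum_univ_four] at hs
  have a0 := h1 0
  have a1 := h1 1
  have a2 := h1 2
  have a3 := h1 3
  fin_cases i <;> simp <;> omega

theorem w_inj {w w' : Fin 4 → ℕ} (h1 : ∀ i, 1 ≤ w i) (hs : ∑ i, w i = d * N)
    (h1' : ∀ i, 1 ≤ w' i) (hs' : ∑ i, w' i = d * N)
    (h : (fun i => ((w i : ℕ) : ZMod (d * N))) = fun i => ((w' i : ℕ) : ZMod (d * N))) :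
    w = w' := by
  funext i
  rw [← val_w h1 hs i, ← val_w h1' hs' i]
  exact congrArg ZMod.val (congrFun h i)

theorem mem_forms {H : AddSubgroup (Fin 4 → ZMod (d * N))}
    (hH : ∀ k ∈ H, ∀ i, (N : ZMod (d * N)) * k i = 0) {a : Fin 4 → ZMod (d * N)}
    (ha : ∀ k ∈ H, ∑ i, a i * k i = 0) {w : Fin 4 → ℕ} (h1 : ∀ i, 1 ≤ w i)
    (hs : ∑ i, w i = d * N)
    (h : (∀ i, red ((w i : ℕ) : ZMod (d * N)) = red (a i)) ∨
      (∀ i, red ((w i : ℕ) : ZMod (d * N)) = -red (a i))) :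
    (fun i => ((w i : ℕ) : ZMod (d * N))) ∈ forms H := by
  rw [forms, Finset.mem_filter]
  refine ⟨Finset.mem_univ _, fun i h0 => ?_, ?_, perp_of_red hH ha h⟩
  · have := val_w h1 hs i
    simp only at h0
    rw [h0, ZMod.val_zero] at this
    have := h1 i
    omega
  · simp only [val_w h1 hs]
    exact hs

/-- The bound for the classes with a zero residue. -/
theorem zero_type {H : AddSubgroup (Fin 4 → ZMod (d * N))}
    (hH : ∀ k ∈ H, ∀ i, (N : ZMod (d * N)) * k i = 0) {χ : Fin n → Fin 4 → ZMod (d * N)}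
    (hsum : ∀ j, ∑ i, χ j i = 0) (hne : ∀ j i, χ j i ≠ 0)
    (hperp : ∀ j, ∀ k ∈ H, ∑ i, χ j i * k i = 0) (hinj : Function.Injective χ)
    (hno : ¬ HasCycle χ) (h0 : ∀ j, red (χ j 0) = 0) (r : Fin 4 → ZMod N)
    (e : Equiv.Perm (Fin 4)) (he1 : e 1 = 0) (he2 : r (e 2) = 0) :
    (Finset.univ.filter fun j => lab (χ j) = r).card ≤ ((forms H).filter fun a => lab a = r).card := by
  have he2' : e 2 ≠ 0 := by
    rw [← he1]; exact e.injective.ne (by decide)
  by_cases hemp : (Finset.univ.filter fun j => lab (χ j) = r) = ∅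
  · rw [hemp]; simp
  obtain ⟨j₀, hj₀⟩ := Finset.nonempty_iff_ne_empty.2 hemp
  rw [Finset.mem_filter] at hj₀
  have hr₀ := lab_zero hj₀.2 he2' he2
  have hr0 : r 0 = 0 := by rw [← hr₀, h0]
  have hrs : r (e 0) + r (e 3) = 0 := by
    have h1 : ∑ i, r i = 0 := by
      simp only [← hr₀]
      rw [← map_sum, hsum, map_zero]
    rw [← Equiv.sum_comp e, Fin.sum_univ_four, he1, hr0, he2] at h1
    linear_combination h1
  have hopp : ∀ j i i', i ≠ i' → χ j i + χ j i' ≠ 0 := fun j i i' hi h => hno (mk_one j hi h)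
  have hsumE : ∀ j, χ j (e 0) + χ j (e 1) + χ j (e 2) + χ j (e 3) = 0 := by
    intro j
    have := hsum j
    rw [← Equiv.sum_comp e, Fin.sum_univ_four] at this
    exact this
  have hne03 : e 0 ≠ e 3 := e.injective.ne (by decide)
  have hne01 : e 0 ≠ e 1 := e.injective.ne (by decide)
  have hq : ∀ j, ∃ q : ℕ × ℕ × ℕ, q.1 < q.2.1 ∧ q.2.1 < q.2.2 ∧
      (q = ((χ j (e 0)).val, (χ j (e 0) + χ j (e 1)).val, (-χ j (e 3)).val) ∨
      q = ((χ j (e 0)).val, (-χ j (e 3)).val, (χ j (e 0) + χ j (e 1)).val) ∨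
      q = ((χ j (e 0) + χ j (e 1)).val, (χ j (e 0)).val, (-χ j (e 3)).val) ∨
      q = ((χ j (e 0) + χ j (e 1)).val, (-χ j (e 3)).val, (χ j (e 0)).val) ∨
      q = ((-χ j (e 3)).val, (χ j (e 0)).val, (χ j (e 0) + χ j (e 1)).val) ∨
      q = ((-χ j (e 3)).val, (χ j (e 0) + χ j (e 1)).val, (χ j (e 0)).val)) := by
    intro j
    apply sort3
    · intro h
      apply hne j (e 1)
      have := ZMod.val_injective _ h
      linear_combination -this
    · intro h
      apply hne j (e 2)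
      have := ZMod.val_injective _ h
      linear_combination hsumE j - this
    · intro h
      apply hopp j _ _ hne03
      have := ZMod.val_injective _ h
      linear_combination this
  choose q hq1 hq2 hq3 using hq
  let T : Finset (ℕ × ℕ × ℕ) := ((Finset.range (d * N)) ×ˢ ((Finset.range (d * N)) ×ˢ
    (Finset.range (d * N)))).filter fun q => 1 ≤ q.1 ∧ q.1 < q.2.1 ∧ q.2.1 < q.2.2 ∧
      (q.1 : ZMod N) = r (e 0) ∧ (q.2.1 : ZMod N) = r (e 0) ∧ (q.2.2 : ZMod N) = r (e 0)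
  have step1 : (Finset.univ.filter fun j => lab (χ j) = r).card ≤ T.card := by
    apply Finset.card_le_card_of_injOn q
    · intro j hj
      rw [Finset.mem_coe, Finset.mem_filter] at hj
      have hr := lab_zero hj.2 he2' he2
      have a1 : ((χ j (e 0)).val : ZMod N) = r (e 0) := by rw [← red_eq, hr]
      have a2 : ((χ j (e 0) + χ j (e 1)).val : ZMod N) = r (e 0) := by
        rw [← red_eq, map_add, hr, he1, h0, add_zero]
      have a3 : ((-χ j (e 3)).val : ZMod N) = r (e 0) := by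
        rw [← red_eq, map_neg, hr]
        linear_combination -hrs
      have b1 := ZMod.val_lt (χ j (e 0))
      have b2 := ZMod.val_lt (χ j (e 0) + χ j (e 1))
      have b3 := ZMod.val_lt (-χ j (e 3))
      have c1 := val_pos_of_ne (hne j (e 0))
      have c2 := val_pos_of_ne (hopp j _ _ hne01)
      have c3 := val_pos_of_ne (neg_ne_zero.2 (hne j (e 3)))
      have hq1' := hq1 j
      have hq2' := hq2 j
      rw [Finset.mem_coe]
      simp only [T, Finset.mem_filter, Finset.mem_product, Finset.mem_range]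
      rcases hq3 j with h | h | h | h | h | h <;> rw [h] at hq1' hq2' ⊢ <;>
        exact ⟨⟨by assumption, by assumption, by assumption⟩, by assumption, hq1', hq2',
          by assumption, by assumption, by assumption⟩
    · intro j _ j' _ hjj
      by_contra hne'
      have hp := perm3 (hq3 j) (by rw [hjj]; exact hq3 j')
      have hv : ∀ {x y : ZMod (d * N)}, x.val = y.val → x = y := fun h => ZMod.val_injective _ h
      rcases hp with ⟨h1, h2, h3⟩ | hp
      · apply hne'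
        apply hinj
        have e1 := hv h1
        have e2 := hv h2
        have e3 := hv h3
        funext i
        obtain ⟨t, rfl⟩ := e.surjective i
        fin_cases t
        · exact e1.symm
        · show χ j (e 1) = χ j' (e 1)
          linear_combination e1 - e2
        · show χ j (e 2) = χ j' (e 2)
          linear_combination e2 - e3 + hsumE j - hsumE j'
        · show χ j (e 3) = χ j' (e 3)
          linear_combination e3
      · apply hno
        apply three_set hne' hsum e rfl rfl rfl rfl rfl rfl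
        rcases hp with ⟨h1, h2, h3⟩ | ⟨h1, h2, h3⟩ | ⟨h1, h2, h3⟩ | ⟨h1, h2, h3⟩ | ⟨h1, h2, h3⟩
        · exact Or.inl ⟨hv h1, hv h2, hv h3⟩
        · exact Or.inr (Or.inl ⟨hv h1, hv h2, hv h3⟩)
        · exact Or.inr (Or.inr (Or.inl ⟨hv h1, hv h2, hv h3⟩))
        · exact Or.inr (Or.inr (Or.inr (Or.inl ⟨hv h1, hv h2, hv h3⟩)))
        · exact Or.inr (Or.inr (Or.inr (Or.inr ⟨hv h1, hv h2, hv h3⟩)))
  refine step1.trans ?_
  let w : ℕ × ℕ × ℕ → Fin 4 → ℕ := fun q i =>
    (![q.1, q.2.1 - q.1, q.2.2 - q.2.1, d * N - q.2.2] : Fin 4 → ℕ) (e.symm i)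
  have hw1 : ∀ q ∈ T, ∀ i, 1 ≤ w q i := by
    intro q hq i
    simp only [T, Finset.mem_filter, Finset.mem_product, Finset.mem_range] at hq
    obtain ⟨⟨a1, a2, a3⟩, b1, b2, b3, -⟩ := hq
    simp only [w]
    generalize e.symm i = t
    fin_cases t <;> simp <;> omega
  have hws : ∀ q ∈ T, ∑ i, w q i = d * N := by
    intro q hq
    simp only [T, Finset.mem_filter, Finset.mem_product, Finset.mem_range] at hq
    obtain ⟨⟨a1, a2, a3⟩, b1, b2, b3, -⟩ := hq
    rw [← Equiv.sum_comp e]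
    simp only [w, Equiv.symm_apply_apply, Fin.sum_univ_four]
    simp
    omega
  have hwr : ∀ q ∈ T, ∀ i, red ((w q i : ℕ) : ZMod (d * N)) = r i := by
    intro q hq i
    simp only [T, Finset.mem_filter, Finset.mem_product, Finset.mem_range] at hq
    obtain ⟨⟨a1, a2, a3⟩, b1, b2, b3, c1, c2, c3⟩ := hq
    obtain ⟨t, rfl⟩ := e.surjective i
    rw [red_nat]
    simp only [w, Equiv.symm_apply_apply]
    fin_cases t
    · simpa using c1
    · simp
      rw [Nat.cast_sub b2.le, c1, c2, he1, hr0, sub_self]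
    · simp
      rw [Nat.cast_sub b3.le, c2, c3, he2, sub_self]
    · simp
      rw [Nat.cast_sub a3.le, c3]
      push_cast
      rw [ZMod.natCast_self]
      linear_combination -hrs
  apply Finset.card_le_card_of_injOn (fun q i => ((w q i : ℕ) : ZMod (d * N)))
  · intro q hq
    rw [Finset.mem_coe] at hq
    rw [Finset.mem_coe, Finset.mem_filter]
    refine ⟨mem_forms hH (hperp j₀) (hw1 q hq) (hws q hq) (Or.inl fun i => ?_), ?_⟩
    · rw [hwr q hq, hr₀]
    · exact lab_of_pos (hwr q hq) (Or.inl ⟨e 2, he2', he2⟩)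
  · intro q hq q' hq' heq
    rw [Finset.mem_coe] at hq hq'
    have h1 := w_inj (hw1 q hq) (hws q hq) (hw1 q' hq') (hws q' hq') heq
    have g0 := congrFun h1 (e 0)
    have g1 := congrFun h1 (e 1)
    have g3 := congrFun h1 (e 3)
    simp only [w, Equiv.symm_apply_apply] at g0 g1 g3
    simp at g0 g1 g3
    simp only [T, Finset.mem_filter, Finset.mem_product, Finset.mem_range] at hq hq'
    obtain ⟨⟨a1, a2, a3⟩, b1, b2, b3, -⟩ := hq
    obtain ⟨⟨a1', a2', a3'⟩, b1', b2', b3', -⟩ := hq'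
    ext
    · omega
    · omega
    · omega

end Pool.Agent.K4H27.VF
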