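import Pool.Agent.K4H27.VF.Comb4

noncomputable section

namespace Pool.Agent.K4H27.VF

open scoped Classical

set_option linter.unusedSectionVars false

variable {d N n : ℕ} [NeZero d] [NeZero N] [NeZero (d * N)]

/-- The index set for the forms in a class without zero residues. -/
def idx (d : ℕ) : Finset (Σ _ : ℕ, ℕ × ℕ) :=
  (Finset.Icc 1 (d - 1)).sigma fun t => Finset.range (d - t) ×ˢ Finset.range (d - t)

theorem card_idx (d : ℕ) : (idx d).card = ∑ t ∈ Finset.Icc 1 (d - 1), (d - t) * (d - t) := by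
  rw [idx, Finset.card_sigma]
  apply Finset.sum_congr rfl
  intro t _
  rw [Finset.card_product, Finset.card_range]

/-- The weights of the forms. -/
def wt (d N : ℕ) (r : Fin 4 → ℕ) (p : Σ _ : ℕ, ℕ × ℕ) : Fin 4 → ℕ :=
  if p.1 + p.2.1 + p.2.2 ≤ d - 1 then
    ![p.1 * N, r 1 + p.2.1 * N, r 2 + p.2.2 * N, r 3 + (d - 1 - p.1 - p.2.1 - p.2.2) * N]
  else ![p.1 * N, (N - r 1) + (d - 1 - p.1 - p.2.1) * N, (N - r 2) + (d - 1 - p.1 - p.2.2) * N,
    (N - r 3) + (p.1 + p.2.1 + p.2.2 - d) * N]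

theorem mem_idx {d : ℕ} {p : Σ _ : ℕ, ℕ × ℕ} (hp : p ∈ idx d) :
    1 ≤ p.1 ∧ p.1 + p.2.1 + 1 ≤ d ∧ p.1 + p.2.2 + 1 ≤ d := by
  rw [idx, Finset.mem_sigma, Finset.mem_product, Finset.mem_Icc, Finset.mem_range,
    Finset.mem_range] at hp
  omega

theorem wt_sum {d N : ℕ} {r : Fin 4 → ℕ} (hr : r 1 + r 2 + r 3 = N)
    {p : Σ _ : ℕ, ℕ × ℕ} (hp : p ∈ idx d) : ∑ i, wt d N r p i = d * N := by
  obtain ⟨h1, h2, h3⟩ := mem_idx hp
  rw [Fin.sum_univ_four, wt]
  split_ifs with h
  · obtain ⟨c, hc⟩ : ∃ c, d = p.1 + p.2.1 + p.2.2 + 1 + c := ⟨d - (p.1 + p.2.1 + p.2.2 + 1), by omega⟩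
    have e1 : d - 1 - p.1 - p.2.1 - p.2.2 = c := by omega
    simp
    rw [e1, hc]
    nlinarith
  · obtain ⟨c, hc⟩ : ∃ c, p.1 + p.2.1 + p.2.2 = d + c := ⟨p.1 + p.2.1 + p.2.2 - d, by omega⟩
    obtain ⟨a, ha⟩ : ∃ a, d = 1 + p.1 + p.2.1 + a := ⟨d - 1 - p.1 - p.2.1, by omega⟩
    obtain ⟨b, hb⟩ : ∃ b, d = 1 + p.1 + p.2.2 + b := ⟨d - 1 - p.1 - p.2.2, by omega⟩
    have e1 : d - 1 - p.1 - p.2.1 = a := by omega
    have e2 : d - 1 - p.1 - p.2.2 = b := by omega
    have e3 : p.1 + p.2.1 + p.2.2 - d = c := by omega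
    simp
    rw [e1, e2, e3]
    have e4 : p.1 + a + b + c + 2 = d := by omega
    have e5 : (N - r 1) + (N - r 2) + (N - r 3) = 2 * N := by omega
    have e6 : (p.1 + a + b + c + 2) * N = d * N := by rw [e4]
    nlinarith

/-- The bound for the classes without zero residues. -/
theorem nonzero_type {H : AddSubgroup (Fin 4 → ZMod (d * N))}
    (hH : ∀ k ∈ H, ∀ i, (N : ZMod (d * N)) * k i = 0) {χ : Fin n → Fin 4 → ZMod (d * N)}
    (hsum : ∀ j, ∑ i, χ j i = 0)
    (hperp : ∀ j, ∀ k ∈ H, ∑ i, χ j i * k i = 0) (hinj : Function.Injective χ)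
    (hno : ¬ HasCycle χ) (h0 : ∀ j, red (χ j 0) = 0) (r : Fin 4 → ZMod N)
    (hr : ∀ i, i ≠ 0 → r i ≠ 0) :
    (Finset.univ.filter fun j => lab (χ j) = r).card ≤ ((forms H).filter fun a => lab a = r).card := by
  by_cases hemp : (Finset.univ.filter fun j => lab (χ j) = r) = ∅
  · rw [hemp]; simp
  obtain ⟨j₀, hj₀⟩ := Finset.nonempty_iff_ne_empty.2 hemp
  rw [Finset.mem_filter] at hj₀
  have hsv : sv r = N := lab_sv hj₀.2 (h0 j₀) (hsum j₀) hr
  have hr0 : r 0 = 0 := by
    rcases lab_cases hj₀.2 with h | h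
    · rw [← h, h0]
    · have := h 0
      rw [h0] at this
      exact neg_eq_zero.1 this.symm
  have hNpos : 0 < N := Nat.pos_of_ne_zero (NeZero.ne N)
  -- upper bound
  have step1 : (Finset.univ.filter fun j => lab (χ j) = r).card ≤
      ∑ t ∈ Finset.Icc 1 (d - 1), (d - t) * (d - t) := by
    let pos : Fin n → Prop := fun j => ∀ i, red (χ j i) = r i
    have htl : ∀ i, ∀ j ∈ (Finset.univ.filter fun j => lab (χ j) = r),
        tl χ pos i j ∈ resid d N (r i) ∧ tl χ pos i j + χ j 0 ∈ resid d N (r i) := by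
      intro i j hj
      rw [Finset.mem_filter] at hj
      simp only [resid, Finset.mem_filter, Finset.mem_univ, true_and, map_add, h0, add_zero,
        and_self, tl]
      split_ifs with hp
      · exact hp i
      · rcases lab_cases hj.2 with h | h
        · exact absurd h hp
        · rw [map_sub, map_neg, h, h0]
          ring
    exact card_class hsum hno hinj _ pos (resid d N (r 1)) (resid d N (r 2)) (card_resid _)
      (card_resid _) (fun j hj => (htl 1 j hj).1) (fun j hj => (htl 2 j hj).1)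
      (fun j hj => (htl 1 j hj).2) (fun j hj => (htl 2 j hj).2)
  refine step1.trans ?_
  rw [← card_idx]
  -- lower bound
  let rv : Fin 4 → ℕ := fun i => (r i).val
  have hrv : rv 1 + rv 2 + rv 3 = N := hsv
  have p1 : 0 < rv 1 := val_pos_of_ne (hr 1 (by decide))
  have p2 : 0 < rv 2 := val_pos_of_ne (hr 2 (by decide))
  have p3 : 0 < rv 3 := val_pos_of_ne (hr 3 (by decide))
  have c1 : ((rv 1 : ℕ) : ZMod N) = r 1 := ZMod.natCast_zmod_val _
  have c2 : ((rv 2 : ℕ) : ZMod N) = r 2 := ZMod.natCast_zmod_val _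
  have c3 : ((rv 3 : ℕ) : ZMod N) = r 3 := ZMod.natCast_zmod_val _
  have hw1 : ∀ p ∈ idx d, ∀ i, 1 ≤ wt d N rv p i := by
    intro p hp i
    obtain ⟨h1, h2, h3⟩ := mem_idx hp
    have h4 : 1 ≤ p.1 * N := Nat.mul_pos h1 hNpos
    rw [wt]
    split_ifs with h
    · fin_cases i <;> simp <;> omega
    · fin_cases i <;> simp <;> omega
  have hws : ∀ p ∈ idx d, ∑ i, wt d N rv p i = d * N := fun p hp => wt_sum hrv hp
  have hwpos : ∀ p ∈ idx d, p.1 + p.2.1 + p.2.2 ≤ d - 1 → ∀ i,
      red ((wt d N rv p i : ℕ) : ZMod (d * N)) = r i := by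
    intro p hp h i
    rw [red_nat, wt, if_pos h]
    fin_cases i <;> simp [c1, c2, c3, hr0]
  have hwneg : ∀ p ∈ idx d, ¬ p.1 + p.2.1 + p.2.2 ≤ d - 1 → ∀ i,
      red ((wt d N rv p i : ℕ) : ZMod (d * N)) = -r i := by
    intro p hp h i
    rw [red_nat, wt, if_neg h]
    have q1 : ((N - rv 1 : ℕ) : ZMod N) = -r 1 := by
      rw [Nat.cast_sub (by omega), c1]; simp
    have q2 : ((N - rv 2 : ℕ) : ZMod N) = -r 2 := by
      rw [Nat.cast_sub (by omega), c2]; simp
    have q3 : ((N - rv 3 : ℕ) : ZMod N) = -r 3 := by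
      rw [Nat.cast_sub (by omega), c3]; simp
    fin_cases i
    · simp [hr0]
    · simp [q1]
    · simp [q2]
    · simp [q3]
  have hlab : ∀ p ∈ idx d, lab (fun i => ((wt d N rv p i : ℕ) : ZMod (d * N))) = r := by
    intro p hp
    by_cases h : p.1 + p.2.1 + p.2.2 ≤ d - 1
    · exact lab_of_pos (hwpos p hp h) (Or.inr hsv)
    · exact lab_of_neg (hwneg p hp h) hr hsv
  apply Finset.card_le_card_of_injOn (fun p i => ((wt d N rv p i : ℕ) : ZMod (d * N)))
  · intro p hp
    rw [Finset.mem_coe] at hp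
    rw [Finset.mem_coe, Finset.mem_filter]
    refine ⟨mem_forms hH (hperp j₀) (hw1 p hp) (hws p hp) ?_, hlab p hp⟩
    by_cases h : p.1 + p.2.1 + p.2.2 ≤ d - 1
    · rcases lab_cases hj₀.2 with h' | h'
      · left; intro i; rw [hwpos p hp h, h']
      · right; intro i; rw [hwpos p hp h, h', neg_neg]
    · rcases lab_cases hj₀.2 with h' | h'
      · right; intro i; rw [hwneg p hp h, h']
      · left; intro i; rw [hwneg p hp h, h']
  · intro p hp p' hp' heq
    rw [Finset.mem_coe] at hp hp'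
    have hw := w_inj (hw1 p hp) (hws p hp) (hw1 p' hp') (hws p' hp') heq
    have hneg : ∀ p ∈ idx d, ∀ p' ∈ idx d, wt d N rv p = wt d N rv p' →
        p.1 + p.2.1 + p.2.2 ≤ d - 1 → p'.1 + p'.2.1 + p'.2.2 ≤ d - 1 := by
      intro p hp p' hp' hw h
      by_contra h'
      have e1 : ∀ i, r i = -r i := by
        intro i
        rw [← hwneg p' hp' h' i, ← hw, hwpos p hp h i]
      have e2 := sv_neg hr
      have e3 : (fun i => -r i) = r := by funext i; exact (e1 i).symm
      rw [e3] at e2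
      omega
    have g0 := congrFun hw 0
    have g1 := congrFun hw 1
    have g2 := congrFun hw 2
    have h12 := mem_idx hp
    have h12' := mem_idx hp'
    have hN0 : N ≠ 0 := NeZero.ne N
    by_cases h : p.1 + p.2.1 + p.2.2 ≤ d - 1
    · have h' := hneg p hp p' hp' hw h
      rw [wt, wt, if_pos h, if_pos h'] at g0 g1 g2
      simp [hN0] at g0 g1 g2
      obtain ⟨a, b, c⟩ := p
      obtain ⟨a', b', c'⟩ := p'
      simp only at g0 g1 g2
      rw [g0, g1, g2]
    · have h' : ¬ p'.1 + p'.2.1 + p'.2.2 ≤ d - 1 := fun h'' => h (hneg p' hp' p hp hw.symm h'')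
      rw [wt, wt, if_neg h, if_neg h'] at g0 g1 g2
      simp [hN0] at g0 g1 g2
      obtain ⟨a, b, c⟩ := p
      obtain ⟨a', b', c'⟩ := p'
      simp only at g0 g1 g2 h12 h12'
      have e1 : b = b' := by omega
      have e2 : c = c' := by omega
      rw [g0, e1, e2]

/-- More characters than forms: there is a cycle. -/
theorem comb {H : AddSubgroup (Fin 4 → ZMod (d * N))}
    (hH : ∀ k ∈ H, ∀ i, (N : ZMod (d * N)) * k i = 0)
    (hH0 : Pi.single 0 (d : ZMod (d * N)) ∈ H) (hn : (forms H).card < n)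
    (χ : Fin n → Fin 4 → ZMod (d * N)) (hsum : ∀ j, ∑ i, χ j i = 0) (hne : ∀ j i, χ j i ≠ 0)
    (hperp : ∀ j, ∀ k ∈ H, ∑ i, χ j i * k i = 0) (hinj : Function.Injective χ) :
    HasCycle χ := by
  by_contra hno
  have h0 : ∀ j, red (χ j 0) = 0 := by
    intro j
    apply red_of_mul
    have := hperp j _ hH0
    rw [Finset.sum_eq_single 0] at this
    · simpa using this
    · intro i _ hi
      rw [Pi.single_eq_of_ne hi, mul_zero]
    · simp
  have hclass : ∀ r : Fin 4 → ZMod N, (Finset.univ.filter fun j => lab (χ j) = r).card ≤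
      ((forms H).filter fun a => lab a = r).card := by
    intro r
    by_cases hr : ∀ i, i ≠ 0 → r i ≠ 0
    · exact nonzero_type hH hsum hperp hinj hno h0 r hr
    · push Not at hr
      obtain ⟨i, hi, hri⟩ := hr
      have hi' : i = 1 ∨ i = 2 ∨ i = 3 := by
        fin_cases i
        · exact absurd rfl hi
        · simp
        · simp
        · simp
      rcases hi' with rfl | rfl | rfl
      · exact zero_type hH hsum hne hperp hinj hno h0 r
          (Equiv.swap 0 1 * Equiv.swap 0 2) (by decide) (by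
            have : (Equiv.swap 0 1 * Equiv.swap 0 2 : Equiv.Perm (Fin 4)) 2 = 1 := by decide
            rw [this]; exact hri)
      · exact zero_type hH hsum hne hperp hinj hno h0 r
          (Equiv.swap 0 1) (by decide) (by
            have : (Equiv.swap 0 1 : Equiv.Perm (Fin 4)) 2 = 2 := by decide
            rw [this]; exact hri)
      · exact zero_type hH hsum hne hperp hinj hno h0 r
          (Equiv.swap 0 1 * Equiv.swap 2 3) (by decide) (by
            have : (Equiv.swap 0 1 * Equiv.swap 2 3 : Equiv.Perm (Fin 4)) 2 = 3 := by decide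
            rw [this]; exact hri)
  have h1 : (Finset.univ : Finset (Fin n)).card =
      ∑ r : Fin 4 → ZMod N, (Finset.univ.filter fun j => lab (χ j) = r).card :=
    Finset.card_eq_sum_card_fiberwise (fun _ _ => Finset.mem_univ _)
  have h2 : (forms H).card =
      ∑ r : Fin 4 → ZMod N, ((forms H).filter fun a => lab a = r).card :=
    Finset.card_eq_sum_card_fiberwise (fun _ _ => Finset.mem_univ _)
  have h3 : n ≤ (forms H).card := by
    rw [h2]
    calc n = (Finset.univ : Finset (Fin n)).card := by rw [Finset.card_univ, Fintype.card_fin]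
      _ = _ := h1
      _ ≤ _ := Finset.sum_le_sum fun r _ => hclass r
  omega

end Pool.Agent.K4H27.VF
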