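import Pool.Agent.K4H27.VF.Lemmas

noncomputable section

namespace Pool.Agent.K4H27.VF

open scoped Classical

set_option linter.unusedSectionVars false

variable {m n : ℕ} [NeZero m] {χ : Fin n → Fin 4 → ZMod m} {P : (Fin n → Fin 4 → ℂ) → ℂ}

/-- The blocks `b 0, …, b (ℓ-1)` form a cycle: in each block `b s` the coordinates are divided into
three parts by `κ s`, and the sums of the exponents in the parts `1` and `2` are `α s` and
`-α (s+1)`. -/
structure IsCycle (χ : Fin n → Fin 4 → ZMod m) (ℓ : ℕ) (b : ℕ → Fin n) (κ : ℕ → Fin 4 → Fin 3)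
    (α : ℕ → ZMod m) : Prop where
  pos : 0 < ℓ
  inj : ∀ s < ℓ, ∀ s' < ℓ, b s = b s' → s = s'
  surj : ∀ s < ℓ, Function.Surjective (κ s)
  closed : α ℓ = α 0
  one : ∀ s < ℓ, (∑ i, if κ s i = 1 then χ (b s) i else 0) = α s
  two : ∀ s < ℓ, (∑ i, if κ s i = 2 then χ (b s) i else 0) = -α (s + 1)

variable {ℓ : ℕ} {b : ℕ → Fin n} {κ : ℕ → Fin 4 → Fin 3} {α : ℕ → ZMod m}

/-- multipliers, in any commutative monoid -/
def mul3 {R : Type*} [CommMonoid R] (ℓ : ℕ) (b : ℕ → Fin n) (κ : ℕ → Fin 4 → Fin 3) (ζ : ℕ → R)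
    (j : Fin n) (i : Fin 4) : R :=
  ∏ s ∈ Finset.range ℓ, if b s = j then (if κ s i = 1 then ζ s else if κ s i = 2 then ζ (s + 1)
    else 1) else 1

/-- exponents -/
def add3 {R : Type*} [AddCommMonoid R] (ℓ : ℕ) (b : ℕ → Fin n) (κ : ℕ → Fin 4 → Fin 3) (ζ : ℕ → R)
    (j : Fin n) (i : Fin 4) : R :=
  ∑ s ∈ Finset.range ℓ, if b s = j then (if κ s i = 1 then ζ s else if κ s i = 2 then ζ (s + 1)
    else 0) else 0

theorem mul3_of_lt {R : Type*} [CommMonoid R] (h : IsCycle χ ℓ b κ α) (ζ : ℕ → R) {s : ℕ}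
    (hs : s < ℓ) (i : Fin 4) : mul3 ℓ b κ ζ (b s) i =
      if κ s i = 1 then ζ s else if κ s i = 2 then ζ (s + 1) else 1 := by
  rw [mul3, Finset.prod_eq_single_of_mem s (Finset.mem_range.2 hs), if_pos rfl]
  intro s' hs' hne
  rw [if_neg]
  intro h1
  exact hne (h.inj s' (Finset.mem_range.1 hs') s hs h1)

theorem mul3_of_not {R : Type*} [CommMonoid R] (ζ : ℕ → R) {j : Fin n}
    (hj : ∀ s < ℓ, b s ≠ j) (i : Fin 4) : mul3 ℓ b κ ζ j i = 1 := by
  rw [mul3]
  apply Finset.prod_eq_one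
  intro s hs
  rw [if_neg (hj s (Finset.mem_range.1 hs))]

theorem E_sum {ι : Type*} (s : Finset ι) (f : ι → ZMod m) :
    E (∑ a ∈ s, f a) = ∏ a ∈ s, E (f a) := by
  induction s using Finset.induction_on with
  | empty => simp
  | insert a s ha ih => rw [Finset.sum_insert ha, Finset.prod_insert ha, E_add, ih]

theorem E_add3 (ε : ℕ → ZMod m) (j : Fin n) (i : Fin 4) :
    E (add3 ℓ b κ ε j i) = mul3 ℓ b κ (fun s => E (ε s)) j i := by
  rw [add3, mul3, E_sum]
  apply Finset.prod_congr rfl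
  intro s _
  split_ifs <;> first | rfl | exact E_zero

theorem map_mul3 {R R' : Type*} [CommRing R] [CommRing R'] (f : R →+* R') (ζ : ℕ → R) (j : Fin n)
    (i : Fin 4) : f (mul3 ℓ b κ ζ j i) = mul3 ℓ b κ (fun s => f (ζ s)) j i := by
  rw [mul3, mul3, map_prod]
  apply Finset.prod_congr rfl
  intro s _
  split_ifs <;> first | rfl | exact map_one f

theorem mul3_mul {R : Type*} [CommRing R] (ζ ζ' : ℕ → R) (j : Fin n)
    (i : Fin 4) : mul3 ℓ b κ (fun s => ζ s * ζ' s) j i = mul3 ℓ b κ ζ j i * mul3 ℓ b κ ζ' j i := by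
  rw [mul3, mul3, mul3, ← Finset.prod_mul_distrib]
  apply Finset.prod_congr rfl
  intro s _
  split_ifs <;> first | rfl | exact (mul_one _).symm

theorem lim_mul3 {V : ValuationSubring K} (hV : IsPlace V) {ζ : ℕ → K} {c : ℕ → ℂ}
    (h : ∀ s, Lim V (ζ s) (c s)) (j : Fin n) (i : Fin 4) :
    Lim V (mul3 ℓ b κ ζ j i) (mul3 ℓ b κ c j i) := by
  apply Lim.prod hV
  intro s _
  split_ifs
  · exact h s
  · exact h (s + 1)
  · exact lim_one
  · exact lim_one

theorem pr_add3 (h : IsCycle χ ℓ b κ α) (ε : ℕ → ZMod m) (hε : ε 0 = ε ℓ) :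
    pr χ (add3 ℓ b κ ε) = 0 := by
  have e1 : pr χ (add3 ℓ b κ ε) = ∑ s ∈ Finset.range ℓ, (ε s * α s - ε (s + 1) * α (s + 1)) := by
    rw [pr]
    simp only [add3, Finset.mul_sum]
    have : ∀ j, ∑ i, ∑ s ∈ Finset.range ℓ, χ j i * (if b s = j then (if κ s i = 1 then ε s else
        if κ s i = 2 then ε (s + 1) else 0) else 0) = ∑ s ∈ Finset.range ℓ, if b s = j then
        ∑ i, χ j i * (if κ s i = 1 then ε s else if κ s i = 2 then ε (s + 1) else 0) else 0 := by
      intro j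
      rw [Finset.sum_comm]
      apply Finset.sum_congr rfl
      intro s _
      by_cases hs : b s = j
      · simp only [hs, if_true]
      · simp only [hs, if_false, mul_zero, Finset.sum_const_zero]
    simp only [this]
    rw [Finset.sum_comm]
    apply Finset.sum_congr rfl
    intro s hs
    rw [Finset.sum_ite_eq Finset.univ (b s), if_pos (Finset.mem_univ _)]
    have h1 := h.one s (Finset.mem_range.1 hs)
    have h2 := h.two s (Finset.mem_range.1 hs)
    have e : ∀ i, χ (b s) i * (if κ s i = 1 then ε s else if κ s i = 2 then ε (s + 1) else 0) =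
        ε s * (if κ s i = 1 then χ (b s) i else 0) +
        ε (s + 1) * (if κ s i = 2 then χ (b s) i else 0) := by
      intro i
      by_cases h1 : κ s i = 1
      · rw [if_pos h1, if_pos h1, if_neg (by rw [h1]; decide)]; ring
      · rw [if_neg h1, if_neg h1]
        by_cases h2 : κ s i = 2
        · rw [if_pos h2, if_pos h2]; ring
        · rw [if_neg h2, if_neg h2]; ring
    simp only [e]
    rw [Finset.sum_add_distrib, ← Finset.mul_sum, ← Finset.mul_sum, h1, h2]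
    ring
  rw [e1, Finset.sum_range_sub' (fun s => ε s * α s), h.closed, hε, sub_self]

theorem Tw.cycle_aux (hP : Tw χ P) (h : IsCycle χ ℓ b κ α) (hχ : ∀ s < ℓ, ∀ i, χ (b s) i ≠ 0)
    {x : Fin n → Fin 4 → ℂ} (hx : Good m x) (hx0 : ∀ s < ℓ, ∀ i, x (b s) i ≠ 0)
    (hZ : ∀ s < ℓ, (∑ i, if κ s i = 2 then x (b s) i ^ m else 0) ≠ 0) : P x = 0 := by
  have hℓ := h.pos
  obtain ⟨V1, hV1, ht1⟩ := exists_place 1
  obtain ⟨V0, hV0, ht0⟩ := exists_place 0
  let VY : ℕ → ℂ := fun s => ∑ i, if κ s i = 1 then x (b s) i ^ m else 0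
  let VZ : ℕ → ℂ := fun s => ∑ i, if κ s i = 2 then x (b s) i ^ m else 0
  let Θ : ℕ → ℂ := fun s => ∏ r ∈ Finset.range s, (-VY r / VZ r)
  have hΘ0 : Θ 0 = 1 := by simp [Θ]
  have hΘ : ∀ s < ℓ, Θ s * VY s + Θ (s + 1) * VZ s = 0 := by
    intro s hs
    have : VZ s ≠ 0 := hZ s hs
    simp only [Θ, Finset.prod_range_succ]
    field_simp
    ring
  have hm : m ≠ 0 := NeZero.ne m
  have ht1' := ht1.pow hV1 m
  have ht0' := ht0.pow hV0 m
  rw [one_pow] at ht1'
  rw [zero_pow hm] at ht0'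
  -- the function g and the factor τ
  obtain ⟨g, τ, hg1, hg0, hτ1, hτ0, hgτ, hgσ, hτσ⟩ : ∃ g τ : K, Lim V1 g 0 ∧ Lim V0 g (-1) ∧
      Lim V1 τ 1 ∧ (∃ c, Lim V0 τ c) ∧
      τ ^ m * (1 + algebraMap ℂ K (Θ ℓ) * g) = 1 + g ∧
      (∀ σ : K ≃ₐ[F] K, σ g = g) ∧ (∀ σ : K ≃ₐ[F] K, σ τ = τ) := by
    by_cases h1 : Θ ℓ = 1
    · refine ⟨tt ^ m - 1, 1, ?_, ?_, lim_one, ⟨1, lim_one⟩, ?_, ?_, ?_⟩
      · simpa using ht1'.sub hV1 lim_one
      · simpa using ht0'.sub hV0 lim_one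
      · rw [h1, map_one]; ring
      · intro σ; rw [map_sub, map_pow, aut_tt, map_one]
      · intro σ; exact map_one σ
    · have hd1 : Lim V1 (1 - algebraMap ℂ K (Θ ℓ) * tt ^ m) (1 - Θ ℓ) := by
        simpa using (lim_one (V := V1)).sub hV1 ((lim_const (Θ ℓ)).mul hV1 ht1')
      have hd0 : Lim V0 (1 - algebraMap ℂ K (Θ ℓ) * tt ^ m) 1 := by
        simpa using (lim_one (V := V0)).sub hV0 ((lim_const (Θ ℓ)).mul hV0 ht0')
      have hd : 1 - algebraMap ℂ K (Θ ℓ) * tt ^ m ≠ 0 := hd0.ne_zero hV0 one_ne_zero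
      have h1' : 1 - Θ ℓ ≠ 0 := sub_ne_zero.2 (Ne.symm h1)
      refine ⟨(tt ^ m - 1) / (1 - algebraMap ℂ K (Θ ℓ) * tt ^ m), tt, ?_, ?_, ht1, ⟨0, ht0⟩,
        ?_, ?_, ?_⟩
      · simpa using (ht1'.sub hV1 lim_one).div hV1 hd1 h1'
      · simpa using (ht0'.sub hV0 lim_one).div hV0 hd0 one_ne_zero
      · generalize tt ^ m = u at hd
        generalize algebraMap ℂ K (Θ ℓ) = θ at hd
        rw [eq_comm, ← sub_eq_zero]
        have e : 1 + (u - 1) / (1 - θ * u) - u * (1 + θ * ((u - 1) / (1 - θ * u))) =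
          (1 - u) * (1 - (1 - θ * u) / (1 - θ * u)) := by ring
        rw [e, div_self hd, sub_self, mul_zero]
      · intro σ
        simp only [map_div₀, map_sub, map_mul, map_pow, aut_tt, map_one, aut_const]
      · exact fun σ => aut_tt σ
  have hroot : ∀ s, ∃ r : K, r ^ m = 1 + algebraMap ℂ K (Θ s) * g := fun s => exists_root _
  choose r hr using hroot
  let ζ : ℕ → K := fun s => if s = 0 then τ * r ℓ else r s
  have hζℓ : ζ ℓ = r ℓ := if_neg hℓ.ne'
  have hζ0 : ζ 0 = τ * r ℓ := if_pos rfl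
  have hζ : ∀ s, ζ s ^ m = 1 + algebraMap ℂ K (Θ s) * g := by
    intro s
    by_cases hs : s = 0
    · rw [hs, hζ0, mul_pow, hr, hgτ, hΘ0, map_one, one_mul]
    · simp only [ζ, if_neg hs, hr]
  -- limits of roots
  have hL1 : ∃ ε : ℕ → ZMod m, ε 0 = ε ℓ ∧ ∀ s, Lim V1 (ζ s) (E (ε s)) := by
    have : ∀ s, ∃ e : ZMod m, Lim V1 (r s) (E e) := by
      intro s
      have h1 : Lim V1 (r s ^ m) 1 := by
        rw [hr]
        simpa using lim_one.add hV1 ((lim_const (Θ s)).mul hV1 hg1)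
      obtain ⟨c, hc, hL⟩ := lim_root m hm h1
      obtain ⟨e, he⟩ := exists_E (m := m) c hc
      exact ⟨e, he ▸ hL⟩
    choose e he using this
    refine ⟨fun s => if s = 0 then e ℓ else e s, by simp, fun s => ?_⟩
    by_cases hs : s = 0
    · simp only [ζ, if_pos hs]
      simpa using hτ1.mul hV1 (he ℓ)
    · simp only [ζ, if_neg hs]
      exact he s
  have hL0 : ∃ c : ℕ → ℂ, c 0 = 0 ∧ ∀ s, Lim V0 (ζ s) (c s) := by
    have : ∀ s, ∃ c : ℂ, c ^ m = 1 - Θ s ∧ Lim V0 (ζ s) c := by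
      intro s
      apply lim_root m hm
      rw [hζ]
      have := lim_one.add hV0 ((lim_const (Θ s)).mul hV0 hg0)
      rw [mul_neg, mul_one, ← sub_eq_add_neg] at this
      exact this
    choose c hc hL using this
    refine ⟨c, ?_, hL⟩
    have := hc 0
    rw [hΘ0, sub_self] at this
    exact (pow_eq_zero_iff hm).1 this
  obtain ⟨ε, hε, hLε⟩ := hL1
  obtain ⟨c, hc0, hLc⟩ := hL0
  have key := hP.mult hx (mul3 ℓ b κ ζ) ?_ ?_ hV1 hV0 (add3 ℓ b κ ε) (pr_add3 h ε hε) ?_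
    (mul3 ℓ b κ c) (lim_mul3 hV0 hLc) ?_
  · rw [key]
    obtain ⟨i, hi⟩ := h.surj 0 hℓ 1
    apply hP.boundary (j := b 0) (i := i) _ (hχ 0 hℓ i)
    rw [mul3_of_lt h c hℓ, if_pos hi, hc0, zero_mul]
  · intro j
    by_cases hj : ∃ s < ℓ, b s = j
    · obtain ⟨s, hs, rfl⟩ := hj
      have e : ∀ i, mul3 ℓ b κ ζ (b s) i ^ m * algebraMap ℂ K (x (b s) i ^ m) =
          algebraMap ℂ K (x (b s) i ^ m) +
          g * algebraMap ℂ K (Θ s * (if κ s i = 1 then x (b s) i ^ m else 0) +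
            Θ (s + 1) * (if κ s i = 2 then x (b s) i ^ m else 0)) := by
        intro i
        rw [mul3_of_lt h ζ hs]
        by_cases h1 : κ s i = 1
        · rw [if_pos h1, if_pos h1, if_neg (by rw [h1]; decide), hζ, mul_zero, add_zero, map_mul]
          ring
        · rw [if_neg h1, if_neg h1]
          by_cases h2 : κ s i = 2
          · rw [if_pos h2, if_pos h2, hζ, mul_zero, zero_add, map_mul]
            ring
          · rw [if_neg h2, if_neg h2, mul_zero, mul_zero, add_zero, map_zero, one_pow]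
            ring
      rw [Finset.sum_congr rfl (fun i _ => e i), Finset.sum_add_distrib, ← map_sum, (hx (b s)).2,
        ← Finset.mul_sum, ← map_sum, Finset.sum_add_distrib, ← Finset.mul_sum, ← Finset.mul_sum]
      have := hΘ s hs
      simp only [VY, VZ] at this
      rw [this]
      simp
    · push Not at hj
      simp only [mul3_of_not ζ hj, one_pow, one_mul]
      rw [← map_sum, (hx j).2, map_zero]
  · intro σ
    have : ∀ s, ∃ e : ZMod m, σ (r s) = algebraMap ℂ K (E e) * r s := by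
      intro s
      apply exists_E_K
      rw [← map_pow, hr, map_add, map_mul, map_one, aut_const, hgσ]
    choose e he using this
    let e' : ℕ → ZMod m := fun s => if s = 0 then e ℓ else e s
    have he' : e' 0 = e' ℓ := by simp [e']
    refine ⟨add3 ℓ b κ e', pr_add3 h e' he', ?_⟩
    intro j i
    rw [E_add3]
    have h1 : ∀ s, σ (ζ s) = algebraMap ℂ K (E (e' s)) * ζ s := by
      intro s
      by_cases hs : s = 0
      · simp only [ζ, e', if_pos hs]
        rw [map_mul, hτσ, he]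
        ring
      · simp only [ζ, e', if_neg hs]
        exact he s
    have h2 : σ (mul3 ℓ b κ ζ j i) = mul3 ℓ b κ (fun s => σ (ζ s)) j i :=
      map_mul3 (σ : K →+* K) ζ j i
    have h3 : algebraMap ℂ K (mul3 ℓ b κ (fun s => E (e' s)) j i) =
      mul3 ℓ b κ (fun s => algebraMap ℂ K (E (e' s))) j i := map_mul3 (algebraMap ℂ K) _ j i
    rw [h2, h3, ← mul3_mul]
    congr 1
    funext s
    exact h1 s
  · intro j i
    rw [E_add3]
    exact lim_mul3 hV1 hLε j i
  · intro j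
    by_cases hj : ∃ s < ℓ, b s = j
    · obtain ⟨s, hs, rfl⟩ := hj
      obtain ⟨i, hi⟩ := h.surj s hs 0
      refine ⟨i, ?_⟩
      rw [mul3_of_lt h c hs, if_neg (by rw [hi]; decide), if_neg (by rw [hi]; decide), one_mul]
      exact hx0 s hs i
    · push Not at hj
      obtain ⟨i, hi⟩ := Function.ne_iff.1 (hx j).1
      exact ⟨i, by rw [mul3_of_not c hj, one_mul]; exact hi⟩

/-- The relation of cycles: the function vanishes. -/
theorem Tw.cycle (hP : Tw χ P) (h : IsCycle χ ℓ b κ α) (hχ : ∀ s < ℓ, ∀ i, χ (b s) i ≠ 0)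
    {x : Fin n → Fin 4 → ℂ} (hx : Good m x) : P x = 0 := by
  by_cases hx0 : ∀ s < ℓ, ∀ i, x (b s) i ≠ 0
  · by_cases hZ : ∀ s < ℓ, (∑ i, if κ s i = 2 then x (b s) i ^ m else 0) ≠ 0
    · exact hP.cycle_aux h hχ hx hx0 hZ
    · push Not at hZ
      obtain ⟨s, hs, h0⟩ := hZ
      obtain ⟨i, hi⟩ := h.surj s hs 2
      obtain ⟨i', hi'⟩ := h.surj s hs 0
      apply hP.line hx (b s) (Finset.univ.filter fun i => κ s i = 2) (i := i) (i' := i')
      · rw [Finset.sum_filter]; exact h0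
      · simp [hi]
      · exact hχ s hs i
      · simp [hi']
      · exact hx0 s hs i'
  · push Not at hx0
    obtain ⟨s, hs, i, hi⟩ := hx0
    exact hP.boundary hi (hχ s hs i)

end Pool.Agent.K4H27.VF
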