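import Mathlib

/-!
# Zero-cycles on products of Fermat surfaces: definitions

Everything is concrete: points of the Fermat surface over `ℂ`, and rational equivalence of
zero-cycles on the product of `n` copies through families of points over the function field of the
projective line (the fibres over two points of the line of a finite family of points over an
algebraic closure of `ℂ(t)`, stable under the Galois group, are rationally equivalent).
-/

noncomputable section

namespace Pool.Agent.K4H27.VF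

open scoped LinearAlgebra.Projectivization

/-- The function field `ℂ(t)` of the projective line. -/
abbrev F := RatFunc ℂ

/-- An algebraic closure of `ℂ(t)`. -/
abbrev K := AlgebraicClosure F

/-- The complex points of the Fermat surface `x₀^m + x₁^m + x₂^m + x₃^m = 0`. -/
def S (m : ℕ) : Type := {P : ℙ ℂ (Fin 4 → ℂ) // ∑ i, P.rep i ^ m = 0}

/-- Valuation rings of `K` above the local ring of a point of the projective line. -/
def IsPlace (V : ValuationSubring K) : Prop := V ≠ ⊤ ∧ ∀ c : ℂ, algebraMap ℂ K c ∈ V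

/-- The point `w` of `ℙ³` with coordinates in `K` specialises to the complex point `P` at `V`. -/
def Limit (V : ValuationSubring K) (w : Fin 4 → K) (P : ℙ ℂ (Fin 4 → ℂ)) : Prop :=
  ∃ (c : K) (v : Fin 4 → ℂ) (hv : v ≠ 0), P = Projectivization.mk ℂ v hv ∧
    ∀ i, c * w i - algebraMap ℂ K (v i) ∈ V.nonunits

/-- `ξ` describes `d` points of `X^n` over `K`, `X` the Fermat surface of degree `m`, which are
permuted by the Galois group of `K` over `ℂ(t)`. -/
def IsFamily (m : ℕ) {d n : ℕ} (ξ : Fin d → Fin n → Fin 4 → K) : Prop :=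
  (∀ l j, ξ l j ≠ 0 ∧ ∑ i, ξ l j i ^ m = 0) ∧
    ∀ σ : K ≃ₐ[F] K, ∃ π : Equiv.Perm (Fin d), ∀ l j, ∃ c : K, ∀ i,
      σ (ξ l j i) = c * ξ (π l) j i

/-- The zero-cycles on `X^n` rationally equivalent to zero. -/
def rel (m n : ℕ) : AddSubgroup ((Fin n → S m) →₀ ℤ) :=
  AddSubgroup.closure {w | ∃ (d : ℕ) (ξ : Fin d → Fin n → Fin 4 → K) (V V' : ValuationSubring K)
    (x x' : Fin d → Fin n → S m), IsFamily m ξ ∧ IsPlace V ∧ IsPlace V' ∧
    (∀ l j, Limit V (ξ l j) (x l j).1) ∧ (∀ l j, Limit V' (ξ l j) (x' l j).1) ∧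
    w = ∑ l, Finsupp.single (x l) 1 - ∑ l, Finsupp.single (x' l) 1}

/-- The exterior product of zero-cycles `z₀, …, z_(n-1)` on the Fermat surface. -/
def prodCycle {m n : ℕ} (z : Fin n → (S m →₀ ℤ)) : (Fin n → S m) →₀ ℤ :=
  ∑ x ∈ Fintype.piFinset (fun j => (z j).support), Finsupp.single x (∏ j, z j (x j))

/-- The alternating sum of the exterior products of the permuted zero-cycles. -/
def altCycle {m n : ℕ} (z : Fin n → (S m →₀ ℤ)) : (Fin n → S m) →₀ ℤ :=
  ∑ σ : Equiv.Perm (Fin n), (Equiv.Perm.sign σ : ℤ) • prodCycle (fun j => z (σ j))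

/-- The degree of a zero-cycle. -/
def deg {m : ℕ} (z : S m →₀ ℤ) : ℤ := z.sum fun _ c => c

section
variable {m : ℕ} [NeZero m]

/-- `k ∈ (ℤ/m)⁴` acts on `ℂ⁴` by multiplying the coordinate `i` by `exp(2πi k_i / m)`. -/
def actV (k : Fin 4 → ZMod m) (v : Fin 4 → ℂ) : Fin 4 → ℂ := fun i => ZMod.stdAddChar (k i) * v i

theorem stdAddChar_ne_zero (x : ZMod m) : (ZMod.stdAddChar x : ℂ) ≠ 0 := by
  intro h
  have h1 : (ZMod.stdAddChar (x + -x) : ℂ) = ZMod.stdAddChar x * ZMod.stdAddChar (-x) :=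
    AddChar.map_add_eq_mul _ _ _
  rw [h, zero_mul, add_neg_cancel, AddChar.map_zero_eq_one] at h1
  exact one_ne_zero h1

theorem stdAddChar_pow (x : ZMod m) : (ZMod.stdAddChar x : ℂ) ^ m = 1 := by
  rw [← AddChar.map_nsmul_eq_pow]
  simp

theorem actV_ne_zero (k : Fin 4 → ZMod m) {v : Fin 4 → ℂ} (hv : v ≠ 0) : actV k v ≠ 0 := by
  intro h
  apply hv
  funext i
  have := congrFun h i
  simp only [actV, Pi.zero_apply, mul_eq_zero] at this
  exact this.resolve_left (stdAddChar_ne_zero _)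

omit [NeZero m] in
theorem sum_rep_mk {v : Fin 4 → ℂ} (hv : v ≠ 0) (h : ∑ i, v i ^ m = 0) :
    ∑ i, (Projectivization.mk ℂ v hv).rep i ^ m = 0 := by
  obtain ⟨a, ha⟩ := Projectivization.exists_smul_eq_mk_rep ℂ v hv
  rw [← ha]
  simp only [Units.smul_def, Pi.smul_apply, smul_eq_mul, mul_pow]
  rw [← Finset.mul_sum, h, mul_zero]

/-- The point of the Fermat surface with homogeneous coordinates `v`. -/
def mkS (v : Fin 4 → ℂ) (hv : v ≠ 0) (h : ∑ i, v i ^ m = 0) : S m :=
  ⟨Projectivization.mk ℂ v hv, sum_rep_mk hv h⟩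

theorem sum_actV (k : Fin 4 → ZMod m) {v : Fin 4 → ℂ} (h : ∑ i, v i ^ m = 0) :
    ∑ i, actV k v i ^ m = 0 := by
  simp only [actV, mul_pow, stdAddChar_pow, one_mul]
  exact h

/-- The action of `k ∈ (ℤ/m)⁴` on the Fermat surface. -/
def act (k : Fin 4 → ZMod m) (P : S m) : S m :=
  mkS (actV k P.1.rep) (actV_ne_zero k P.1.rep_nonzero) (sum_actV k P.2)

/-- The zero-cycle `z` is invariant under the group `H` of diagonal automorphisms. -/
def IsInvariant (H : AddSubgroup (Fin 4 → ZMod m)) (z : S m →₀ ℤ) : Prop :=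
  ∀ k ∈ H, ∀ P, z (act k P) = z P

/-- The characters of holomorphic two-forms of the Fermat surface that are invariant under `H`. -/
def forms (H : AddSubgroup (Fin 4 → ZMod m)) : Finset (Fin 4 → ZMod m) :=
  open Classical in
  Finset.univ.filter fun a => (∀ i, a i ≠ 0) ∧ ∑ i, (a i).val = m ∧
    ∀ k ∈ H, ∑ i, a i * k i = 0

end

end Pool.Agent.K4H27.VF
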