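import Pool.Agent.K4H27.VF.Swap

noncomputable section

namespace Pool.Agent.K4H27.VF

open scoped Classical

set_option linter.unusedSectionVars false

variable {m n : ℕ} [NeZero m] {χ : Fin n → Fin 4 → ZMod m} {P : (Fin n → Fin 4 → ℂ) → ℂ}

variable {j j' : Fin n}

/-- Two blocks with the same character can be exchanged. -/
theorem Tw.swap (hP : Tw χ P) (hj : j ≠ j') (hχ : χ j = χ j') (hne : ∀ i, χ j i ≠ 0)
    {x : Fin n → Fin 4 → ℂ} (hx : Good m x) : P (fun l => x (Equiv.swap j j' l)) = P x := by
  have hm : m ≠ 0 := NeZero.ne m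
  have hne' : ∀ i, χ j' i ≠ 0 := fun i => hχ ▸ hne i
  have hgs : Good m (fun l => x (Equiv.swap j j' l)) := fun l => hx _
  by_cases h0 : ∃ i, x j i = 0 ∨ x j' i = 0
  · obtain ⟨i, h | h⟩ := h0
    · rw [hP.boundary h (hne i), hP.boundary (j := j') (i := i) _ (hne' i)]
      simpa using h
    · rw [hP.boundary h (hne' i), hP.boundary (j := j) (i := i) _ (hne i)]
      simpa using h
  push Not at h0
  have hsum : ∀ l, x l 2 ^ m + x l 3 ^ m = -(x l 0 ^ m + x l 1 ^ m) := by
    intro l
    have := (hx l).2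
    rw [Fin.sum_univ_four] at this
    linear_combination this
  have hline : ∀ (y : Fin n → Fin 4 → ℂ), Good m y → ∀ l, (∀ i, χ l i ≠ 0) → y l 2 ≠ 0 →
      y l 0 ^ m + y l 1 ^ m = 0 → P y = 0 := by
    intro y hy l hl h2 h01
    apply hP.line hy l {0, 1} (i := 0) (i' := 2) _ (by simp) (hl 0) (by decide) h2
    rw [Finset.sum_pair (by decide)]
    exact h01
  by_cases hU : x j 0 ^ m + x j 1 ^ m = 0
  · rw [hline x hx j hne (h0 2).1 hU, hline _ hgs j' hne' (by simpa using (h0 2).1)
      (by simpa using hU)]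
  by_cases hU' : x j' 0 ^ m + x j' 1 ^ m = 0
  · rw [hline x hx j' hne' (h0 2).2 hU', hline _ hgs j hne (by simpa using (h0 2).2)
      (by simpa using hU')]
  obtain ⟨τ, hτ⟩ := IsAlgClosed.exists_pow_nat_eq
    ((x j' 0 ^ m + x j' 1 ^ m) / (x j 0 ^ m + x j 1 ^ m)) (Nat.pos_of_ne_zero hm)
  have hτ' : τ ^ m * (x j 0 ^ m + x j 1 ^ m) = x j' 0 ^ m + x j' 1 ^ m := by
    rw [hτ, div_mul_cancel₀ _ hU]
  have hτ0 : τ ≠ 0 := by
    rintro rfl
    rw [zero_pow hm, zero_mul] at hτ'
    exact hU' hτ'.symm
  have half1 := hP.half (p := 0) (q := 1) hj hχ (by decide) (hne 1) hx (h0 0).1 (h0 1).1 (h0 0).2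
    (h0 1).2 hU hU' hτ'
  -- the second half
  have hyj : ∀ i, swapv j j' 0 1 τ x j i = if i = 0 then x j' 0 else if i = 1 then x j' 1 else
      τ * x j i := by intro i; simp [swapv]
  have hyj' : ∀ i, swapv j j' 0 1 τ x j' i = if i = 0 then x j 0 else if i = 1 then x j 1 else
      τ⁻¹ * x j' i := by intro i; simp [swapv, Ne.symm hj]
  have hyl : ∀ l, l ≠ j → l ≠ j' → ∀ i, swapv j j' 0 1 τ x l i = x l i := by
    intro l h1 h2 i; simp [swapv, h1, h2]
  have hy : Good m (swapv j j' 0 1 τ x) := by
    intro l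
    by_cases h1 : l = j
    · subst h1
      refine ⟨fun h => (h0 0).2 ?_, ?_⟩
      · have := congrFun h 0
        rw [hyj] at this
        simpa using this
      · rw [Fin.sum_univ_four]
        simp only [hyj]
        simp only [if_true, Fin.reduceEq, if_false, mul_pow]
        have h23 := hsum l
        linear_combination τ ^ m * h23 - hτ'
    · by_cases h2 : l = j'
      · subst h2
        refine ⟨fun h => (h0 0).1 ?_, ?_⟩
        · have := congrFun h 0
          rw [hyj'] at this
          simpa using this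
        · rw [Fin.sum_univ_four]
          simp only [hyj']
          simp only [if_true, Fin.reduceEq, if_false, mul_pow, inv_pow]
          have h23 := hsum l
          have hτm : τ ^ m ≠ 0 := pow_ne_zero _ hτ0
          field_simp
          linear_combination h23 + hτ'
      · have : swapv j j' 0 1 τ x l = x l := funext fun i => hyl l h1 h2 i
        rw [this]
        exact hx l
  have h23j := hsum j
  have h23j' := hsum j'
  have hτm : τ ^ m ≠ 0 := pow_ne_zero _ hτ0
  have half2 := hP.half (p := 2) (q := 3) (τ := τ⁻¹) hj hχ (by decide) (hne 3) hy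
    (by rw [hyj]; simpa using ⟨hτ0, (h0 2).1⟩) (by rw [hyj]; simpa using ⟨hτ0, (h0 3).1⟩)
    (by rw [hyj']; simpa using ⟨hτ0, (h0 2).2⟩) (by rw [hyj']; simpa using ⟨hτ0, (h0 3).2⟩)
    (by
      rw [hyj, hyj]
      simp only [Fin.reduceEq, if_false, mul_pow]
      rw [← mul_add, h23j]
      exact mul_ne_zero hτm (neg_ne_zero.2 hU))
    (by
      rw [hyj', hyj']
      simp only [Fin.reduceEq, if_false, mul_pow, inv_pow]
      rw [← mul_add, h23j']
      exact mul_ne_zero (inv_ne_zero hτm) (neg_ne_zero.2 hU'))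
    (by
      rw [hyj, hyj, hyj', hyj']
      simp only [Fin.reduceEq, if_false, mul_pow, inv_pow]
      rw [← mul_add, ← mul_add, h23j, h23j', ← hτ']
      field_simp)
  have hlast : P (swapv j j' 2 3 τ⁻¹ (swapv j j' 0 1 τ x)) =
      P (fun l => x (Equiv.swap j j' l)) := by
    rw [← hP.scale (fun l => if l = j then τ⁻¹ else if l = j' then τ else 1) _
      (fun l => x (Equiv.swap j j' l))]
    · congr 1
      funext l i
      by_cases h1 : l = j
      · subst h1
        simp only [swapv, if_true, Equiv.swap_apply_left, if_neg (Ne.symm hj)]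
        fin_cases i <;> simp
      · by_cases h2 : l = j'
        · subst h2
          simp only [swapv, if_true, Equiv.swap_apply_right, if_neg h1]
          fin_cases i <;> simp
        · simp only [swapv, if_neg h1, if_neg h2, one_mul, Equiv.swap_apply_of_ne_of_ne h1 h2]
    · intro l
      split_ifs
      · exact inv_ne_zero hτ0
      · exact hτ0
      · exact one_ne_zero
  rw [← hlast]
  linear_combination half2 - half1

end Pool.Agent.K4H27.VF
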