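import Pool.Agent.K4H27.VF.Twist

noncomputable section

namespace Pool.Agent.K4H27.VF

open scoped Classical

set_option linter.unusedSectionVars false

variable {m n : ℕ} [NeZero m] {χ : Fin n → Fin 4 → ZMod m} {P : (Fin n → Fin 4 → ℂ) → ℂ}

theorem Tw.boundary (hP : Tw χ P) {x : Fin n → Fin 4 → ℂ} {j : Fin n} {i : Fin 4}
    (h0 : x j i = 0) (hχ : χ j i ≠ 0) : P x = 0 := by
  have h := hP.equiv (fun j' i' => if j' = j ∧ i' = i then 1 else 0) x
  have h1 : actG (fun j' i' => if j' = j ∧ i' = i then (1 : ZMod m) else 0) x = x := by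
    funext j' i'
    simp only [actG]
    split_ifs with hh
    · rw [hh.1, hh.2, h0, mul_zero]
    · rw [E_zero, one_mul]
  have h2 : pr χ (fun j' i' => if j' = j ∧ i' = i then (1 : ZMod m) else 0) = χ j i := by
    rw [pr, Finset.sum_eq_single j, Finset.sum_eq_single i]
    · simp
    · intro b _ hb; simp [hb]
    · simp
    · intro b _ hb; simp [hb]
    · simp
  rw [h1, h2] at h
  by_contra hne
  have : E (χ j i) = 1 := by
    apply mul_right_cancel₀ hne
    rw [one_mul]; exact h.symm
  exact hχ ((E_eq_one_iff _).1 this)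

theorem Tw.sum_ne (hP : Tw χ P) (x : Fin n → Fin 4 → ℂ) {j : Fin n}
    (hχ : ∑ i, χ j i ≠ 0) : P x = 0 := by
  have h := hP.equiv (fun j' _ => if j' = j then 1 else 0) x
  have h1 : actG (fun j' _ => if j' = j then (1 : ZMod m) else 0) x =
      fun j' i => (if j' = j then E (1 : ZMod m) else 1) * x j' i := by
    funext j' i'
    simp only [actG]
    split_ifs with hh
    · rfl
    · rw [E_zero]
  have h2 : pr χ (fun j' _ => if j' = j then (1 : ZMod m) else 0) = ∑ i, χ j i := by
    rw [pr, Finset.sum_eq_single j]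
    · simp
    · intro b _ hb; simp [hb]
    · simp
  rw [h1, h2, hP.scale (fun j' => if j' = j then E (1 : ZMod m) else 1)] at h
  · by_contra hne
    have : E (∑ i, χ j i) = 1 := by
      apply mul_right_cancel₀ hne
      rw [one_mul]; exact h.symm
    exact hχ ((E_eq_one_iff _).1 this)
  · intro j'
    split_ifs
    · exact E_ne_zero _
    · exact one_ne_zero

/-- Families with one branch. -/
theorem Tw.ml1 (hP : Tw χ P) (ξ : Fin n → Fin 4 → K) (hc : ∀ j, ∑ i, ξ j i ^ m = 0)
    {V V' : ValuationSubring K} (hV : IsPlace V) (hV' : IsPlace V') (x x' : Fin n → Fin 4 → ℂ)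
    (hx : ∀ j, x j ≠ 0) (hx' : ∀ j, x' j ≠ 0) (hl : ∀ j i, Lim V (ξ j i) (x j i))
    (hl' : ∀ j i, Lim V' (ξ j i) (x' j i))
    (hg : ∀ σ : K ≃ₐ[F] K, ∃ k : Fin n → Fin 4 → ZMod m, pr χ k = 0 ∧
      ∀ j i, σ (ξ j i) = algebraMap ℂ K (E (k j i)) * ξ j i) : P x = P x' := by
  have := hP.ml (L := Unit) (fun _ => ξ) (fun _ => hc) hV hV' (fun _ => x) (fun _ => x')
    (fun _ => hx) (fun _ => hx') (fun _ => hl) (fun _ => hl') (fun σ => ⟨1, fun _ => hg σ⟩)
  simpa using this

theorem exists_root (w : K) : ∃ r : K, r ^ m = w :=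
  IsAlgClosed.exists_pow_nat_eq w (Nat.pos_of_ne_zero (NeZero.ne m))

/-- If a coordinate `i` does not enter and another one does, the function vanishes. -/
theorem Tw.zero_entry (hP : Tw χ P) {j : Fin n} {i l : Fin 4} (hi : χ j i = 0)
    (hl : χ j l ≠ 0) (hs : ∑ i, χ j i = 0) {x : Fin n → Fin 4 → ℂ} (hx : Good m x) : P x = 0 := by
  have hil : i ≠ l := by rintro rfl; exact hl hi
  by_cases hz : ∃ l', χ j l' ≠ 0 ∧ x j l' = 0
  · obtain ⟨l', h1, h2⟩ := hz
    exact hP.boundary h2 h1
  push Not at hz
  obtain ⟨l', hl'1, hl'2, hl'3⟩ : ∃ l', l' ≠ i ∧ l' ≠ l ∧ χ j l' ≠ 0 := by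
    by_contra hcon
    push Not at hcon
    apply hl
    rw [← hs]
    symm
    apply Finset.sum_eq_single l
    · intro b _ hb
      by_cases hbi : b = i
      · rw [hbi, hi]
      · exact hcon b hbi hb
    · simp
  obtain ⟨V1, hV1, ht1⟩ := exists_place 1
  obtain ⟨V0, hV0, ht0⟩ := exists_place 0
  obtain ⟨r, hr⟩ := exists_root (m := m)
    (algebraMap ℂ K (x j i ^ m) + (1 - tt ^ m) * algebraMap ℂ K (x j l ^ m))
  have hr1 : Lim V1 (r ^ m) (x j i ^ m) := by
    rw [hr]
    have := (lim_const (V := V1) (x j i ^ m)).add hV1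
      ((lim_one.sub hV1 (ht1.pow hV1 m)).mul hV1 (lim_const (x j l ^ m)))
    simpa using this
  have hr0 : Lim V0 (r ^ m) (x j i ^ m + x j l ^ m) := by
    rw [hr]
    have := (lim_const (V := V0) (x j i ^ m)).add hV0
      ((lim_one.sub hV0 (ht0.pow hV0 m)).mul hV0 (lim_const (x j l ^ m)))
    simpa [zero_pow (NeZero.ne m)] using this
  obtain ⟨c1, hc1, hL1⟩ := lim_root m (NeZero.ne m) hr1
  obtain ⟨c0, hc0, hL0⟩ := lim_root m (NeZero.ne m) hr0
  obtain ⟨e1, he1⟩ : ∃ e : ZMod m, c1 = E e * x j i := by
    by_cases h0 : x j i = 0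
    · refine ⟨0, ?_⟩
      rw [h0, zero_pow (NeZero.ne m)] at hc1
      rw [h0, mul_zero]
      exact (pow_eq_zero_iff (NeZero.ne m)).1 hc1
    · obtain ⟨e, he⟩ := exists_E (m := m) (c1 / x j i)
        (by rw [div_pow, hc1, div_self (pow_ne_zero _ h0)])
      exact ⟨e, by rw [← he, div_mul_cancel₀ _ h0]⟩
  let ξ : Fin n → Fin 4 → K := fun j' i' =>
    if j' = j then (if i' = l then tt * algebraMap ℂ K (x j l) else if i' = i then r
      else algebraMap ℂ K (x j i')) else algebraMap ℂ K (x j' i')
  let x1 : Fin n → Fin 4 → ℂ := actG (fun j' i' => if j' = j ∧ i' = i then e1 else 0) x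
  let x0 : Fin n → Fin 4 → ℂ := fun j' i' =>
    if j' = j then (if i' = l then 0 else if i' = i then c0 else x j i') else x j' i'
  have key : P x1 = P x0 := by
    refine hP.ml1 ξ ?_ hV1 hV0 x1 x0 ?_ ?_ ?_ ?_ ?_
    · intro j'
      by_cases hj : j' = j
      · subst hj
        have e : ∀ i', ξ j' i' ^ m = algebraMap ℂ K (x j' i' ^ m) +
            ((if i' = l then (tt ^ m - 1) * algebraMap ℂ K (x j' l ^ m) else 0) +
            (if i' = i then (1 - tt ^ m) * algebraMap ℂ K (x j' l ^ m) else 0)) := by
          intro i'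
          simp only [ξ, if_true]
          by_cases h1 : i' = l
          · subst h1
            rw [if_pos rfl, if_pos rfl, if_neg (Ne.symm hil), mul_pow, map_pow]
            ring
          · rw [if_neg h1, if_neg h1]
            by_cases h2 : i' = i
            · subst h2
              rw [if_pos rfl, if_pos rfl, hr]
              ring
            · rw [if_neg h2, if_neg h2, map_pow]
              ring
        simp only [e]
        rw [Finset.sum_add_distrib, Finset.sum_add_distrib, ← map_sum, (hx j').2]
        simp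
        ring
      · have e : ∀ i', ξ j' i' ^ m = algebraMap ℂ K (x j' i' ^ m) := by
          intro i'
          simp only [ξ, if_neg hj, map_pow]
        simp only [e]
        rw [← map_sum, (hx j').2, map_zero]
    · intro j'
      exact actG_ne_zero _ (hx j').1
    · intro j'
      by_cases hj : j' = j
      · subst hj
        intro h0
        have := congrFun h0 l'
        simp only [x0, if_true, if_neg hl'2, if_neg hl'1, Pi.zero_apply] at this
        exact hz l' hl'3 this
      · have : x0 j' = x j' := by funext i'; simp only [x0, if_neg hj]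
        rw [this]
        exact (hx j').1
    · intro j' i'
      simp only [ξ, x1, actG]
      by_cases hj : j' = j
      · subst hj
        simp only [if_true, true_and]
        by_cases h1 : i' = l
        · subst h1
          rw [if_pos rfl, if_neg (Ne.symm hil), E_zero]
          exact ht1.mul hV1 (lim_const _)
        · rw [if_neg h1]
          by_cases h2 : i' = i
          · subst h2
            rw [if_pos rfl, if_pos rfl, ← he1]
            exact hL1
          · rw [if_neg h2, if_neg h2, E_zero, one_mul]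
            exact lim_const _
      · simp only [hj, false_and, if_false, E_zero, one_mul]
        exact lim_const _
    · intro j' i'
      simp only [ξ, x0]
      by_cases hj : j' = j
      · subst hj
        simp only [if_true]
        by_cases h1 : i' = l
        · subst h1
          rw [if_pos rfl, if_pos rfl]
          simpa using ht0.mul hV0 (lim_const (x j' i'))
        · rw [if_neg h1, if_neg h1]
          by_cases h2 : i' = i
          · rw [if_pos h2, if_pos h2]
            exact hL0
          · rw [if_neg h2, if_neg h2]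
            exact lim_const _
      · simp only [if_neg hj]
        exact lim_const _
    · intro σ
      have hσ : (σ r) ^ m = r ^ m := by
        rw [← map_pow, hr]
        simp only [map_add, map_mul, map_sub, map_one, map_pow, aut_tt, aut_const]
      obtain ⟨e, he⟩ := exists_E_K hσ
      refine ⟨fun j' i' => if j' = j ∧ i' = i then e else 0, ?_, ?_⟩
      · rw [pr]
        apply Finset.sum_eq_zero
        intro j' _
        apply Finset.sum_eq_zero
        intro i' _
        split_ifs with h
        · rw [h.1, h.2, hi, zero_mul]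
        · rw [mul_zero]
      · intro j' i'
        simp only [ξ]
        by_cases hj : j' = j
        · subst hj
          simp only [if_true, true_and]
          by_cases h1 : i' = l
          · subst h1
            rw [if_pos rfl, if_neg (Ne.symm hil), E_zero, map_one, one_mul, map_mul, aut_tt,
              aut_const]
          · rw [if_neg h1]
            by_cases h2 : i' = i
            · rw [if_pos h2, if_pos h2, he]
            · rw [if_neg h2, if_neg h2, E_zero, map_one, one_mul, aut_const]
        · simp only [hj, false_and, if_false, E_zero, map_one, one_mul]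
          exact aut_const _ _
  have hx1 : P x1 = P x := by
    rw [hP.equiv, pr]
    have : ∑ j', ∑ i', χ j' i' * (if j' = j ∧ i' = i then e1 else 0) = 0 := by
      apply Finset.sum_eq_zero
      intro j' _
      apply Finset.sum_eq_zero
      intro i' _
      split_ifs with h
      · rw [h.1, h.2, hi, zero_mul]
      · rw [mul_zero]
    rw [this, E_zero, one_mul]
  rw [← hx1, key]
  apply hP.boundary (j := j) (i := l) _ hl
  simp [x0]

/-- If a block does not enter, the function does not depend on this block. -/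
theorem Tw.const (hP : Tw χ P) {j : Fin n} (hχ : ∀ i, χ j i = 0) {x x' : Fin n → Fin 4 → ℂ}
    (hx : Good m x) (hx' : Good m x') (h : ∀ j', j' ≠ j → x j' = x' j') : P x = P x' := by
  obtain ⟨V1, hV1, ht1⟩ := exists_place 1
  obtain ⟨V0, hV0, ht0⟩ := exists_place 0
  have hroot : ∀ i, ∃ r : K, r ^ m =
      (1 - tt) * algebraMap ℂ K (x j i ^ m) + tt * algebraMap ℂ K (x' j i ^ m) :=
    fun i => exists_root _
  choose r hr using hroot
  have hr0 : ∀ i, Lim V0 (r i ^ m) (x j i ^ m) := by
    intro i
    rw [hr]
    have := ((lim_one.sub hV0 ht0).mul hV0 (lim_const (x j i ^ m))).add hV0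
      (ht0.mul hV0 (lim_const (x' j i ^ m)))
    simpa using this
  have hr1 : ∀ i, Lim V1 (r i ^ m) (x' j i ^ m) := by
    intro i
    rw [hr]
    have := ((lim_one.sub hV1 ht1).mul hV1 (lim_const (x j i ^ m))).add hV1
      (ht1.mul hV1 (lim_const (x' j i ^ m)))
    simpa using this
  have aux : ∀ (V : ValuationSubring K), IsPlace V → ∀ (y : Fin 4 → ℂ),
      (∀ i, Lim V (r i ^ m) (y i ^ m)) → ∃ e : Fin 4 → ZMod m, ∀ i, Lim V (r i) (E (e i) * y i) := by
    intro V hV y hy
    have : ∀ i, ∃ e : ZMod m, Lim V (r i) (E e * y i) := by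
      intro i
      obtain ⟨c, hc, hL⟩ := lim_root m (NeZero.ne m) (hy i)
      by_cases h0 : y i = 0
      · refine ⟨0, ?_⟩
        rw [h0, zero_pow (NeZero.ne m)] at hc
        rw [h0, mul_zero, ← (pow_eq_zero_iff (NeZero.ne m)).1 hc]
        exact hL
      · obtain ⟨e, he⟩ := exists_E (m := m) (c / y i)
          (by rw [div_pow, hc, div_self (pow_ne_zero _ h0)])
        exact ⟨e, by rw [← he, div_mul_cancel₀ _ h0]; exact hL⟩
    exact ⟨fun i => (this i).choose, fun i => (this i).choose_spec⟩
  obtain ⟨e0, he0⟩ := aux V0 hV0 (x j) hr0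
  obtain ⟨e1, he1⟩ := aux V1 hV1 (x' j) hr1
  let kk : (Fin 4 → ZMod m) → Fin n → Fin 4 → ZMod m := fun e j' i' => if j' = j then e i' else 0
  have hkk : ∀ e, pr χ (kk e) = 0 := by
    intro e
    rw [pr]
    apply Finset.sum_eq_zero
    intro j' _
    apply Finset.sum_eq_zero
    intro i' _
    simp only [kk]
    split_ifs with h
    · rw [h, hχ, zero_mul]
    · rw [mul_zero]
  have hPk : ∀ e y, P (actG (kk e) y) = P y := by
    intro e y
    rw [hP.equiv, hkk, E_zero, one_mul]
  rw [← hPk e0 x, ← hPk e1 x']
  refine hP.ml1 (fun j' i' => if j' = j then r i' else algebraMap ℂ K (x j' i')) ?_ hV0 hV1 _ _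
    (fun j' => actG_ne_zero _ (hx j').1) (fun j' => actG_ne_zero _ (hx' j').1) ?_ ?_ ?_
  · intro j'
    by_cases hj : j' = j
    · subst hj
      simp only [if_true, hr]
      rw [Finset.sum_add_distrib, ← Finset.mul_sum, ← Finset.mul_sum, ← map_sum, ← map_sum,
        (hx j').2, (hx' j').2]
      simp
    · simp only [if_neg hj]
      simp only [← map_pow]
      rw [← map_sum, (hx j').2, map_zero]
  · intro j' i'
    simp only [actG, kk]
    by_cases hj : j' = j
    · subst hj
      simp only [if_true]
      exact he0 i'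
    · simp only [if_neg hj, E_zero, one_mul]
      exact lim_const _
  · intro j' i'
    simp only [actG, kk]
    by_cases hj : j' = j
    · subst hj
      simp only [if_true]
      exact he1 i'
    · simp only [if_neg hj, E_zero, one_mul, h j' hj]
      exact lim_const _
  · intro σ
    have : ∀ i, ∃ e : ZMod m, σ (r i) = algebraMap ℂ K (E e) * r i := by
      intro i
      apply exists_E_K
      rw [← map_pow, hr]
      simp only [map_add, map_mul, map_sub, map_one, map_pow, aut_tt, aut_const]
    choose e he using this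
    refine ⟨kk e, hkk e, ?_⟩
    intro j' i'
    simp only [kk]
    by_cases hj : j' = j
    · simp only [if_pos hj]
      exact he i'
    · simp only [if_neg hj, E_zero, map_one, one_mul]
      exact aut_const _ _

/-- Families obtained by multiplying the coordinates by functions. -/
theorem Tw.mult (hP : Tw χ P) {x : Fin n → Fin 4 → ℂ} (hx : Good m x) (M : Fin n → Fin 4 → K)
    (hc : ∀ j, ∑ i, M j i ^ m * algebraMap ℂ K (x j i ^ m) = 0)
    (hg : ∀ σ : K ≃ₐ[F] K, ∃ k : Fin n → Fin 4 → ZMod m, pr χ k = 0 ∧
      ∀ j i, σ (M j i) = algebraMap ℂ K (E (k j i)) * M j i)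
    {V1 V0 : ValuationSubring K} (hV1 : IsPlace V1) (hV0 : IsPlace V0)
    (k1 : Fin n → Fin 4 → ZMod m) (hk1 : pr χ k1 = 0)
    (h1 : ∀ j i, Lim V1 (M j i) (E (k1 j i)))
    (c : Fin n → Fin 4 → ℂ) (h0 : ∀ j i, Lim V0 (M j i) (c j i))
    (hne : ∀ j, ∃ i, c j i * x j i ≠ 0) : P x = P (fun j i => c j i * x j i) := by
  have hx1 : P (actG k1 x) = P x := by rw [hP.equiv, hk1, E_zero, one_mul]
  rw [← hx1]
  refine hP.ml1 (fun j i => M j i * algebraMap ℂ K (x j i)) ?_ hV1 hV0 _ _
    (fun j => actG_ne_zero _ (hx j).1) ?_ ?_ ?_ ?_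
  · intro j
    simpa only [mul_pow, map_pow] using hc j
  · intro j h
    obtain ⟨i, hi⟩ := hne j
    exact hi (congrFun h i)
  · intro j i
    exact (h1 j i).mul hV1 (lim_const _)
  · intro j i
    exact (h0 j i).mul hV0 (lim_const _)
  · intro σ
    obtain ⟨k, hk, hk'⟩ := hg σ
    refine ⟨k, hk, fun j i => ?_⟩
    rw [map_mul, aut_const, hk', mul_assoc]

/-- Points on lines. -/
theorem Tw.line (hP : Tw χ P) {x : Fin n → Fin 4 → ℂ} (hx : Good m x) (j : Fin n)
    (A : Finset (Fin 4)) (hA : ∑ i ∈ A, x j i ^ m = 0) {i i' : Fin 4} (hi : i ∈ A)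
    (hχ : χ j i ≠ 0) (hi' : i' ∉ A) (hx' : x j i' ≠ 0) : P x = 0 := by
  obtain ⟨V1, hV1, ht1⟩ := exists_place 1
  obtain ⟨V0, hV0, ht0⟩ := exists_place 0
  have key := hP.mult hx (fun j' i => if j' = j ∧ i ∈ A then tt else 1) ?_ ?_ hV1 hV0 0
    (by simp [pr]) ?_ (fun j' i => if j' = j ∧ i ∈ A then 0 else 1) ?_ ?_
  · rw [key]
    apply hP.boundary (j := j) (i := i) _ hχ
    simp [hi]
  · intro j'
    by_cases hj : j' = j
    · subst hj
      have e : ∀ i, (if j' = j' ∧ i ∈ A then tt else 1) ^ m * algebraMap ℂ K (x j' i ^ m) =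
          algebraMap ℂ K (x j' i ^ m) +
            (if i ∈ A then (tt ^ m - 1) * algebraMap ℂ K (x j' i ^ m) else 0) := by
        intro i
        by_cases h : i ∈ A
        · simp only [h, and_self, if_true]; ring
        · simp only [h, and_false, if_false]; ring
      rw [Finset.sum_congr rfl (fun i _ => e i), Finset.sum_add_distrib, ← map_sum, (hx j').2,
        Finset.sum_ite_mem, Finset.univ_inter,
        ← Finset.mul_sum, ← map_sum, hA]
      simp
    · simp only [hj, false_and, if_false, one_pow, one_mul]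
      rw [← map_sum, (hx j').2, map_zero]
  · intro σ
    refine ⟨0, by simp [pr], fun j' i => ?_⟩
    simp only [Pi.zero_apply, E_zero, map_one, one_mul]
    split_ifs
    · exact aut_tt σ
    · exact map_one σ
  · intro j' i
    simp only [Pi.zero_apply, E_zero]
    split_ifs
    · exact ht1
    · exact lim_one
  · intro j' i
    split_ifs
    · exact ht0
    · exact lim_one
  · intro j'
    by_cases hj : j' = j
    · subst hj
      exact ⟨i', by simpa [hi'] using hx'⟩
    · obtain ⟨i, hi⟩ := Function.ne_iff.1 (hx j').1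
      exact ⟨i, by simpa [hj] using hi⟩

end Pool.Agent.K4H27.VF
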