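import Pool.Agent.K4H27.VF.Full

noncomputable section

namespace Pool.Agent.K4H27.VF

open scoped Classical

set_option linter.unusedSectionVars false

variable {m n : ℕ} [NeZero m]

theorem exists_functional {A : Type} [AddCommGroup A] (w : A)
    (h : ∀ N : ℕ, 0 < N → N • w ≠ 0) : ∃ f : A →+ ℚ, f w = 1 := by
  let i : ℤ →+ A := zmultiplesHom A w
  have hi' : ∀ a : ℤ, i a = a • w := fun a => rfl
  have hi : Function.Injective i := by
    rw [injective_iff_map_eq_zero]
    intro a ha
    rw [hi'] at ha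
    by_contra hne
    have h1 : (a.natAbs) • w = 0 := by
      rcases Int.natAbs_eq a with h2 | h2
      · rw [h2, natCast_zsmul] at ha
        exact ha
      · rw [h2, neg_smul, natCast_zsmul, neg_eq_zero] at ha
        exact ha
    exact h _ (Int.natAbs_pos.2 hne) h1
  obtain ⟨f, hf⟩ := (Module.Baer.of_divisible ℚ).extension_property_addMonoidHom i hi
    (Int.castAddHom ℚ)
  refine ⟨f, ?_⟩
  have := DFunLike.congr_fun hf 1
  simpa [hi'] using this

theorem actV_smul (k : Fin 4 → ZMod m) (c : ℂ) (v : Fin 4 → ℂ) : actV k (c • v) = c • actV k v := by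
  funext i
  simp only [actV, Pi.smul_apply, smul_eq_mul]
  ring

theorem mkS_eq (v w : Fin 4 → ℂ) (hv : v ≠ 0) (hw : w ≠ 0) (h : ∑ i, v i ^ m = 0)
    (h' : ∑ i, w i ^ m = 0) (c : ℂ) (hc : v = c • w) : mkS v hv h = mkS w hw h' := by
  apply Subtype.ext
  show Projectivization.mk ℂ _ _ = Projectivization.mk ℂ _ _
  rw [Projectivization.mk_eq_mk_iff']
  exact ⟨c, hc.symm⟩

theorem act_mkS (k : Fin 4 → ZMod m) (v : Fin 4 → ℂ) (hv : v ≠ 0) (h : ∑ i, v i ^ m = 0) :
    act k (mkS v hv h) = mkS (actV k v) (actV_ne_zero k hv) (sum_actV k h) := by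
  obtain ⟨a, ha⟩ := Projectivization.exists_smul_eq_mk_rep ℂ v hv
  apply mkS_eq _ _ _ _ _ _ (a : ℂ)
  rw [← actV_smul]
  congr 1
  exact ha.symm

theorem mkS_rep (P : S m) : mkS P.1.rep P.1.rep_nonzero P.2 = P :=
  Subtype.ext (Projectivization.mk_rep _)

theorem act_add (k k' : Fin 4 → ZMod m) (P : S m) : act k (act k' P) = act (k + k') P := by
  have h1 : act k' P = mkS (actV k' P.1.rep) (actV_ne_zero k' P.1.rep_nonzero)
    (sum_actV k' P.2) := rfl
  rw [h1, act_mkS]
  apply mkS_eq _ _ _ _ _ _ 1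
  rw [one_smul]
  funext i
  simp only [actV, Pi.add_apply]
  rw [← mul_assoc, ← AddChar.map_add_eq_mul]

theorem act_zero (P : S m) : act 0 P = P := by
  conv_rhs => rw [← mkS_rep P]
  apply mkS_eq _ _ _ _ _ _ 1
  rw [one_smul]
  funext i
  simp only [actV, Pi.zero_apply, AddChar.map_zero_eq_one, one_mul]

/-- The component of `Φ` as a function on `X^n`. -/
def compS (Φ : (Fin n → S m) → ℂ) (χ : Fin n → Fin 4 → ZMod m) (x : Fin n → S m) : ℂ :=
  comp Φ χ (fun j => (x j).1.rep)

theorem good_rep (x : Fin n → S m) : Good m (fun j => (x j).1.rep) :=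
  fun j => ⟨(x j).1.rep_nonzero, (x j).2⟩

theorem tw_act {χ : Fin n → Fin 4 → ZMod m} {P : (Fin n → Fin 4 → ℂ) → ℂ} (hP : Tw χ P)
    (k : Fin n → Fin 4 → ZMod m) (x : Fin n → S m) :
    P (fun j => (act (k j) (x j)).1.rep) = E (pr χ k) * P (fun j => (x j).1.rep) := by
  have h1 : ∀ j, ∃ c : ℂ, c ≠ 0 ∧ ∀ i, (act (k j) (x j)).1.rep i = c * actV (k j) (x j).1.rep i := by
    intro j
    obtain ⟨a, ha⟩ := Projectivization.exists_smul_eq_mk_rep ℂ (actV (k j) (x j).1.rep)
      (actV_ne_zero (k j) (x j).1.rep_nonzero)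
    exact ⟨a, a.ne_zero, fun i => (congrFun ha i).symm⟩
  choose c hc hc' using h1
  rw [← hP.equiv, ← hP.scale c hc (actG k (fun j => (x j).1.rep))]
  congr 1
  funext j i
  exact hc' j i

theorem sum_E (k : Fin n → Fin 4 → ZMod m) (hk : k ≠ 0) :
    ∑ χ : Fin n → Fin 4 → ZMod m, E (-pr χ k) = 0 := by
  obtain ⟨j, hj⟩ := Function.ne_iff.1 hk
  obtain ⟨i, hi⟩ := Function.ne_iff.1 hj
  simp only [Pi.zero_apply] at hi
  let u : Fin n → Fin 4 → ZMod m := fun j' i' => if j' = j ∧ i' = i then 1 else 0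
  have h2 : pr u k = k j i := by
    rw [pr, Finset.sum_eq_single j, Finset.sum_eq_single i]
    · simp [u]
    · intro b _ hb; simp [u, hb]
    · simp
    · intro b _ hb; simp [u, hb]
    · simp
  have hadd : ∀ χ, pr (χ + u) k = pr χ k + k j i := by
    intro χ
    rw [← h2]
    simp only [pr, Pi.add_apply, add_mul, Finset.sum_add_distrib]
  have h3 : ∑ χ : Fin n → Fin 4 → ZMod m, E (-pr χ k) =
      E (-k j i) * ∑ χ : Fin n → Fin 4 → ZMod m, E (-pr χ k) := by
    conv_lhs => rw [← Equiv.sum_comp (Equiv.addRight u)]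
    rw [Finset.mul_sum]
    apply Finset.sum_congr rfl
    intro χ _
    rw [Equiv.coe_addRight, hadd, neg_add, E_add, mul_comm]
  by_contra hne
  have h4 : E (-k j i) = 1 := by
    apply mul_right_cancel₀ hne
    rw [one_mul]; exact h3.symm
  rw [E_eq_one_iff, neg_eq_zero] at h4
  exact hi h4

theorem sum_compS (Φ : (Fin n → S m) → ℂ) (x : Fin n → S m) :
    ∑ χ, compS Φ χ x = (Fintype.card (Fin n → Fin 4 → ZMod m) : ℂ) * Φ x := by
  simp only [compS, comp]
  rw [Finset.sum_comm, Finset.sum_eq_single 0]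
  · simp only [← Finset.sum_mul]
    have h1 : ∀ χ : Fin n → Fin 4 → ZMod m, pr χ 0 = 0 := fun χ => by simp [pr]
    simp only [h1, neg_zero, E_zero]
    rw [Finset.sum_const, nsmul_eq_mul, mul_one, Finset.card_univ]
    congr 1
    have h2 : actG (0 : Fin n → Fin 4 → ZMod m) (fun j => (x j).1.rep) =
        fun j => (x j).1.rep := by
      funext j i
      simp [actG]
    rw [h2, ext_of_good Φ (good_rep x)]
    congr 1
    funext j
    exact mkS_rep (x j)
  · intro k _ hk
    rw [← Finset.sum_mul, sum_E k hk, zero_mul]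
  · intro h
    exact absurd (Finset.mem_univ _) h

/-- The value of a function on the exterior product of zero-cycles. -/
def pair (z : Fin n → (S m →₀ ℤ)) (G : (Fin n → S m) → ℂ) : ℂ :=
  ∑ x ∈ Fintype.piFinset (fun j => (z j).support), (∏ j, (z j (x j) : ℂ)) * G x

theorem pair_zero (z : Fin n → (S m →₀ ℤ)) {G : (Fin n → S m) → ℂ} (h : ∀ x, G x = 0) :
    pair z G = 0 := by
  rw [pair]
  apply Finset.sum_eq_zero
  intro x _
  rw [h, mul_zero]

theorem pair_smul (z : Fin n → (S m →₀ ℤ)) (G : (Fin n → S m) → ℂ) (c : ℂ) :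
    pair z (fun x => c * G x) = c * pair z G := by
  rw [pair, pair, Finset.mul_sum]
  apply Finset.sum_congr rfl
  intro x _
  ring

theorem pair_sum {ι : Type*} (s : Finset ι) (z : Fin n → (S m →₀ ℤ))
    (G : ι → (Fin n → S m) → ℂ) : pair z (fun x => ∑ a ∈ s, G a x) = ∑ a ∈ s, pair z (G a) := by
  simp only [pair]
  rw [Finset.sum_comm]
  apply Finset.sum_congr rfl
  intro x _
  rw [Finset.mul_sum]

theorem pair_perm (z : Fin n → (S m →₀ ℤ)) (G : (Fin n → S m) → ℂ) (τ : Equiv.Perm (Fin n)) :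
    pair (fun j => z (τ j)) G = pair z (fun y => G (fun j => y (τ j))) := by
  rw [pair, pair]
  refine Finset.sum_nbij' (fun x j => x (τ.symm j)) (fun y j => y (τ j)) ?_ ?_ ?_ ?_ ?_
  · intro x hx
    rw [Fintype.mem_piFinset] at hx ⊢
    intro j
    have := hx (τ.symm j)
    simpa using this
  · intro y hy
    rw [Fintype.mem_piFinset] at hy ⊢
    intro j
    exact hy (τ j)
  · intro x _
    simp
  · intro y _
    simp
  · intro x _
    simp only [Equiv.symm_apply_apply]
    congr 1
    rw [← Equiv.prod_comp τ (fun j => (z j (x (τ.symm j)) : ℂ))]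
    simp

theorem pair_act {H : AddSubgroup (Fin 4 → ZMod m)} {z : Fin n → (S m →₀ ℤ)}
    (hz : ∀ j, IsInvariant H (z j)) (G : (Fin n → S m) → ℂ) (k : Fin n → Fin 4 → ZMod m)
    (hk : ∀ j, k j ∈ H) : pair z (fun x => G (fun j => act (k j) (x j))) = pair z G := by
  rw [pair, pair]
  refine Finset.sum_nbij' (fun x j => act (k j) (x j)) (fun y j => act (-k j) (y j)) ?_ ?_ ?_ ?_ ?_
  · intro x hx
    rw [Fintype.mem_piFinset] at hx ⊢
    intro j
    have := hx j
    rw [Finsupp.mem_support_iff] at this ⊢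
    rw [hz j _ (hk j)]
    exact this
  · intro x hx
    rw [Fintype.mem_piFinset] at hx ⊢
    intro j
    have := hx j
    rw [Finsupp.mem_support_iff] at this ⊢
    rw [hz j _ (H.neg_mem (hk j))]
    exact this
  · intro x _
    funext j
    rw [act_add, neg_add_cancel, act_zero]
  · intro x _
    funext j
    rw [act_add, add_neg_cancel, act_zero]
  · intro x _
    congr 1
    apply Finset.prod_congr rfl
    intro j _
    rw [hz j _ (hk j)]

theorem pair_const {z : Fin n → (S m →₀ ℤ)} {G : (Fin n → S m) → ℂ} (j : Fin n)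
    (hz : deg (z j) = 0) (hG : ∀ x x', (∀ j', j' ≠ j → x j' = x' j') → G x = G x') :
    pair z G = 0 := by
  by_cases hemp : (z j).support = ∅
  · rw [pair]
    apply Finset.sum_eq_zero
    intro x hx
    rw [Fintype.mem_piFinset] at hx
    have := hx j
    rw [hemp] at this
    exact absurd this (Finset.notMem_empty _)
  obtain ⟨c₀, hc₀⟩ := Finset.nonempty_iff_ne_empty.2 hemp
  have hmaps : ∀ x ∈ Fintype.piFinset (fun j => (z j).support), Function.update x j c₀ ∈
      (Fintype.piFinset (fun j => (z j).support)).image (fun x => Function.update x j c₀) :=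
    fun x hx => Finset.mem_image_of_mem _ hx
  rw [pair, ← Finset.sum_fiberwise_of_maps_to hmaps]
  apply Finset.sum_eq_zero
  intro y hy
  obtain ⟨x₀, hx₀, rfl⟩ := Finset.mem_image.1 hy
  rw [Fintype.mem_piFinset] at hx₀
  have key : ∑ x ∈ Fintype.piFinset (fun j => (z j).support) with
      Function.update x j c₀ = Function.update x₀ j c₀, (∏ j, (z j (x j) : ℂ)) * G x =
      ∑ c ∈ (z j).support, (z j c : ℂ) * ((∏ j' ∈ Finset.univ.erase j, (z j' (x₀ j') : ℂ)) *
        G x₀) := by
    refine Finset.sum_nbij' (fun x => x j) (fun c => Function.update x₀ j c) ?_ ?_ ?_ ?_ ?_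
    · intro x hx
      rw [Finset.mem_filter, Fintype.mem_piFinset] at hx
      exact hx.1 j
    · intro c hc
      rw [Finset.mem_filter, Fintype.mem_piFinset]
      refine ⟨fun j' => ?_, by simp⟩
      by_cases h : j' = j
      · subst h; simpa using hc
      · simpa [Function.update_of_ne h] using hx₀ j'
    · intro x hx
      rw [Finset.mem_filter] at hx
      funext j'
      by_cases h : j' = j
      · subst h; simp
      · rw [Function.update_of_ne h]
        have := congrFun hx.2 j'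
        rw [Function.update_of_ne h, Function.update_of_ne h] at this
        exact this.symm
    · intro c _
      simp
    · intro x hx
      rw [Finset.mem_filter] at hx
      have hx2 : ∀ j', j' ≠ j → x j' = x₀ j' := by
        intro j' h
        have := congrFun hx.2 j'
        rwa [Function.update_of_ne h, Function.update_of_ne h] at this
      rw [hG x x₀ hx2, ← mul_assoc]
      congr 1
      rw [← Finset.mul_prod_erase Finset.univ (fun j' => (z j' (x j') : ℂ)) (Finset.mem_univ j)]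
      congr 1
      apply Finset.prod_congr rfl
      intro j' hj'
      rw [hx2 j' (Finset.ne_of_mem_erase hj')]
  rw [key, ← Finset.sum_mul]
  have hd : ∑ c ∈ (z j).support, (z j c : ℂ) = 0 := by
    rw [deg, Finsupp.sum] at hz
    exact_mod_cast hz
  rw [hd, zero_mul]

/-- The alternating sum of the values vanishes for each character. -/
theorem alt_comp {H : AddSubgroup (Fin 4 → ZMod m)}
    (hcomb : ∀ χ : Fin n → Fin 4 → ZMod m, (∀ j, ∑ i, χ j i = 0) → (∀ j i, χ j i ≠ 0) →
      (∀ j, ∀ k ∈ H, ∑ i, χ j i * k i = 0) → Function.Injective χ →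
      ∃ ℓ b κ α, IsCycle χ ℓ b κ α)
    {z : Fin n → (S m →₀ ℤ)} (hz : ∀ j, IsInvariant H (z j)) (hd : ∀ j, deg (z j) = 0)
    {Φ : (Fin n → S m) → ℂ} (hΦ : Inv m n Φ) (χ : Fin n → Fin 4 → ZMod m) :
    ∑ σ : Equiv.Perm (Fin n), ((Equiv.Perm.sign σ : ℤ) : ℂ) * pair (fun j => z (σ j)) (compS Φ χ) =
      0 := by
  have hP := comp_tw hΦ χ
  have hvan : (∀ x : Fin n → Fin 4 → ℂ, Good m x → comp Φ χ x = 0) →
      ∑ σ : Equiv.Perm (Fin n), ((Equiv.Perm.sign σ : ℤ) : ℂ) *
        pair (fun j => z (σ j)) (compS Φ χ) = 0 := by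
    intro h
    apply Finset.sum_eq_zero
    intro σ _
    have h0 : pair (fun j => z (σ j)) (compS Φ χ) = 0 :=
      pair_zero _ (fun x => h _ (good_rep x))
    rw [h0, mul_zero]
  by_cases h1 : ∃ j, ∑ i, χ j i ≠ 0
  · obtain ⟨j, hj⟩ := h1
    exact hvan fun x _ => hP.sum_ne x hj
  push Not at h1
  by_cases h2 : ∃ j, ∃ k ∈ H, ∑ i, χ j i * k i ≠ 0
  · obtain ⟨j, k, hk, hne⟩ := h2
    apply Finset.sum_eq_zero
    intro σ _
    have key : pair (fun j => z (σ j)) (compS Φ χ) =
        E (∑ i, χ j i * k i) * pair (fun j => z (σ j)) (compS Φ χ) := by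
      let k' : Fin n → Fin 4 → ZMod m := fun j' => if j' = j then k else 0
      have hk' : ∀ j', k' j' ∈ H := by
        intro j'
        simp only [k']
        split_ifs
        · exact hk
        · exact H.zero_mem
      have hpr : pr χ k' = ∑ i, χ j i * k i := by
        rw [pr, Finset.sum_eq_single j]
        · simp [k']
        · intro b _ hb; simp [k', hb]
        · simp
      conv_lhs => rw [← pair_act (fun j => hz (σ j)) (compS Φ χ) k' hk']
      rw [← pair_smul]
      congr 1
      funext x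
      rw [compS, tw_act hP, hpr, compS]
    by_contra hne'
    have hne2 : pair (fun j => z (σ j)) (compS Φ χ) ≠ 0 := by
      intro h0
      rw [h0, mul_zero] at hne'
      exact hne' rfl
    have : E (∑ i, χ j i * k i) = 1 := by
      apply mul_right_cancel₀ hne2
      rw [one_mul]; exact key.symm
    exact hne ((E_eq_one_iff _).1 this)
  push Not at h2
  by_cases h3 : ∃ j i, χ j i = 0
  · obtain ⟨j, i, hi⟩ := h3
    by_cases h4 : ∀ l, χ j l = 0
    · apply Finset.sum_eq_zero
      intro σ _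
      rw [pair_const j (hd (σ j)), mul_zero]
      intro x x' hxx'
      exact hP.const h4 (good_rep x) (good_rep x') (fun j' hj' => by rw [hxx' j' hj'])
    · push Not at h4
      obtain ⟨l, hl⟩ := h4
      exact hvan fun x hx => hP.zero_entry hi hl (h1 j) hx
  push Not at h3
  by_cases h5 : Function.Injective χ
  · obtain ⟨ℓ, b, κ, α, hc⟩ := hcomb χ h1 h3 h2 h5
    exact hvan fun x hx => hP.cycle hc (fun s _ i => h3 _ i) hx
  · rw [Function.not_injective_iff] at h5
    obtain ⟨j, j', hχ, hj⟩ := h5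
    let τ : Equiv.Perm (Fin n) := Equiv.swap j j'
    have hG : ∀ x : Fin n → S m, compS Φ χ (fun l => x (τ l)) = compS Φ χ x := by
      intro x
      have h := hP.swap hj hχ (h3 j) (good_rep x)
      simp only [compS]
      exact h
    have hp : ∀ σ : Equiv.Perm (Fin n), pair (fun l => z ((σ * τ) l)) (compS Φ χ) =
        pair (fun l => z (σ l)) (compS Φ χ) := by
      intro σ
      have := pair_perm (fun l => z (σ l)) (compS Φ χ) τ
      simp only [hG] at this
      exact this
    have hneg : ∑ σ : Equiv.Perm (Fin n), ((Equiv.Perm.sign σ : ℤ) : ℂ) *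
        pair (fun j => z (σ j)) (compS Φ χ) = -∑ σ : Equiv.Perm (Fin n),
        ((Equiv.Perm.sign σ : ℤ) : ℂ) * pair (fun j => z (σ j)) (compS Φ χ) := by
      conv_lhs => rw [← Equiv.sum_comp (Equiv.mulRight τ)]
      rw [← Finset.sum_neg_distrib]
      apply Finset.sum_congr rfl
      intro σ _
      rw [Equiv.coe_mulRight, hp, Equiv.Perm.sign_mul, Equiv.Perm.sign_swap hj]
      simp
    have h2' : (2 : ℂ) * ∑ σ : Equiv.Perm (Fin n), ((Equiv.Perm.sign σ : ℤ) : ℂ) *
        pair (fun j => z (σ j)) (compS Φ χ) = 0 := by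
      linear_combination hneg
    exact (mul_eq_zero.1 h2').resolve_left two_ne_zero

/-- The main theorem, with the combinatorial hypothesis. -/
theorem main {H : AddSubgroup (Fin 4 → ZMod m)}
    (hcomb : ∀ χ : Fin n → Fin 4 → ZMod m, (∀ j, ∑ i, χ j i = 0) → (∀ j i, χ j i ≠ 0) →
      (∀ j, ∀ k ∈ H, ∑ i, χ j i * k i = 0) → Function.Injective χ →
      ∃ ℓ b κ α, IsCycle χ ℓ b κ α)
    {z : Fin n → (S m →₀ ℤ)} (hz : ∀ j, IsInvariant H (z j)) (hd : ∀ j, deg (z j) = 0) :
    ∃ N : ℕ, 0 < N ∧ N • altCycle z ∈ rel m n := by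
  by_contra hcon
  push Not at hcon
  let Q := ((Fin n → S m) →₀ ℤ) ⧸ rel m n
  obtain ⟨f, hf⟩ := exists_functional (A := Q) (QuotientAddGroup.mk (altCycle z)) (by
    intro N hN h0
    apply hcon N hN
    rw [← QuotientAddGroup.eq_zero_iff]
    exact h0)
  let g : ((Fin n → S m) →₀ ℤ) →+ ℂ :=
    (((Rat.castHom ℂ : ℚ →+* ℂ) : ℚ →+ ℂ).comp f).comp (QuotientAddGroup.mk' (rel m n))
  have hg : g (altCycle z) = 1 := by
    show ((f (QuotientAddGroup.mk (altCycle z)) : ℚ) : ℂ) = 1
    rw [hf]; norm_num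
  have hg0 : ∀ w ∈ rel m n, g w = 0 := by
    intro w hw
    show ((f (QuotientAddGroup.mk w) : ℚ) : ℂ) = 0
    rw [(QuotientAddGroup.eq_zero_iff w).2 hw, map_zero]
    norm_num
  let Φ : (Fin n → S m) → ℂ := fun x => g (Finsupp.single x 1)
  have hΦ : Inv m n Φ := by
    intro d ξ V V' x x' h1 h2 h3 h4 h5
    have := hg0 _ (AddSubgroup.subset_closure ⟨d, ξ, V, V', x, x', h1, h2, h3, h4, h5, rfl⟩)
    rw [map_sub, map_sum, map_sum] at this
    exact sub_eq_zero.1 this
  have hsingle : ∀ (x : Fin n → S m) (c : ℤ), g (Finsupp.single x c) = (c : ℂ) * Φ x := by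
    intro x c
    have : Finsupp.single x c = c • Finsupp.single x (1 : ℤ) := by simp
    rw [this, map_zsmul, zsmul_eq_mul]
  have hprod : ∀ w : Fin n → (S m →₀ ℤ), g (prodCycle w) = pair w Φ := by
    intro w
    rw [prodCycle, map_sum, pair]
    apply Finset.sum_congr rfl
    intro x _
    rw [hsingle]
    push_cast
    rfl
  have halt : g (altCycle z) = ∑ σ : Equiv.Perm (Fin n), ((Equiv.Perm.sign σ : ℤ) : ℂ) *
      pair (fun j => z (σ j)) Φ := by
    rw [altCycle, map_sum]
    apply Finset.sum_congr rfl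
    intro σ _
    rw [map_zsmul, zsmul_eq_mul, hprod]
  have hcard : (Fintype.card (Fin n → Fin 4 → ZMod m) : ℂ) ≠ 0 := by
    exact_mod_cast Fintype.card_ne_zero
  have hzero : (Fintype.card (Fin n → Fin 4 → ZMod m) : ℂ) * g (altCycle z) = 0 := by
    rw [halt, Finset.mul_sum]
    have : ∀ σ : Equiv.Perm (Fin n), (Fintype.card (Fin n → Fin 4 → ZMod m) : ℂ) *
        (((Equiv.Perm.sign σ : ℤ) : ℂ) * pair (fun j => z (σ j)) Φ) =
        ∑ χ : Fin n → Fin 4 → ZMod m, ((Equiv.Perm.sign σ : ℤ) : ℂ) *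
          pair (fun j => z (σ j)) (compS Φ χ) := by
      intro σ
      rw [← Finset.mul_sum, ← pair_sum]
      simp only [sum_compS]
      rw [pair_smul]
      ring
    simp only [this]
    rw [Finset.sum_comm]
    apply Finset.sum_eq_zero
    intro χ _
    exact alt_comp hcomb hz hd hΦ χ
  rw [hg, mul_one] at hzero
  exact hcard hzero

end Pool.Agent.K4H27.VF
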