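import Pool.Agent.K4H27.VF.Defs

noncomputable section

namespace Pool.Agent.K4H27.VF

open Polynomial

/-- `w ∈ K` specialises to the complex number `c` at `V`. -/
def Lim (V : ValuationSubring K) (w : K) (c : ℂ) : Prop := w - algebraMap ℂ K c ∈ V.nonunits

theorem lim_iff {V : ValuationSubring K} {w : K} {c : ℂ} :
    Lim V w c ↔ V.valuation (w - algebraMap ℂ K c) < 1 := by
  rw [Lim, ValuationSubring.mem_nonunits_iff]

variable {V : ValuationSubring K}

theorem val_const_le (hV : IsPlace V) (c : ℂ) : V.valuation (algebraMap ℂ K c) ≤ 1 :=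
  (V.valuation_le_one_iff _).2 (hV.2 c)

theorem lim_const (c : ℂ) : Lim V (algebraMap ℂ K c) c := by
  rw [Lim, sub_self]; exact V.nonunits.zero_mem

theorem lim_zero : Lim V 0 0 := by simpa using lim_const (V := V) 0

theorem lim_one : Lim V 1 1 := by simpa using lim_const (V := V) 1

theorem Lim.val_le (hV : IsPlace V) {w : K} {c : ℂ} (h : Lim V w c) : V.valuation w ≤ 1 := by
  rw [lim_iff] at h
  have : w = (w - algebraMap ℂ K c) + algebraMap ℂ K c := by ring
  rw [this]
  exact (Valuation.map_add _ _ _).trans (max_le h.le (val_const_le hV c))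

theorem Lim.add (_hV : IsPlace V) {w w' : K} {c c' : ℂ} (h : Lim V w c) (h' : Lim V w' c') :
    Lim V (w + w') (c + c') := by
  have : w + w' - algebraMap ℂ K (c + c') =
      (w - algebraMap ℂ K c) + (w' - algebraMap ℂ K c') := by rw [map_add]; ring
  rw [Lim, this]
  exact V.nonunits.add_mem h h'

theorem Lim.neg (_hV : IsPlace V) {w : K} {c : ℂ} (h : Lim V w c) : Lim V (-w) (-c) := by
  have : -w - algebraMap ℂ K (-c) = -(w - algebraMap ℂ K c) := by rw [map_neg]; ring
  rw [Lim, this]
  exact V.nonunits.neg_mem h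

theorem Lim.sub (hV : IsPlace V) {w w' : K} {c c' : ℂ} (h : Lim V w c) (h' : Lim V w' c') :
    Lim V (w - w') (c - c') := by
  rw [sub_eq_add_neg, sub_eq_add_neg]; exact h.add hV (h'.neg hV)

theorem Lim.mul (hV : IsPlace V) {w w' : K} {c c' : ℂ} (h : Lim V w c) (h' : Lim V w' c') :
    Lim V (w * w') (c * c') := by
  have e : w * w' - algebraMap ℂ K (c * c') =
      (w - algebraMap ℂ K c) * w' + algebraMap ℂ K c * (w' - algebraMap ℂ K c') := by
    rw [map_mul]; ring
  have h1 := h'.val_le hV
  rw [lim_iff] at *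
  rw [e]
  refine (Valuation.map_add _ _ _).trans_lt (max_lt ?_ ?_)
  · rw [map_mul]; exact mul_lt_one_of_lt_of_le h h1
  · rw [map_mul, mul_comm]; exact mul_lt_one_of_lt_of_le h' (val_const_le hV c)

theorem Lim.pow (hV : IsPlace V) {w : K} {c : ℂ} (h : Lim V w c) (n : ℕ) :
    Lim V (w ^ n) (c ^ n) := by
  induction n with
  | zero => simpa using lim_one
  | succ n ih => rw [pow_succ, pow_succ]; exact ih.mul hV h

theorem Lim.sum (hV : IsPlace V) {ι : Type*} (s : Finset ι) {w : ι → K} {c : ι → ℂ}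
    (h : ∀ i ∈ s, Lim V (w i) (c i)) : Lim V (∑ i ∈ s, w i) (∑ i ∈ s, c i) := by
  classical
  induction s using Finset.induction_on with
  | empty => simpa using lim_zero
  | insert a s ha ih =>
    rw [Finset.sum_insert ha, Finset.sum_insert ha]
    exact (h a (Finset.mem_insert_self _ _)).add hV
      (ih fun i hi => h i (Finset.mem_insert_of_mem hi))

theorem Lim.prod (hV : IsPlace V) {ι : Type*} (s : Finset ι) {w : ι → K} {c : ι → ℂ}
    (h : ∀ i ∈ s, Lim V (w i) (c i)) : Lim V (∏ i ∈ s, w i) (∏ i ∈ s, c i) := by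
  classical
  induction s using Finset.induction_on with
  | empty => simpa using lim_one
  | insert a s ha ih =>
    rw [Finset.prod_insert ha, Finset.prod_insert ha]
    exact (h a (Finset.mem_insert_self _ _)).mul hV
      (ih fun i hi => h i (Finset.mem_insert_of_mem hi))

theorem const_eq_zero (hV : IsPlace V) {c : ℂ} (h : V.valuation (algebraMap ℂ K c) < 1) :
    c = 0 := by
  by_contra hc
  have h1 : V.valuation (algebraMap ℂ K c * algebraMap ℂ K c⁻¹) < 1 := by
    rw [map_mul]; exact mul_lt_one_of_lt_of_le h (val_const_le hV _)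
  rw [← map_mul, mul_inv_cancel₀ hc, map_one, map_one] at h1
  exact lt_irrefl _ h1

theorem Lim.unique (hV : IsPlace V) {w : K} {c c' : ℂ} (h : Lim V w c) (h' : Lim V w c') :
    c = c' := by
  have := h.sub hV h'
  rw [sub_self, lim_iff, zero_sub, Valuation.map_neg] at this
  exact sub_eq_zero.1 (const_eq_zero hV this)

theorem Lim.val_eq (hV : IsPlace V) {w : K} {c : ℂ} (h : Lim V w c) (hc : c ≠ 0) :
    V.valuation w = 1 := by
  refine le_antisymm (h.val_le hV) ?_
  by_contra hlt
  rw [not_le] at hlt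
  have h0 : Lim V w 0 := by rw [lim_iff, map_zero, sub_zero]; exact hlt
  exact hc (h.unique hV h0)

theorem Lim.ne_zero (hV : IsPlace V) {w : K} {c : ℂ} (h : Lim V w c) (hc : c ≠ 0) : w ≠ 0 := by
  rintro rfl
  exact hc (h.unique hV lim_zero)

theorem Lim.inv (hV : IsPlace V) {w : K} {c : ℂ} (h : Lim V w c) (hc : c ≠ 0) :
    Lim V w⁻¹ c⁻¹ := by
  have hw : w ≠ 0 := h.ne_zero hV hc
  have hc' : algebraMap ℂ K c ≠ 0 := by simpa using hc
  have e : w⁻¹ - algebraMap ℂ K c⁻¹ =
      -((w - algebraMap ℂ K c) * (w⁻¹ * algebraMap ℂ K c⁻¹)) := by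
    rw [map_inv₀]; field_simp; ring
  have hv := h.val_eq hV hc
  rw [lim_iff] at h ⊢
  rw [e, Valuation.map_neg, map_mul]
  refine mul_lt_one_of_lt_of_le h ?_
  rw [map_mul, map_inv₀, hv, inv_one, one_mul]
  exact val_const_le hV _

theorem Lim.div (hV : IsPlace V) {w w' : K} {c c' : ℂ} (h : Lim V w c) (h' : Lim V w' c')
    (hc : c' ≠ 0) : Lim V (w / w') (c / c') := by
  rw [div_eq_mul_inv, div_eq_mul_inv]; exact h.mul hV (h'.inv hV hc)

/-- A root of a monic complex polynomial, up to an element of positive valuation. -/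
theorem exists_lim_of_eval (p : ℂ[X]) (hp : p.Monic) {w : K}
    (h : V.valuation (aeval w p) < 1) : ∃ c, p.eval c = 0 ∧ Lim V w c := by
  have hs : p = (p.roots.map fun a => X - C a).prod := by
    conv_lhs => rw [(IsAlgClosed.splits p).eq_prod_roots, hp.leadingCoeff]
    simp
  have h2 : aeval w p = (p.roots.map fun a => w - algebraMap ℂ K a).prod := by
    conv_lhs => rw [hs]
    rw [map_multiset_prod, Multiset.map_map]
    congr 1
    apply Multiset.map_congr rfl
    intro a _
    simp
  rw [h2, map_multiset_prod, Multiset.map_map] at h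
  by_contra hcon
  push Not at hcon
  have : ∀ s : Multiset ℂ, (∀ a ∈ s, p.eval a = 0) →
      1 ≤ (s.map (V.valuation ∘ fun a => w - algebraMap ℂ K a)).prod := by
    intro s
    induction s using Multiset.induction_on with
    | empty => simp
    | cons a s ih =>
      intro hs
      rw [Multiset.map_cons, Multiset.prod_cons]
      have h1 := hcon a (hs a (Multiset.mem_cons_self _ _))
      rw [lim_iff, not_lt] at h1
      exact one_le_mul h1 (ih fun b hb => hs b (Multiset.mem_cons_of_mem hb))
  refine absurd h (not_lt.2 (this _ ?_))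
  intro a ha
  exact (mem_roots'.1 ha).2

theorem lim_root (m : ℕ) (hm : m ≠ 0) {w : K} {b : ℂ} (h : Lim V (w ^ m) b) :
    ∃ c, c ^ m = b ∧ Lim V w c := by
  obtain ⟨c, hc, hl⟩ := exists_lim_of_eval (V := V) (X ^ m - C b) (monic_X_pow_sub_C b hm) (w := w)
    (by simpa [lim_iff] using h)
  refine ⟨c, ?_, hl⟩
  simpa [sub_eq_zero] using hc

/-- The coordinate of the projective line. -/
def tt : K := algebraMap F K RatFunc.X

theorem algebraMap_poly_injective : Function.Injective (algebraMap ℂ[X] K) := by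
  rw [IsScalarTower.algebraMap_eq ℂ[X] F K]
  exact (algebraMap F K).injective.comp (RatFunc.algebraMap_injective ℂ)

theorem algebraMap_C (c : ℂ) : algebraMap ℂ[X] K (C c) = algebraMap ℂ K c := by
  rw [IsScalarTower.algebraMap_apply ℂ[X] F K, IsScalarTower.algebraMap_apply ℂ F K]
  congr 1

theorem algebraMap_X : algebraMap ℂ[X] K X = tt := by
  rw [IsScalarTower.algebraMap_apply ℂ[X] F K, tt]
  congr 1

/-- There is a place over each finite point of the projective line. -/
theorem exists_place (t₀ : ℂ) : ∃ V : ValuationSubring K, IsPlace V ∧ Lim V tt t₀ := by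
  let φ : ℂ[X] →+* K := algebraMap ℂ[X] K
  let A : Subring K := φ.range
  let e : ℂ[X] ≃+* A := RingEquiv.ofBijective φ.rangeRestrict
    ⟨fun a b h => algebraMap_poly_injective (congrArg Subtype.val h), φ.rangeRestrict_surjective⟩
  let I : Ideal A := Ideal.comap e.symm (Ideal.span {X - C t₀})
  have hI : I ≠ ⊤ := by
    rw [Ideal.ne_top_iff_one, Ideal.mem_comap, map_one, Ideal.mem_span_singleton]
    intro h
    exact (Polynomial.not_isUnit_X_sub_C t₀) (isUnit_of_dvd_one h)
  obtain ⟨V, hA, hIV⟩ := Ideal.image_subset_nonunits_valuationSubring I hI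
  have hc : ∀ c : ℂ, algebraMap ℂ K c ∈ V := by
    intro c
    apply hA
    exact ⟨C c, algebraMap_C c⟩
  have hX : tt - algebraMap ℂ K t₀ ∈ V.nonunits := by
    apply hIV
    refine ⟨e (X - C t₀), ?_, ?_⟩
    · show e.symm (e (X - C t₀)) ∈ Ideal.span {X - C t₀}
      rw [RingEquiv.symm_apply_apply]
      exact Ideal.mem_span_singleton_self (X - C t₀)
    · show φ (X - C t₀) = _
      rw [map_sub]
      exact congrArg₂ _ algebraMap_X (algebraMap_C t₀)
  have hne : tt - algebraMap ℂ K t₀ ≠ 0 := by
    intro h0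
    rw [← algebraMap_X, ← algebraMap_C, ← map_sub,
      map_eq_zero_iff _ algebraMap_poly_injective] at h0
    exact X_sub_C_ne_zero t₀ h0
  refine ⟨V, ⟨?_, hc⟩, hX⟩
  rintro rfl
  rw [ValuationSubring.mem_nonunits_iff_or] at hX
  rcases hX with h | h
  · exact hne h
  · exact h (ValuationSubring.mem_top _)

theorem aut_const (σ : K ≃ₐ[F] K) (c : ℂ) : σ (algebraMap ℂ K c) = algebraMap ℂ K c := by
  rw [IsScalarTower.algebraMap_apply ℂ F K]
  exact σ.commutes _

theorem aut_tt (σ : K ≃ₐ[F] K) : σ tt = tt := σ.commutes _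

/-- If the coordinates of a point of the cone over the Fermat surface have limits, then these are
the coordinates of a point of the cone. -/
theorem cone_of_lim (hV : IsPlace V) (m : ℕ) {w : Fin 4 → K} {v : Fin 4 → ℂ}
    (h : ∀ i, Lim V (w i) (v i)) (hw : ∑ i, w i ^ m = 0) : ∑ i, v i ^ m = 0 := by
  have := Lim.sum hV Finset.univ (fun i _ => (h i).pow hV m)
  rw [hw] at this
  exact (this.unique hV lim_zero)

end Pool.Agent.K4H27.VF
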