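import Pool.Agent.K4H27.VF.Cycle

noncomputable section

namespace Pool.Agent.K4H27.VF

open scoped Classical

set_option linter.unusedSectionVars false

variable {m n : ℕ} [NeZero m] {χ : Fin n → Fin 4 → ZMod m} {P : (Fin n → Fin 4 → ℂ) → ℂ}

/-- multipliers for two blocks -/
def bm {R : Type*} [One R] (j j' : Fin n) (p q : Fin 4) (u z u' z' : R) (l : Fin n) (i : Fin 4) :
    R :=
  if l = j then (if i = p then 1 else if i = q then u else z)
  else if l = j' then (if i = p then 1 else if i = q then u' else z') else 1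

/-- exponents for two blocks -/
def ba {R : Type*} [Zero R] (j j' : Fin n) (p q : Fin 4) (u z u' z' : R) (l : Fin n) (i : Fin 4) :
    R :=
  if l = j then (if i = p then 0 else if i = q then u else z)
  else if l = j' then (if i = p then 0 else if i = q then u' else z') else 0

variable {j j' : Fin n} {p q : Fin 4}

theorem bm_mul {R : Type*} [CommRing R] (u z u' z' v w v' w' : R) (l : Fin n) (i : Fin 4) :
    bm j j' p q (u * v) (z * w) (u' * v') (z' * w') l i =
      bm j j' p q u z u' z' l i * bm j j' p q v w v' w' l i := by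
  simp only [bm]
  split_ifs <;> simp

theorem E_ba (e d e' d' : ZMod m) (l : Fin n) (i : Fin 4) :
    E (ba j j' p q e d e' d' l i) = bm j j' p q (E e) (E d) (E e') (E d') l i := by
  simp only [ba, bm]
  split_ifs <;> first | rfl | exact E_zero

theorem map_bm {R R' : Type*} [CommRing R] [CommRing R'] (f : R →+* R') (u z u' z' : R)
    (l : Fin n) (i : Fin 4) :
    f (bm j j' p q u z u' z' l i) = bm j j' p q (f u) (f z) (f u') (f z') l i := by
  simp only [bm]
  split_ifs <;> first | rfl | exact map_one f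

theorem lim_bm {V : ValuationSubring K} {u z u' z' : K} {a b a' b' : ℂ}
    (hu : Lim V u a) (hz : Lim V z b) (hu' : Lim V u' a') (hz' : Lim V z' b') (l : Fin n)
    (i : Fin 4) : Lim V (bm j j' p q u z u' z' l i) (bm j j' p q a b a' b' l i) := by
  simp only [bm]
  split_ifs <;> first | exact hu | exact hz | exact hu' | exact hz' | exact lim_one

theorem pr_ba (hj : j ≠ j') (hχ : χ j = χ j') (e d : ZMod m) :
    pr χ (ba j j' p q e d (-e) (-d)) = 0 := by
  have h1 : ∀ l, (∑ i, χ l i * ba j j' p q e d (-e) (-d) l i) =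
      (if l = j then ∑ i, χ j i * (if i = p then 0 else if i = q then e else d) else 0) +
      (if l = j' then -∑ i, χ j i * (if i = p then 0 else if i = q then e else d) else 0) := by
    intro l
    by_cases h1 : l = j
    · subst h1
      rw [if_pos rfl, if_neg hj, add_zero]
      apply Finset.sum_congr rfl
      intro i _
      simp [ba]
    · rw [if_neg h1, zero_add]
      by_cases h2 : l = j'
      · subst h2
        rw [if_pos rfl, ← Finset.sum_neg_distrib]
        apply Finset.sum_congr rfl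
        intro i _
        simp only [ba, if_neg h1, if_true, hχ]
        split_ifs <;> ring
      · rw [if_neg h2]
        apply Finset.sum_eq_zero
        intro i _
        simp [ba, h1, h2]
  rw [pr]
  simp only [h1]
  rw [Finset.sum_add_distrib, Finset.sum_ite_eq' Finset.univ j, Finset.sum_ite_eq' Finset.univ j',
    if_pos (Finset.mem_univ _), if_pos (Finset.mem_univ _), add_neg_cancel]

/-- Limits of the roots of a quadratic equation. -/
theorem quad_lim {V : ValuationSubring K} (hV : IsPlace V) {e₁ e₂ β : K} {c₁ c₂ : ℂ}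
    (h₁ : Lim V e₁ (c₁ + c₂)) (h₂ : Lim V e₂ (c₁ * c₂)) (hβ : β ^ 2 - e₁ * β + e₂ = 0) :
    (Lim V β c₁ ∧ Lim V (e₁ - β) c₂) ∨ (Lim V β c₂ ∧ Lim V (e₁ - β) c₁) := by
  have hle : V.valuation β ≤ 1 := by
    by_contra hlt
    rw [not_le] at hlt
    have hne : β ≠ 0 := by
      rintro rfl
      rw [map_zero] at hlt
      exact absurd hlt (not_lt.2 zero_le_one)
    have e : β = e₁ - e₂ * β⁻¹ := by
      field_simp
      linear_combination hβ
    have h3 : V.valuation (e₂ * β⁻¹) ≤ 1 := by
      rw [map_mul, map_inv₀]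
      exact mul_le_one' (h₂.val_le hV) (inv_le_one_of_one_le₀ hlt.le)
    have : V.valuation β ≤ 1 := by
      rw [e]
      exact (Valuation.map_sub _ _ _).trans (max_le (h₁.val_le hV) h3)
    exact absurd this (not_le.2 hlt)
  have hprod : V.valuation ((β - algebraMap ℂ K c₁) * (β - algebraMap ℂ K c₂)) < 1 := by
    have e : (β - algebraMap ℂ K c₁) * (β - algebraMap ℂ K c₂) =
        (e₁ - algebraMap ℂ K (c₁ + c₂)) * β - (e₂ - algebraMap ℂ K (c₁ * c₂)) := by
      rw [map_add, map_mul]
      linear_combination hβ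
    rw [e]
    rw [lim_iff] at h₁ h₂
    refine (Valuation.map_sub _ _ _).trans_lt (max_lt ?_ h₂)
    rw [map_mul]
    exact mul_lt_one_of_lt_of_le h₁ hle
  have hor : Lim V β c₁ ∨ Lim V β c₂ := by
    by_contra hcon
    push Not at hcon
    rw [lim_iff, lim_iff, not_lt, not_lt] at hcon
    rw [map_mul] at hprod
    exact absurd hprod (not_lt.2 (one_le_mul hcon.1 hcon.2))
  rcases hor with h | h
  · left
    refine ⟨h, ?_⟩
    simpa using h₁.sub hV h
  · right
    refine ⟨h, ?_⟩
    have := h₁.sub hV h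
    rwa [add_sub_cancel_right] at this

theorem cone_bm {x : Fin n → Fin 4 → ℂ} {l : Fin n} (hx : ∑ i, x l i ^ m = 0) (hpq : p ≠ q)
    {u z γ : K} (h0 : x l p ≠ 0) (hU : x l p ^ m + x l q ^ m ≠ 0)
    (hu : u ^ m * algebraMap ℂ K (x l q ^ m) = γ * algebraMap ℂ K (x l p ^ m))
    (hz : z ^ m * algebraMap ℂ K (x l p ^ m + x l q ^ m) = (1 + γ) * algebraMap ℂ K (x l p ^ m)) :
    ∑ i, (if i = p then 1 else if i = q then u else z) ^ m * algebraMap ℂ K (x l i ^ m) = 0 := by
  have e : ∀ i, (if i = p then 1 else if i = q then u else z) ^ m * algebraMap ℂ K (x l i ^ m) =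
      z ^ m * algebraMap ℂ K (x l i ^ m) +
      ((if i = p then (1 - z ^ m) * algebraMap ℂ K (x l p ^ m) else 0) +
      (if i = q then (u ^ m - z ^ m) * algebraMap ℂ K (x l q ^ m) else 0)) := by
    intro i
    by_cases h1 : i = p
    · subst h1
      rw [if_pos rfl, if_pos rfl, if_neg hpq]; ring
    · rw [if_neg h1, if_neg h1]
      by_cases h2 : i = q
      · subst h2
        rw [if_pos rfl, if_pos rfl]; ring
      · rw [if_neg h2, if_neg h2]; ring
  rw [Finset.sum_congr rfl (fun i _ => e i), Finset.sum_add_distrib, ← Finset.mul_sum, ← map_sum,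
    hx, Finset.sum_add_distrib, Finset.sum_ite_eq' Finset.univ p, Finset.sum_ite_eq' Finset.univ q,
    if_pos (Finset.mem_univ _), if_pos (Finset.mem_univ _), map_zero, mul_zero, zero_add]
  rw [map_add] at hz
  linear_combination hu - hz

/-- Exchange of the coordinates `p, q` between the blocks `j` and `j'`. -/
def swapv (j j' : Fin n) (p q : Fin 4) (τ : ℂ) (x : Fin n → Fin 4 → ℂ) (l : Fin n) (i : Fin 4) :
    ℂ :=
  if l = j then (if i = p then x j' p else if i = q then x j' q else τ * x j i)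
  else if l = j' then (if i = p then x j p else if i = q then x j q else τ⁻¹ * x j' i) else x l i

theorem Tw.half (hP : Tw χ P) (hj : j ≠ j') (hχ : χ j = χ j') (hpq : p ≠ q) (hq : χ j q ≠ 0)
    {x : Fin n → Fin 4 → ℂ} (hx : Good m x) (hjp : x j p ≠ 0) (hjq : x j q ≠ 0)
    (hjp' : x j' p ≠ 0) (hjq' : x j' q ≠ 0) (hU : x j p ^ m + x j q ^ m ≠ 0)
    (hU' : x j' p ^ m + x j' q ^ m ≠ 0) {τ : ℂ}
    (hτ : τ ^ m * (x j p ^ m + x j q ^ m) = x j' p ^ m + x j' q ^ m) :
    P x + P (swapv j j' p q τ x) = 0 := by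
  have hm : m ≠ 0 := NeZero.ne m
  obtain ⟨V1, hV1, ht1⟩ := exists_place 1
  obtain ⟨V0, hV0, ht0⟩ := exists_place 0
  have ht1' := ht1.pow hV1 m
  have ht0' := ht0.pow hV0 m
  rw [one_pow] at ht1'
  rw [zero_pow hm] at ht0'
  have htne : tt ≠ 0 := ht1.ne_zero hV1 one_ne_zero
  have hjpm := pow_ne_zero m hjp
  have hjqm := pow_ne_zero m hjq
  have hjpm' := pow_ne_zero m hjp'
  have hjqm' := pow_ne_zero m hjq'
  -- constants
  obtain ⟨y1, hy1⟩ : ∃ y1 : ℂ, y1 = x j q ^ m / x j p ^ m := ⟨_, rfl⟩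
  obtain ⟨y2, hy2⟩ : ∃ y2 : ℂ, y2 = x j' q ^ m / x j' p ^ m := ⟨_, rfl⟩
  have hy1ne : y1 ≠ 0 := by rw [hy1]; exact div_ne_zero hjqm hjpm
  have hy2ne : y2 ≠ 0 := by rw [hy2]; exact div_ne_zero hjqm' hjpm'
  have e1y : 1 + y1 = (x j p ^ m + x j q ^ m) / x j p ^ m := by rw [hy1]; field_simp
  have e2y : 1 + y2 = (x j' p ^ m + x j' q ^ m) / x j' p ^ m := by rw [hy2]; field_simp
  have h1y : 1 + y1 ≠ 0 := by rw [e1y]; exact div_ne_zero hU hjpm
  have h2y : 1 + y2 ≠ 0 := by rw [e2y]; exact div_ne_zero hU' hjpm'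
  have hτ0 : τ ≠ 0 := by
    rintro rfl
    rw [zero_pow hm, zero_mul] at hτ
    exact hU' hτ.symm
  obtain ⟨κ, hκ⟩ : ∃ κ : ℂ, κ = (x j p * x j' q) / (x j q * x j' p) := ⟨_, rfl⟩
  obtain ⟨ρ, hρ⟩ : ∃ ρ : ℂ, ρ = τ * x j p / x j' p := ⟨_, rfl⟩
  have hκne : κ ≠ 0 := by
    rw [hκ]; exact div_ne_zero (mul_ne_zero hjp hjq') (mul_ne_zero hjq hjp')
  have hρne : ρ ≠ 0 := by rw [hρ]; exact div_ne_zero (mul_ne_zero hτ0 hjp) hjp'
  have hκm : κ ^ m * y1 = y2 := by
    rw [hκ, hy1, hy2, div_pow, mul_pow, mul_pow]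
    field_simp
  have hρm : ρ ^ m * (1 + y1) = 1 + y2 := by
    rw [hρ, e1y, e2y, div_pow, mul_pow, ← hτ]
    field_simp
  -- the quadratic equation
  obtain ⟨e₁, he₁⟩ : ∃ e₁ : K, e₁ = algebraMap ℂ K ((1 + y1) * (1 + y2) - 1) -
    tt ^ m * algebraMap ℂ K (y1 * y2) := ⟨_, rfl⟩
  obtain ⟨e₂, he₂⟩ : ∃ e₂ : K, e₂ = tt ^ m * algebraMap ℂ K (y1 * y2) := ⟨_, rfl⟩
  obtain ⟨β, hβ⟩ : ∃ β : K, β ^ 2 - e₁ * β + e₂ = 0 := by
    obtain ⟨s, hs⟩ := IsAlgClosed.exists_pow_nat_eq (e₁ ^ 2 - 4 * e₂) (n := 2) (by norm_num)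
    refine ⟨(e₁ + s) / 2, ?_⟩
    have : (2 : K) ≠ 0 := by norm_num
    field_simp
    linear_combination hs
  obtain ⟨β', hβ'⟩ : ∃ β' : K, β' = e₁ - β := ⟨_, rfl⟩
  have hββ' : β * β' = e₂ := by rw [hβ']; linear_combination -hβ
  have halg : ∀ {c : ℂ}, c ≠ 0 → algebraMap ℂ K c ≠ 0 := fun {c} hc => by simpa using hc
  have he₂ne : e₂ ≠ 0 := by
    rw [he₂]
    exact mul_ne_zero (pow_ne_zero _ htne) (halg (mul_ne_zero hy1ne hy2ne))
  have hβne : β ≠ 0 := by rintro rfl; exact he₂ne (by rw [← hββ', zero_mul])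
  have hβ'ne : β' ≠ 0 := by intro h; exact he₂ne (by rw [← hββ', h, mul_zero])
  have hone : (1 + β) * (1 + β') = algebraMap ℂ K ((1 + y1) * (1 + y2)) := by
    have : (1 + β) * (1 + β') = 1 + e₁ + e₂ := by
      rw [← hββ']
      have : e₁ = β + β' := by rw [hβ']; ring
      rw [this]; ring
    rw [this, he₁, he₂, map_sub, map_one]
    ring
  have hone_ne : algebraMap ℂ K ((1 + y1) * (1 + y2)) ≠ 0 := halg (mul_ne_zero h1y h2y)
  have h1β : 1 + β ≠ 0 := by intro h; rw [h, zero_mul] at hone; exact hone_ne hone.symm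
  have h1β' : 1 + β' ≠ 0 := by intro h; rw [h, mul_zero] at hone; exact hone_ne hone.symm
  -- the roots
  obtain ⟨η, hη⟩ := exists_root (m := m) (β / algebraMap ℂ K y1)
  obtain ⟨ζ, hζ⟩ := exists_root (m := m) ((1 + β) / algebraMap ℂ K (1 + y1))
  have hη0 : η ≠ 0 := by
    rintro rfl
    rw [zero_pow hm] at hη
    exact div_ne_zero hβne (halg hy1ne) hη.symm
  have hζ0 : ζ ≠ 0 := by
    rintro rfl
    rw [zero_pow hm] at hζ
    exact div_ne_zero h1β (halg h1y) hζ.symm
  obtain ⟨η', hη'⟩ : ∃ η' : K, η' = tt / η := ⟨_, rfl⟩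
  obtain ⟨ζ', hζ'⟩ : ∃ ζ' : K, ζ' = ζ⁻¹ := ⟨_, rfl⟩
  have hηη' : η * η' = tt := by rw [hη']; field_simp
  have hζζ' : ζ * ζ' = 1 := by rw [hζ']; exact mul_inv_cancel₀ hζ0
  have hη'm : η' ^ m = β' / algebraMap ℂ K y2 := by
    have h1 : η ^ m * η' ^ m = tt ^ m := by rw [← mul_pow, hηη']
    rw [hη] at h1
    have h2 := halg hy1ne
    have h3 := halg hy2ne
    rw [eq_div_iff h3]
    have h4 : β * (η' ^ m * algebraMap ℂ K y2) = β * β' := by
      rw [hββ', he₂, ← h1, map_mul]
      field_simp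
    exact mul_left_cancel₀ hβne h4
  have hζ'm : ζ' ^ m = (1 + β') / algebraMap ℂ K (1 + y2) := by
    have h1 : ζ ^ m * ζ' ^ m = 1 := by rw [← mul_pow, hζζ', one_pow]
    rw [hζ] at h1
    have h2 := halg h1y
    have h3 := halg h2y
    rw [eq_div_iff h3]
    have h4 : (1 + β) * (ζ' ^ m * algebraMap ℂ K (1 + y2)) = (1 + β) * (1 + β') := by
      rw [hone, map_mul]
      field_simp at h1
      linear_combination (algebraMap ℂ K (1 + y2)) * h1
    exact mul_left_cancel₀ h1β h4
  -- constants in K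
  obtain ⟨k₁, hk₁⟩ : ∃ k₁ : K, k₁ = algebraMap ℂ K κ := ⟨_, rfl⟩
  obtain ⟨r₁, hr₁⟩ : ∃ r₁ : K, r₁ = algebraMap ℂ K ρ := ⟨_, rfl⟩
  have hk₁0 : k₁ ≠ 0 := by rw [hk₁]; exact halg hκne
  have hr₁0 : r₁ ≠ 0 := by rw [hr₁]; exact halg hρne
  have hk₁m : k₁ ^ m * algebraMap ℂ K y1 = algebraMap ℂ K y2 := by
    rw [hk₁, ← map_pow, ← map_mul, hκm]
  have hr₁m : r₁ ^ m * algebraMap ℂ K (1 + y1) = algebraMap ℂ K (1 + y2) := by
    rw [hr₁, ← map_pow, ← map_mul, hρm]
  let M : Bool → Fin n → Fin 4 → K := fun l => if l then bm j j' p q η ζ η' ζ'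
    else bm j j' p q (k₁ * η') (r₁ * ζ') (k₁⁻¹ * η) (r₁⁻¹ * ζ)
  let y : Fin n → Fin 4 → ℂ := fun l i => bm j j' p q κ ρ κ⁻¹ ρ⁻¹ l i * x l i
  have hPy : P y = P (swapv j j' p q τ x) := by
    rw [← hP.scale (fun l => if l = j then x j' p / x j p else if l = j' then x j p / x j' p
      else 1) _ y]
    · congr 1
      funext l i
      simp only [y, bm, swapv]
      by_cases h1 : l = j
      · subst h1
        simp only [if_true]
        by_cases h2 : i = p
        · subst h2; simp only [if_true]; field_simp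
        · simp only [if_neg h2]
          by_cases h3 : i = q
          · subst h3; simp only [if_true, hκ]; field_simp
          · simp only [if_neg h3, hρ]; field_simp
      · simp only [if_neg h1]
        by_cases h2 : l = j'
        · subst h2
          simp only [if_true]
          by_cases h2 : i = p
          · subst h2; simp only [if_true]; field_simp
          · simp only [if_neg h2]
            by_cases h3 : i = q
            · subst h3; simp only [if_true, hκ]; field_simp
            · simp only [if_neg h3, hρ]; field_simp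
        · simp only [if_neg h2, one_mul]
    · intro l
      split_ifs
      · exact div_ne_zero hjp' hjp
      · exact div_ne_zero hjp hjp'
      · exact one_ne_zero
  rw [← hPy]
  -- limits of the roots
  have hlims : ∀ (V : ValuationSubring K), IsPlace V → ∀ (c c' : ℂ), Lim V β c → Lim V β' c' →
      ∃ a b a' b' : ℂ, Lim V η a ∧ Lim V ζ b ∧ Lim V η' a' ∧ Lim V ζ' b' ∧ a ^ m = c / y1 ∧
        b ^ m = (1 + c) / (1 + y1) ∧ a' ^ m = c' / y2 ∧ b' ^ m = (1 + c') / (1 + y2) := by
    intro V hV c c' hc hc'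
    obtain ⟨a, ha, ha'⟩ := lim_root m hm (w := η) (V := V) (b := c / y1)
      (by rw [hη]; exact hc.div hV (lim_const _) hy1ne)
    obtain ⟨b, hb, hb'⟩ := lim_root m hm (w := ζ) (V := V) (b := (1 + c) / (1 + y1))
      (by rw [hζ]; exact (lim_one.add hV hc).div hV (lim_const _) h1y)
    obtain ⟨a', ha1, ha1'⟩ := lim_root m hm (w := η') (V := V) (b := c' / y2)
      (by rw [hη'm]; exact hc'.div hV (lim_const _) hy2ne)
    obtain ⟨b', hb1, hb1'⟩ := lim_root m hm (w := ζ') (V := V) (b := (1 + c') / (1 + y2))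
      (by rw [hζ'm]; exact (lim_one.add hV hc').div hV (lim_const _) h2y)
    exact ⟨a, b, a', b', ha', hb', ha1', hb1', ha, hb, ha1, hb1⟩
  have hlimM : ∀ (V : ValuationSubring K), IsPlace V → ∀ (a b a' b' : ℂ), Lim V η a → Lim V ζ b →
      Lim V η' a' → Lim V ζ' b' → ∀ (l : Bool) (i : Fin n) (i' : Fin 4),
      Lim V (M l i i' * algebraMap ℂ K (x i i')) ((if l then bm j j' p q a b a' b'
        else bm j j' p q (κ * a') (ρ * b') (κ⁻¹ * a) (ρ⁻¹ * b)) i i' * x i i') := by
    intro V hV a b a' b' ha hb ha' hb' l i i'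
    refine Lim.mul hV ?_ (lim_const _)
    cases l
    · simp only [M, Bool.false_eq_true, if_false]
      have hki : Lim V k₁⁻¹ κ⁻¹ := by rw [hk₁, ← map_inv₀]; exact lim_const _
      have hri : Lim V r₁⁻¹ ρ⁻¹ := by rw [hr₁, ← map_inv₀]; exact lim_const _
      have hk : Lim V k₁ κ := by rw [hk₁]; exact lim_const _
      have hr : Lim V r₁ ρ := by rw [hr₁]; exact lim_const _
      exact lim_bm (hk.mul hV ha') (hr.mul hV hb') (hki.mul hV ha) (hri.mul hV hb) i i'
    · simp only [M, if_true]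
      exact lim_bm ha hb ha' hb' i i'
  -- limits of the quadratic equation
  have hE1 : Lim V1 e₁ (y1 + y2) := by
    rw [he₁]
    have := (lim_const (V := V1) ((1 + y1) * (1 + y2) - 1)).sub hV1
      (ht1'.mul hV1 (lim_const (y1 * y2)))
    convert this using 1
    ring
  have hE2 : Lim V1 e₂ (y1 * y2) := by
    rw [he₂]
    simpa using ht1'.mul hV1 (lim_const (y1 * y2))
  have hF1 : Lim V0 e₁ (0 + ((1 + y1) * (1 + y2) - 1)) := by
    rw [he₁]
    have := (lim_const (V := V0) ((1 + y1) * (1 + y2) - 1)).sub hV0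
      (ht0'.mul hV0 (lim_const (y1 * y2)))
    convert this using 1
    ring
  have hF2 : Lim V0 e₂ (0 * ((1 + y1) * (1 + y2) - 1)) := by
    rw [he₂]
    have := ht0'.mul hV0 (lim_const (y1 * y2))
    convert this using 1
    ring
  obtain ⟨a0, b0, a0', b0', hA0, hB0, hA0', hB0', hz⟩ : ∃ a b a' b' : ℂ, Lim V0 η a ∧
      Lim V0 ζ b ∧ Lim V0 η' a' ∧ Lim V0 ζ' b' ∧ (a = 0 ∨ a' = 0) := by
    rcases quad_lim hV0 hF1 hF2 hβ with ⟨h1, h2⟩ | ⟨h1, h2⟩
    · rw [← hβ'] at h2
      obtain ⟨a, b, a', b', ha, hb, ha', hb', ham, -, -, -⟩ := hlims V0 hV0 _ _ h1 h2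
      refine ⟨a, b, a', b', ha, hb, ha', hb', Or.inl ?_⟩
      rw [zero_div] at ham
      exact (pow_eq_zero_iff hm).1 ham
    · rw [← hβ'] at h2
      obtain ⟨a, b, a', b', ha, hb, ha', hb', -, -, ham, -⟩ := hlims V0 hV0 _ _ h1 h2
      refine ⟨a, b, a', b', ha, hb, ha', hb', Or.inr ?_⟩
      rw [zero_div] at ham
      exact (pow_eq_zero_iff hm).1 ham
  have hprba : ∀ (e d : ZMod m) (z : Fin n → Fin 4 → ℂ),
      P (actG (ba j j' p q e d (-e) (-d)) z) = P z := by
    intro e d z
    rw [hP.equiv, pr_ba hj hχ, E_zero, one_mul]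
  obtain ⟨a1, b1, a1', b1', hA1, hB1, hA1', hB1', hsum⟩ : ∃ a b a' b' : ℂ, Lim V1 η a ∧
      Lim V1 ζ b ∧ Lim V1 η' a' ∧ Lim V1 ζ' b' ∧
      P (fun i i' => bm j j' p q a b a' b' i i' * x i i') +
      P (fun i i' => bm j j' p q (κ * a') (ρ * b') (κ⁻¹ * a) (ρ⁻¹ * b) i i' * x i i') =
      P x + P y := by
    rcases quad_lim hV1 hE1 hE2 hβ with ⟨h1, h2⟩ | ⟨h1, h2⟩
    · rw [← hβ'] at h2
      obtain ⟨a, b, a', b', ha, hb, ha', hb', ham, hbm, -, -⟩ := hlims V1 hV1 _ _ h1 h2
      refine ⟨a, b, a', b', ha, hb, ha', hb', ?_⟩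
      have haa' : a * a' = 1 := by
        have := ha.mul hV1 ha'
        rw [hηη'] at this
        exact this.unique hV1 ht1
      have hbb' : b * b' = 1 := by
        have := hb.mul hV1 hb'
        rw [hζζ'] at this
        exact this.unique hV1 lim_one
      rw [div_self hy1ne] at ham
      rw [div_self h1y] at hbm
      obtain ⟨e, he⟩ := exists_E (m := m) a ham
      obtain ⟨d, hd⟩ := exists_E (m := m) b hbm
      have ha'e : a' = E (-e) := by rw [E_neg, ← he]; exact eq_inv_of_mul_eq_one_right haa'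
      have hb'd : b' = E (-d) := by rw [E_neg, ← hd]; exact eq_inv_of_mul_eq_one_right hbb'
      have t1 : P (fun i i' => bm j j' p q a b a' b' i i' * x i i') = P x := by
        rw [← hprba e d x]
        congr 1
        funext i i'
        rw [actG, E_ba, he, hd, ha'e, hb'd]
      have t2 : P (fun i i' => bm j j' p q (κ * a') (ρ * b') (κ⁻¹ * a) (ρ⁻¹ * b) i i' * x i i') =
          P y := by
        have := hprba (-e) (-d) y
        rw [neg_neg, neg_neg] at this
        rw [← this]
        congr 1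
        funext i i'
        rw [actG, E_ba, he, hd, ha'e, hb'd, bm_mul]
        simp only [y]
        ring
      rw [t1, t2]
    · rw [← hβ'] at h2
      obtain ⟨a, b, a', b', ha, hb, ha', hb', ham, hbm, -, -⟩ := hlims V1 hV1 _ _ h1 h2
      refine ⟨a, b, a', b', ha, hb, ha', hb', ?_⟩
      have haa' : a * a' = 1 := by
        have := ha.mul hV1 ha'
        rw [hηη'] at this
        exact this.unique hV1 ht1
      have hbb' : b * b' = 1 := by
        have := hb.mul hV1 hb'
        rw [hζζ'] at this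
        exact this.unique hV1 lim_one
      have ham' : (a / κ) ^ m = 1 := by
        rw [div_pow, ham, div_div, ← hκm]
        field_simp
      have hbm' : (b / ρ) ^ m = 1 := by
        rw [div_pow, hbm, div_div, ← hρm]
        field_simp
      obtain ⟨e, he⟩ := exists_E (m := m) (a / κ) ham'
      obtain ⟨d, hd⟩ := exists_E (m := m) (b / ρ) hbm'
      have hae : a = κ * E e := by rw [← he]; field_simp
      have hbd : b = ρ * E d := by rw [← hd]; field_simp
      have ha'e : a' = κ⁻¹ * E (-e) := by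
        rw [E_neg, ← mul_inv, ← hae]; exact eq_inv_of_mul_eq_one_right haa'
      have hb'd : b' = ρ⁻¹ * E (-d) := by
        rw [E_neg, ← mul_inv, ← hbd]; exact eq_inv_of_mul_eq_one_right hbb'
      have t1 : P (fun i i' => bm j j' p q a b a' b' i i' * x i i') = P y := by
        rw [← hprba e d y]
        congr 1
        funext i i'
        rw [actG, E_ba, hae, hbd, ha'e, hb'd, bm_mul]
        simp only [y]
        ring
      have t2 : P (fun i i' => bm j j' p q (κ * a') (ρ * b') (κ⁻¹ * a) (ρ⁻¹ * b) i i' * x i i') =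
          P x := by
        have := hprba (-e) (-d) x
        rw [neg_neg, neg_neg] at this
        rw [← this]
        congr 1
        funext i i'
        rw [actG, E_ba, hae, hbd, ha'e, hb'd, mul_inv_cancel_left₀ hκne,
          mul_inv_cancel_left₀ hρne, inv_mul_cancel_left₀ hκne, inv_mul_cancel_left₀ hρne]
      rw [t1, t2, add_comm]
  have hz0 : ∀ (w : Fin n → Fin 4 → ℂ), (w j q = 0 ∨ w j' q = 0) → P w = 0 := by
    intro w hw
    rcases hw with h | h
    · exact hP.boundary h hq
    · exact hP.boundary h (hχ ▸ hq)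
  have key := hP.ml (L := Bool) (fun l i i' => M l i i' * algebraMap ℂ K (x i i')) ?_ hV1 hV0
    (fun l i i' => (if l then bm j j' p q a1 b1 a1' b1'
        else bm j j' p q (κ * a1') (ρ * b1') (κ⁻¹ * a1) (ρ⁻¹ * b1)) i i' * x i i')
    (fun l i i' => (if l then bm j j' p q a0 b0 a0' b0'
        else bm j j' p q (κ * a0') (ρ * b0') (κ⁻¹ * a0) (ρ⁻¹ * b0)) i i' * x i i')
    ?_ ?_ (hlimM V1 hV1 _ _ _ _ hA1 hB1 hA1' hB1') (hlimM V0 hV0 _ _ _ _ hA0 hB0 hA0' hB0') ?_
  · rw [Fintype.sum_bool, Fintype.sum_bool] at key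
    simp only [if_true, Bool.false_eq_true, if_false] at key
    rw [← hsum, key]
    rw [hz0, hz0, add_zero]
    · rcases hz with h | h
      · right
        simp [bm, Ne.symm hj, Ne.symm hpq, h]
      · left
        simp [bm, Ne.symm hpq, h]
    · rcases hz with h | h
      · left
        simp [bm, Ne.symm hpq, h]
      · right
        simp [bm, Ne.symm hj, Ne.symm hpq, h]
  · -- the cone
    have hcone : ∀ (u z u' z' γ γ' : K), u ^ m * algebraMap ℂ K y1 = γ →
        z ^ m * algebraMap ℂ K (1 + y1) = 1 + γ → u' ^ m * algebraMap ℂ K y2 = γ' →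
        z' ^ m * algebraMap ℂ K (1 + y2) = 1 + γ' → ∀ l,
        ∑ i, (bm j j' p q u z u' z' l i * algebraMap ℂ K (x l i)) ^ m = 0 := by
      intro u z u' z' γ γ' hu hz hu' hz' l
      have hq1 : algebraMap ℂ K (x j q ^ m) = algebraMap ℂ K y1 * algebraMap ℂ K (x j p ^ m) := by
        rw [← map_mul, hy1, div_mul_cancel₀ _ hjpm]
      have hq2 : algebraMap ℂ K (x j' q ^ m) =
          algebraMap ℂ K y2 * algebraMap ℂ K (x j' p ^ m) := by
        rw [← map_mul, hy2, div_mul_cancel₀ _ hjpm']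
      have hs1 : algebraMap ℂ K (x j p ^ m + x j q ^ m) =
          algebraMap ℂ K (1 + y1) * algebraMap ℂ K (x j p ^ m) := by
        rw [← map_mul, e1y, div_mul_cancel₀ _ hjpm]
      have hs2 : algebraMap ℂ K (x j' p ^ m + x j' q ^ m) =
          algebraMap ℂ K (1 + y2) * algebraMap ℂ K (x j' p ^ m) := by
        rw [← map_mul, e2y, div_mul_cancel₀ _ hjpm']
      by_cases h1 : l = j
      · subst h1
        simp only [bm, if_true, mul_pow, ← map_pow]
        apply cone_bm (hx l).2 hpq hjp hU (γ := γ)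
        · rw [hq1, ← mul_assoc, hu]
        · rw [hs1, ← mul_assoc, hz]
      · by_cases h2 : l = j'
        · subst h2
          simp only [bm, if_neg h1, if_true, mul_pow, ← map_pow]
          apply cone_bm (hx l).2 hpq hjp' hU' (γ := γ')
          · rw [hq2, ← mul_assoc, hu']
          · rw [hs2, ← mul_assoc, hz']
        · simp only [bm, if_neg h1, if_neg h2, one_mul, ← map_pow]
          rw [← map_sum, (hx l).2, map_zero]
    intro l i
    cases l
    · simp only [M, Bool.false_eq_true, if_false]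
      refine hcone (k₁ * η') (r₁ * ζ') (k₁⁻¹ * η) (r₁⁻¹ * ζ) β' β ?_ ?_ ?_ ?_ i
      · rw [mul_pow, hη'm]
        have := halg hy2ne
        have e : k₁ ^ m * (β' / algebraMap ℂ K y2) * algebraMap ℂ K y1 =
          (k₁ ^ m * algebraMap ℂ K y1) * β' / algebraMap ℂ K y2 := by ring
        rw [e, hk₁m]
        field_simp
      · rw [mul_pow, hζ'm]
        have := halg h2y
        have e : r₁ ^ m * ((1 + β') / algebraMap ℂ K (1 + y2)) * algebraMap ℂ K (1 + y1) =
          (r₁ ^ m * algebraMap ℂ K (1 + y1)) * (1 + β') / algebraMap ℂ K (1 + y2) := by ring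
        rw [e, hr₁m]
        field_simp
      · rw [mul_pow, hη, inv_pow, ← hk₁m]
        have := halg hy1ne
        field_simp
      · rw [mul_pow, hζ, inv_pow, ← hr₁m]
        have := halg h1y
        field_simp
    · simp only [M, if_true]
      refine hcone η ζ η' ζ' β β' ?_ ?_ ?_ ?_ i
      · rw [hη, div_mul_cancel₀ _ (halg hy1ne)]
      · rw [hζ, div_mul_cancel₀ _ (halg h1y)]
      · rw [hη'm, div_mul_cancel₀ _ (halg hy2ne)]
      · rw [hζ'm, div_mul_cancel₀ _ (halg h2y)]
  · intro l i h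
    by_cases h1 : i = j
    · subst h1
      have := congrFun h p
      cases l <;> simp [bm] at this <;> exact hjp this
    · by_cases h2 : i = j'
      · subst h2
        have := congrFun h p
        cases l <;> simp [bm, h1] at this <;> exact hjp' this
      · obtain ⟨i', hi'⟩ := Function.ne_iff.1 (hx i).1
        have := congrFun h i'
        cases l <;> simp [bm, h1, h2] at this <;> exact hi' this
  · intro l i h
    by_cases h1 : i = j
    · subst h1
      have := congrFun h p
      cases l <;> simp [bm] at this <;> exact hjp this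
    · by_cases h2 : i = j'
      · subst h2
        have := congrFun h p
        cases l <;> simp [bm, h1] at this <;> exact hjp' this
      · obtain ⟨i', hi'⟩ := Function.ne_iff.1 (hx i).1
        have := congrFun h i'
        cases l <;> simp [bm, h1, h2] at this <;> exact hi' this
  · intro σ
    have hσk : σ k₁ = k₁ := by rw [hk₁, aut_const]
    have hσr : σ r₁ = r₁ := by rw [hr₁, aut_const]
    have hσe₁ : σ e₁ = e₁ := by rw [he₁]; simp only [map_sub, map_mul, map_pow, aut_tt, aut_const]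
    have hσe₂ : σ e₂ = e₂ := by rw [he₂]; simp only [map_mul, map_pow, aut_tt, aut_const]
    have hroots : (σ β - β) * (σ β - β') = 0 := by
      have h1 : σ β ^ 2 - e₁ * σ β + e₂ = 0 := by
        have := congrArg σ hβ
        simpa only [map_add, map_sub, map_mul, map_pow, hσe₁, hσe₂, map_zero] using this
      rw [hβ']
      linear_combination h1 - hβ
    have hEinv : ∀ e : ZMod m, algebraMap ℂ K (E (-e)) = (algebraMap ℂ K (E e))⁻¹ := by
      intro e; rw [E_neg, map_inv₀]
    have hEne : ∀ e : ZMod m, algebraMap ℂ K (E e) ≠ 0 := fun e => halg (E_ne_zero e)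
    have hση' : ∀ w : K, σ η = w → w ≠ 0 → σ η' = tt / w := by
      intro w hw _
      rw [hη', map_div₀, aut_tt, hw]
    have hmapM : ∀ (u z u' z' : K) (i : Fin n) (i' : Fin 4), σ (bm j j' p q u z u' z' i i') =
        bm j j' p q (σ u) (σ z) (σ u') (σ z') i i' := by
      intro u z u' z' i i'
      exact map_bm (σ : K →+* K) u z u' z' i i'
    have hEM : ∀ (e d e' d' : ZMod m) (i : Fin n) (i' : Fin 4),
        algebraMap ℂ K (E (ba j j' p q e d e' d' i i')) =
        bm j j' p q (algebraMap ℂ K (E e)) (algebraMap ℂ K (E d)) (algebraMap ℂ K (E e'))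
          (algebraMap ℂ K (E d')) i i' := by
      intro e d e' d' i i'
      rw [E_ba]
      exact map_bm (algebraMap ℂ K) _ _ _ _ i i'
    rcases mul_eq_zero.1 hroots with h | h
    · -- the branch is fixed
      have hσβ : σ β = β := sub_eq_zero.1 h
      obtain ⟨e, he⟩ := exists_E_K (m := m) (a := σ η) (b := η)
        (by rw [← map_pow, hη, map_div₀, hσβ, aut_const])
      obtain ⟨d, hd⟩ := exists_E_K (m := m) (a := σ ζ) (b := ζ)
        (by rw [← map_pow, hζ, map_div₀, map_add, map_one, hσβ, aut_const])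
      have he' : σ η' = algebraMap ℂ K (E (-e)) * η' := by
        rw [hEinv, hη', map_div₀, aut_tt, he]
        have := hEne e
        field_simp
      have hd' : σ ζ' = algebraMap ℂ K (E (-d)) * ζ' := by
        rw [hEinv, hζ', map_inv₀, hd, mul_inv]
      refine ⟨1, fun l => ?_⟩
      cases l
      · refine ⟨ba j j' p q (-e) (-d) e d, ?_, fun i i' => ?_⟩
        · have := pr_ba (p := p) (q := q) hj hχ (-e) (-d)
          rwa [neg_neg, neg_neg] at this
        · simp only [M, Bool.false_eq_true, if_false, Equiv.Perm.one_apply]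
          rw [map_mul, aut_const, hmapM, hEM, ← mul_assoc, ← bm_mul]
          simp only [map_mul, map_inv₀, hσk, hσr, he, hd, he', hd']
          congr 2 <;> ring
      · refine ⟨ba j j' p q e d (-e) (-d), pr_ba hj hχ e d, fun i i' => ?_⟩
        simp only [M, if_true, Equiv.Perm.one_apply]
        rw [map_mul, aut_const, hmapM, hEM, ← mul_assoc, ← bm_mul, he, hd, he', hd']
    · -- the branches are exchanged
      have hσβ : σ β = β' := sub_eq_zero.1 h
      obtain ⟨e, he⟩ := exists_E_K (m := m) (a := σ η) (b := k₁ * η') (by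
        rw [← map_pow, hη, map_div₀, hσβ, aut_const, mul_pow, hη'm, ← hk₁m]
        have := halg hy1ne
        field_simp)
      obtain ⟨d, hd⟩ := exists_E_K (m := m) (a := σ ζ) (b := r₁ * ζ') (by
        rw [← map_pow, hζ, map_div₀, map_add, map_one, hσβ, aut_const, mul_pow, hζ'm, ← hr₁m]
        have := halg h1y
        field_simp)
      have he' : σ η' = algebraMap ℂ K (E (-e)) * (k₁⁻¹ * η) := by
        rw [hEinv, hη', map_div₀, aut_tt, he, hη']
        have := hEne e
        field_simp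
      have hd' : σ ζ' = algebraMap ℂ K (E (-d)) * (r₁⁻¹ * ζ) := by
        rw [hEinv, hζ', map_inv₀, hd, hζ', mul_inv, mul_inv, inv_inv]
      refine ⟨Equiv.boolNot, fun l => ?_⟩
      cases l
      · refine ⟨ba j j' p q (-e) (-d) e d, ?_, fun i i' => ?_⟩
        · have := pr_ba (p := p) (q := q) hj hχ (-e) (-d)
          rwa [neg_neg, neg_neg] at this
        · have e1 : M (Equiv.boolNot false) = M true := rfl
          rw [e1]
          simp only [M, Bool.false_eq_true, if_false, if_true]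
          rw [map_mul, aut_const, hmapM, hEM, ← mul_assoc, ← bm_mul]
          simp only [map_mul, map_inv₀, hσk, hσr, he, hd, he', hd']
          congr 2 <;> field_simp
      · refine ⟨ba j j' p q e d (-e) (-d), pr_ba hj hχ e d, fun i i' => ?_⟩
        have e1 : M (Equiv.boolNot true) = M false := rfl
        rw [e1]
        simp only [M, Bool.false_eq_true, if_false, if_true]
        rw [map_mul, aut_const, hmapM, hEM, ← mul_assoc, ← bm_mul, he, hd, he', hd']

end Pool.Agent.K4H27.VF
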