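import Pool.Agent.K4H27.VF.Comb4

noncomputable section

namespace Pool.Agent.K4H27.VF

open scoped Classical

set_option linter.unusedSectionVars false

variable {m n : ℕ} [NeZero m]

/-- The differences of consecutive coordinates. -/
def diff (k : Fin 4 → ZMod m) (i : Fin 3) : ZMod m := k i.castSucc - k i.succ

/-- The set of the vectors of differences of the elements of `H` is stable under permutations. -/
def IsSymmetric (H : AddSubgroup (Fin 4 → ZMod m)) : Prop :=
  ∀ k ∈ H, ∀ τ : Equiv.Perm (Fin 3), ∃ k' ∈ H, ∀ i, diff k' i = diff k (τ i)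

/-- The exponents of a path. -/
def path (u : Fin 3 → ZMod m) : Fin 4 → ZMod m := ![u 0, u 1 - u 0, u 2 - u 1, -u 2]

theorem path_pair (u : Fin 3 → ZMod m) (k : Fin 4 → ZMod m) :
    ∑ i, path u i * k i = ∑ i, u i * diff k i := by
  rw [Fin.sum_univ_four, Fin.sum_univ_three]
  simp [path, diff]
  ring

theorem path_perm {H : AddSubgroup (Fin 4 → ZMod m)} (hH : IsSymmetric H) (u : Fin 3 → ZMod m)
    (h : ∀ k ∈ H, ∑ i, path u i * k i = 0) (τ : Equiv.Perm (Fin 3)) :
    ∀ k ∈ H, ∑ i, path (fun i => u (τ i)) i * k i = 0 := by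
  intro k hk
  obtain ⟨k', hk', hd⟩ := hH k hk τ.symm
  rw [path_pair, ← h k' hk', path_pair, ← Equiv.sum_comp τ (fun i => u i * diff k' i)]
  apply Finset.sum_congr rfl
  intro i _
  rw [hd, Equiv.symm_apply_apply]

theorem path_of (a : Fin 4 → ZMod m) (h : ∑ i, a i = 0) :
    a = path ![a 0, a 0 + a 1, -a 3] := by
  rw [Fin.sum_univ_four] at h
  funext i
  fin_cases i
  · simp [path]
  · simp [path]
  · simp [path]
    linear_combination h
  · simp [path]

theorem val_w' {w : Fin 4 → ℕ} (h1 : ∀ i, 1 ≤ w i) (hs : ∑ i, w i = m) (i : Fin 4) :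
    ((w i : ℕ) : ZMod m).val = w i := by
  apply ZMod.val_natCast_of_lt
  rw [Fin.sum_univ_four] at hs
  have a0 := h1 0
  have a1 := h1 1
  have a2 := h1 2
  have a3 := h1 3
  fin_cases i <;> simp <;> omega

theorem comb_sym {H : AddSubgroup (Fin 4 → ZMod m)} (hH : IsSymmetric H)
    (hn : (forms H).card < n) (χ : Fin n → Fin 4 → ZMod m) (hsum : ∀ j, ∑ i, χ j i = 0)
    (hne : ∀ j i, χ j i ≠ 0) (hperp : ∀ j, ∀ k ∈ H, ∑ i, χ j i * k i = 0)
    (hinj : Function.Injective χ) : HasCycle χ := by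
  by_contra hno
  have hopp : ∀ j i i', i ≠ i' → χ j i + χ j i' ≠ 0 := fun j i i' hi h => hno (mk_one j hi h)
  have hsumE : ∀ j, χ j 0 + χ j 1 + χ j 2 + χ j 3 = 0 := by
    intro j
    have := hsum j
    rwa [Fin.sum_univ_four] at this
  have hq : ∀ j, ∃ q : ℕ × ℕ × ℕ, q.1 < q.2.1 ∧ q.2.1 < q.2.2 ∧
      (q = ((χ j 0).val, (χ j 0 + χ j 1).val, (-χ j 3).val) ∨
      q = ((χ j 0).val, (-χ j 3).val, (χ j 0 + χ j 1).val) ∨
      q = ((χ j 0 + χ j 1).val, (χ j 0).val, (-χ j 3).val) ∨
      q = ((χ j 0 + χ j 1).val, (-χ j 3).val, (χ j 0).val) ∨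
      q = ((-χ j 3).val, (χ j 0).val, (χ j 0 + χ j 1).val) ∨
      q = ((-χ j 3).val, (χ j 0 + χ j 1).val, (χ j 0).val)) := by
    intro j
    apply sort3
    · intro h
      apply hne j 1
      have := ZMod.val_injective _ h
      linear_combination -this
    · intro h
      apply hne j 2
      have := ZMod.val_injective _ h
      linear_combination hsumE j - this
    · intro h
      apply hopp j 0 3 (by decide)
      have := ZMod.val_injective _ h
      linear_combination this
  choose q hq1 hq2 hq3 using hq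
  have qinj : Function.Injective q := by
    intro j j' hjj
    by_contra hne'
    have hp := perm3 (hq3 j) (by rw [hjj]; exact hq3 j')
    have hv : ∀ {x y : ZMod m}, x.val = y.val → x = y := fun h => ZMod.val_injective _ h
    rcases hp with ⟨h1, h2, h3⟩ | hp
    · apply hne'
      apply hinj
      have e1 := hv h1
      have e2 := hv h2
      have e3 := hv h3
      funext i
      fin_cases i
      · exact e1.symm
      · show χ j 1 = χ j' 1
        linear_combination e1 - e2
      · show χ j 2 = χ j' 2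
        linear_combination e2 - e3 + hsumE j - hsumE j'
      · show χ j 3 = χ j' 3
        linear_combination e3
    · apply hno
      apply three_set hne' hsum 1 rfl rfl rfl rfl rfl rfl
      rcases hp with ⟨h1, h2, h3⟩ | ⟨h1, h2, h3⟩ | ⟨h1, h2, h3⟩ | ⟨h1, h2, h3⟩ | ⟨h1, h2, h3⟩
      · exact Or.inl ⟨hv h1, hv h2, hv h3⟩
      · exact Or.inr (Or.inl ⟨hv h1, hv h2, hv h3⟩)
      · exact Or.inr (Or.inr (Or.inl ⟨hv h1, hv h2, hv h3⟩))
      · exact Or.inr (Or.inr (Or.inr (Or.inl ⟨hv h1, hv h2, hv h3⟩)))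
      · exact Or.inr (Or.inr (Or.inr (Or.inr ⟨hv h1, hv h2, hv h3⟩)))
  -- the sorted path of `χ j`
  have hperm : ∀ j, ∃ τ : Equiv.Perm (Fin 3), ∀ i, (![(q j).1, (q j).2.1, (q j).2.2] : Fin 3 → ℕ) i =
      ((![χ j 0, χ j 0 + χ j 1, -χ j 3] : Fin 3 → ZMod m) (τ i)).val := by
    intro j
    rcases hq3 j with h | h | h | h | h | h
    · refine ⟨1, fun i => ?_⟩
      rw [h]; fin_cases i <;> rfl
    · refine ⟨Equiv.swap 1 2, fun i => ?_⟩
      rw [h]; fin_cases i <;> rfl
    · refine ⟨Equiv.swap 0 1, fun i => ?_⟩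
      rw [h]; fin_cases i <;> rfl
    · refine ⟨Equiv.swap 0 1 * Equiv.swap 1 2, fun i => ?_⟩
      rw [h]; fin_cases i <;> rfl
    · refine ⟨Equiv.swap 1 2 * Equiv.swap 0 1, fun i => ?_⟩
      rw [h]; fin_cases i <;> rfl
    · refine ⟨Equiv.swap 0 2, fun i => ?_⟩
      rw [h]; fin_cases i <;> rfl
  let w : Fin n → Fin 4 → ℕ := fun j =>
    ![(q j).1, (q j).2.1 - (q j).1, (q j).2.2 - (q j).2.1, m - (q j).2.2]
  have hbound : ∀ j, 1 ≤ (q j).1 ∧ (q j).2.2 < m := by
    intro j
    have b1 := ZMod.val_lt (χ j 0)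
    have b2 := ZMod.val_lt (χ j 0 + χ j 1)
    have b3 := ZMod.val_lt (-χ j 3)
    have c1 : 0 < (χ j 0).val := Nat.pos_of_ne_zero fun h => hne j 0 ((ZMod.val_eq_zero _).1 h)
    have c2 : 0 < (χ j 0 + χ j 1).val :=
      Nat.pos_of_ne_zero fun h => hopp j 0 1 (by decide) ((ZMod.val_eq_zero _).1 h)
    have c3 : 0 < (-χ j 3).val :=
      Nat.pos_of_ne_zero fun h => neg_ne_zero.2 (hne j 3) ((ZMod.val_eq_zero _).1 h)
    rcases hq3 j with h | h | h | h | h | h <;> rw [h] <;> exact ⟨by assumption, by assumption⟩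
  have hw1 : ∀ j i, 1 ≤ w j i := by
    intro j i
    have h1 := hbound j
    have h2 := hq1 j
    have h3 := hq2 j
    simp only [w]
    fin_cases i <;> simp <;> omega
  have hws : ∀ j, ∑ i, w j i = m := by
    intro j
    have h1 := hbound j
    have h2 := hq1 j
    have h3 := hq2 j
    simp only [w, Fin.sum_univ_four]
    simp
    omega
  have hwpath : ∀ j, ∃ τ : Equiv.Perm (Fin 3), (fun i => ((w j i : ℕ) : ZMod m)) =
      path (fun i => (![χ j 0, χ j 0 + χ j 1, -χ j 3] : Fin 3 → ZMod m) (τ i)) := by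
    intro j
    obtain ⟨τ, hτ⟩ := hperm j
    refine ⟨τ, ?_⟩
    have h1 := hbound j
    have h2 := hq1 j
    have h3 := hq2 j
    have t0 := hτ 0
    have t1 := hτ 1
    have t2 := hτ 2
    simp only [Matrix.cons_val_zero, Matrix.cons_val_one, Matrix.cons_val] at t0 t1 t2
    have u0 : ((q j).1 : ZMod m) = (![χ j 0, χ j 0 + χ j 1, -χ j 3] : Fin 3 → ZMod m) (τ 0) := by
      rw [t0, ZMod.natCast_zmod_val]
    have u1 : ((q j).2.1 : ZMod m) = (![χ j 0, χ j 0 + χ j 1, -χ j 3] : Fin 3 → ZMod m) (τ 1) := by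
      rw [t1, ZMod.natCast_zmod_val]
    have u2 : ((q j).2.2 : ZMod m) = (![χ j 0, χ j 0 + χ j 1, -χ j 3] : Fin 3 → ZMod m) (τ 2) := by
      rw [t2, ZMod.natCast_zmod_val]
    funext i
    simp only [w, path]
    rw [← u0, ← u1, ← u2]
    fin_cases i
    · rfl
    · show (((q j).2.1 - (q j).1 : ℕ) : ZMod m) = _
      rw [Nat.cast_sub h2.le]; rfl
    · show (((q j).2.2 - (q j).2.1 : ℕ) : ZMod m) = _
      rw [Nat.cast_sub h3.le]; rfl
    · show ((m - (q j).2.2 : ℕ) : ZMod m) = _
      rw [Nat.cast_sub h1.2.le, ZMod.natCast_self, zero_sub]; rfl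
  have hcard : n ≤ (forms H).card := by
    have : (Finset.univ : Finset (Fin n)).card ≤ (forms H).card := by
      apply Finset.card_le_card_of_injOn (fun j i => ((w j i : ℕ) : ZMod m))
      · intro j _
        rw [Finset.mem_coe, forms, Finset.mem_filter]
        refine ⟨Finset.mem_univ _, fun i h0 => ?_, ?_, ?_⟩
        · have := val_w' (hw1 j) (hws j) i
          simp only at h0
          rw [h0, ZMod.val_zero] at this
          have := hw1 j i
          omega
        · simp only [val_w' (hw1 j) (hws j)]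
          exact hws j
        · obtain ⟨τ, hτ⟩ := hwpath j
          intro k hk
          have h1 : ∀ k ∈ H, ∑ i, path ![χ j 0, χ j 0 + χ j 1, -χ j 3] i * k i = 0 := by
            rw [← path_of (χ j) (hsum j)]
            exact hperp j
          have h2 := path_perm hH _ h1 τ k hk
          rw [← hτ] at h2
          exact h2
      · intro j _ j' _ heq
        apply qinj
        have hw : w j = w j' := by
          funext i
          rw [← val_w' (hw1 j) (hws j) i, ← val_w' (hw1 j') (hws j') i]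
          exact congrArg ZMod.val (congrFun heq i)
        have g0 := congrFun hw 0
        have g1 := congrFun hw 1
        have g3 := congrFun hw 3
        simp [w] at g0 g1 g3
        have h1 := hbound j
        have h2 := hq1 j
        have h3 := hq2 j
        have h1' := hbound j'
        have h2' := hq1 j'
        have h3' := hq2 j'
        ext
        · omega
        · omega
        · omega
    rwa [Finset.card_univ, Fintype.card_fin] at this
  omega

end Pool.Agent.K4H27.VF
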