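import Pool.Agent.K4H27.VF.Places

noncomputable section

namespace Pool.Agent.K4H27.VF

open scoped Classical

set_option linter.unusedSectionVars false

variable {m n : ℕ} [NeZero m]

/-- Functions on the points of `X^n` that vanish on all the zero-cycles rationally equivalent
to zero. -/
def Inv (m n : ℕ) (Φ : (Fin n → S m) → ℂ) : Prop :=
  ∀ (d : ℕ) (ξ : Fin d → Fin n → Fin 4 → K) (V V' : ValuationSubring K)
    (x x' : Fin d → Fin n → S m), IsFamily m ξ → IsPlace V → IsPlace V' →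
    (∀ l j, Limit V (ξ l j) (x l j).1) → (∀ l j, Limit V' (ξ l j) (x' l j).1) →
    ∑ l, Φ (x l) = ∑ l, Φ (x' l)

/-- Homogeneous coordinates of points of `X^n`. -/
def Good (m : ℕ) {n : ℕ} (x : Fin n → Fin 4 → ℂ) : Prop := ∀ j, x j ≠ 0 ∧ ∑ i, x j i ^ m = 0

/-- The point of `X^n` with the homogeneous coordinates `x`. -/
def toS (x : Fin n → Fin 4 → ℂ) (h : Good m x) : Fin n → S m :=
  fun j => mkS (x j) (h j).1 (h j).2

/-- A function on `X^n` as a function of homogeneous coordinates. -/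
def ext (Φ : (Fin n → S m) → ℂ) (x : Fin n → Fin 4 → ℂ) : ℂ :=
  if h : Good m x then Φ (toS x h) else 0

theorem ext_of_good (Φ : (Fin n → S m) → ℂ) {x : Fin n → Fin 4 → ℂ} (h : Good m x) :
    ext Φ x = Φ (toS x h) := dif_pos h

theorem Inv.vec {Φ : (Fin n → S m) → ℂ} (hΦ : Inv m n Φ) {L : Type} [Fintype L]
    (ξ : L → Fin n → Fin 4 → K) (hc : ∀ l j, ∑ i, ξ l j i ^ m = 0) {V V' : ValuationSubring K}
    (hV : IsPlace V) (hV' : IsPlace V') (x x' : L → Fin n → Fin 4 → ℂ)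
    (hx : ∀ l j, x l j ≠ 0) (hx' : ∀ l j, x' l j ≠ 0)
    (hl : ∀ l j i, Lim V (ξ l j i) (x l j i)) (hl' : ∀ l j i, Lim V' (ξ l j i) (x' l j i))
    (hg : ∀ σ : K ≃ₐ[F] K, ∃ π : Equiv.Perm L, ∀ l j, ∃ c : K, ∀ i,
      σ (ξ l j i) = c * ξ (π l) j i) :
    ∑ l, ext Φ (x l) = ∑ l, ext Φ (x' l) := by
  have gx : ∀ l, Good m (x l) := fun l j => ⟨hx l j, cone_of_lim hV m (hl l j) (hc l j)⟩
  have gx' : ∀ l, Good m (x' l) := fun l j => ⟨hx' l j, cone_of_lim hV' m (hl' l j) (hc l j)⟩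
  let e := Fintype.equivFin L
  have key := hΦ (Fintype.card L) (fun l => ξ (e.symm l)) V V'
    (fun l => toS (x (e.symm l)) (gx _)) (fun l => toS (x' (e.symm l)) (gx' _))
    ⟨?_, ?_⟩ hV hV' ?_ ?_
  · rw [← e.symm.sum_comp, ← e.symm.sum_comp (fun l => ext Φ (x' l))]
    simpa only [ext_of_good Φ (gx _), ext_of_good Φ (gx' _)] using key
  · intro l j
    refine ⟨?_, hc _ _⟩
    intro h0
    obtain ⟨i, hi⟩ := Function.ne_iff.1 (hx (e.symm l) j)
    exact (hl (e.symm l) j i).ne_zero hV hi (congrFun h0 i)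
  · intro σ
    obtain ⟨π, hπ⟩ := hg σ
    refine ⟨(e.symm.trans π).trans e, fun l j => ?_⟩
    obtain ⟨c, hc'⟩ := hπ (e.symm l) j
    refine ⟨c, fun i => ?_⟩
    simp only [Equiv.trans_apply, Equiv.symm_apply_apply]
    exact hc' i
  · intro l j
    exact ⟨1, x (e.symm l) j, hx _ _, rfl, fun i => by rw [one_mul]; exact hl _ _ _⟩
  · intro l j
    exact ⟨1, x' (e.symm l) j, hx' _ _, rfl, fun i => by rw [one_mul]; exact hl' _ _ _⟩

/-- The pairing of characters and group elements. -/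
def pr (χ k : Fin n → Fin 4 → ZMod m) : ZMod m := ∑ j, ∑ i, χ j i * k j i

theorem pr_add (χ k k' : Fin n → Fin 4 → ZMod m) : pr χ (k + k') = pr χ k + pr χ k' := by
  simp only [pr, Pi.add_apply, mul_add, Finset.sum_add_distrib]

theorem pr_neg (χ k : Fin n → Fin 4 → ZMod m) : pr χ (-k) = -pr χ k := by
  simp only [pr, Pi.neg_apply, mul_neg, Finset.sum_neg_distrib]

theorem pr_sub (χ k k' : Fin n → Fin 4 → ZMod m) : pr χ (k - k') = pr χ k - pr χ k' := by
  rw [sub_eq_add_neg, pr_add, pr_neg, sub_eq_add_neg]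

/-- The standard additive character of `ℤ/m`. -/
abbrev E (x : ZMod m) : ℂ := ZMod.stdAddChar x

theorem E_add (x y : ZMod m) : E (x + y) = E x * E y := AddChar.map_add_eq_mul _ _ _
theorem E_zero : E (0 : ZMod m) = 1 := AddChar.map_zero_eq_one _
theorem E_ne_zero (x : ZMod m) : E x ≠ 0 := stdAddChar_ne_zero x
theorem E_pow (x : ZMod m) : E x ^ m = 1 := stdAddChar_pow x
theorem E_neg (x : ZMod m) : E (-x) = (E x)⁻¹ := by
  apply eq_inv_of_mul_eq_one_left
  rw [← E_add, neg_add_cancel, E_zero]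

theorem E_inj : Function.Injective (E : ZMod m → ℂ) := by
  intro x y h
  have : Function.Injective (ZMod.toCircle (N := m)) := ZMod.injective_toCircle
  apply this
  exact Circle.coe_injective h

theorem E_eq_one_iff (x : ZMod m) : E x = 1 ↔ x = 0 := by
  rw [← E_zero (m := m)]; exact E_inj.eq_iff

/-- Every `m`-th root of unity is a value of the standard character. -/
theorem exists_E (w : ℂ) (h : w ^ m = 1) : ∃ x : ZMod m, w = E x := by
  have hp : IsPrimitiveRoot (E (1 : ZMod m)) m := by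
    have h1 : E (1 : ZMod m) = Complex.exp (2 * Real.pi * Complex.I / m) := by
      have := ZMod.stdAddChar_coe (N := m) 1
      simpa [E] using this
    rw [h1]
    exact Complex.isPrimitiveRoot_exp m (NeZero.ne m)
  obtain ⟨i, _, hi⟩ := hp.eq_pow_of_pow_eq_one h
  refine ⟨(i : ZMod m), ?_⟩
  rw [← hi, E, E, ← AddChar.map_nsmul_eq_pow]
  simp

/-- In the field `K`: two elements with the same `m`-th power differ by a root of unity. -/
theorem exists_E_K {a b : K} (h : a ^ m = b ^ m) : ∃ x : ZMod m, a = algebraMap ℂ K (E x) * b := by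
  by_cases hb : b = 0
  · refine ⟨0, ?_⟩
    rw [hb, zero_pow (NeZero.ne m)] at h
    rw [hb, mul_zero]
    exact pow_eq_zero_iff (NeZero.ne m) |>.1 h
  · have h1 : (a / b) ^ m = 1 := by rw [div_pow, h, div_self (pow_ne_zero _ hb)]
    have hp : IsPrimitiveRoot (algebraMap ℂ K (E (1 : ZMod m))) m := by
      apply IsPrimitiveRoot.map_of_injective _ (algebraMap ℂ K).injective
      have h1 : E (1 : ZMod m) = Complex.exp (2 * Real.pi * Complex.I / m) := by
        have := ZMod.stdAddChar_coe (N := m) 1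
        simpa [E] using this
      rw [h1]
      exact Complex.isPrimitiveRoot_exp m (NeZero.ne m)
    obtain ⟨i, _, hi⟩ := hp.eq_pow_of_pow_eq_one h1
    refine ⟨(i : ZMod m), ?_⟩
    have h2 : E ((i : ZMod m)) = E (1 : ZMod m) ^ i := by
      rw [E, E, ← AddChar.map_nsmul_eq_pow]; simp
    rw [h2, map_pow, hi, div_mul_cancel₀ _ hb]

/-- The action of the group on `n` vectors. -/
def actG (k : Fin n → Fin 4 → ZMod m) (x : Fin n → Fin 4 → ℂ) : Fin n → Fin 4 → ℂ :=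
  fun j i => E (k j i) * x j i

theorem actG_add (k k' : Fin n → Fin 4 → ZMod m) (x : Fin n → Fin 4 → ℂ) :
    actG (k + k') x = actG k (actG k' x) := by
  funext j i
  simp only [actG, Pi.add_apply, E_add, mul_assoc]

theorem actG_ne_zero (k : Fin n → Fin 4 → ZMod m) {x : Fin n → Fin 4 → ℂ} {j : Fin n}
    (h : x j ≠ 0) : actG k x j ≠ 0 := actV_ne_zero (k j) h

/-- The component of a function for the character `χ` (times the order of the group). -/
def comp (Φ : (Fin n → S m) → ℂ) (χ : Fin n → Fin 4 → ZMod m) (x : Fin n → Fin 4 → ℂ) : ℂ :=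
  ∑ k : Fin n → Fin 4 → ZMod m, E (-pr χ k) * ext Φ (actG k x)

/-- Functions of homogeneous coordinates with the character `χ`, compatible with specialisation. -/
structure Tw (χ : Fin n → Fin 4 → ZMod m) (P : (Fin n → Fin 4 → ℂ) → ℂ) : Prop where
  equiv : ∀ k x, P (actG k x) = E (pr χ k) * P x
  scale : ∀ (c : Fin n → ℂ), (∀ j, c j ≠ 0) → ∀ x, P (fun j i => c j * x j i) = P x
  ml : ∀ {L : Type} [Fintype L] (ξ : L → Fin n → Fin 4 → K), (∀ l j, ∑ i, ξ l j i ^ m = 0) →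
    ∀ {V V' : ValuationSubring K}, IsPlace V → IsPlace V' →
    ∀ (x x' : L → Fin n → Fin 4 → ℂ), (∀ l j, x l j ≠ 0) → (∀ l j, x' l j ≠ 0) →
    (∀ l j i, Lim V (ξ l j i) (x l j i)) → (∀ l j i, Lim V' (ξ l j i) (x' l j i)) →
    (∀ σ : K ≃ₐ[F] K, ∃ π : Equiv.Perm L, ∀ l, ∃ k : Fin n → Fin 4 → ZMod m, pr χ k = 0 ∧
      ∀ j i, σ (ξ l j i) = algebraMap ℂ K (E (k j i)) * ξ (π l) j i) →
    ∑ l, P (x l) = ∑ l, P (x' l)

theorem comp_equiv (Φ : (Fin n → S m) → ℂ) (χ k : Fin n → Fin 4 → ZMod m)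
    (x : Fin n → Fin 4 → ℂ) : comp Φ χ (actG k x) = E (pr χ k) * comp Φ χ x := by
  rw [comp, comp, Finset.mul_sum, ← Equiv.sum_comp (Equiv.addRight k)
    (fun k' => E (pr χ k) * (E (-pr χ k') * ext Φ (actG k' x)))]
  apply Finset.sum_congr rfl
  intro k' _
  rw [Equiv.coe_addRight, actG_add, ← mul_assoc, ← E_add, pr_add]
  congr 2
  ring

theorem good_smul {c : Fin n → ℂ} (hc : ∀ j, c j ≠ 0) {x : Fin n → Fin 4 → ℂ} (h : Good m x) :
    Good m (fun j i => c j * x j i) := by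
  intro j
  refine ⟨?_, ?_⟩
  · intro h0
    apply (h j).1
    funext i
    have := congrFun h0 i
    simp only [Pi.zero_apply, mul_eq_zero] at this
    exact this.resolve_left (hc j)
  · simp only [mul_pow]
    rw [← Finset.mul_sum, (h j).2, mul_zero]

theorem ext_smul (Φ : (Fin n → S m) → ℂ) {c : Fin n → ℂ} (hc : ∀ j, c j ≠ 0)
    (x : Fin n → Fin 4 → ℂ) : ext Φ (fun j i => c j * x j i) = ext Φ x := by
  by_cases h : Good m x
  · rw [ext_of_good Φ h, ext_of_good Φ (good_smul hc h)]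
    congr 1
    funext j
    apply Subtype.ext
    show Projectivization.mk ℂ _ _ = Projectivization.mk ℂ _ _
    rw [Projectivization.mk_eq_mk_iff']
    exact ⟨c j, rfl⟩
  · have h' : ¬ Good m (fun j i => c j * x j i) := by
      intro h1
      apply h
      have := good_smul (c := fun j => (c j)⁻¹) (fun j => inv_ne_zero (hc j)) h1
      simpa [inv_mul_cancel_left₀ (hc _)] using this
    rw [ext, ext, dif_neg h, dif_neg h']

theorem comp_scale (Φ : (Fin n → S m) → ℂ) (χ : Fin n → Fin 4 → ZMod m) (c : Fin n → ℂ)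
    (hc : ∀ j, c j ≠ 0) (x : Fin n → Fin 4 → ℂ) :
    comp Φ χ (fun j i => c j * x j i) = comp Φ χ x := by
  rw [comp, comp]
  apply Finset.sum_congr rfl
  intro k _
  congr 1
  rw [← ext_smul Φ hc (actG k x)]
  congr 1
  funext j i
  simp only [actG]
  ring

theorem comp_ml {Φ : (Fin n → S m) → ℂ} (hΦ : Inv m n Φ) (χ : Fin n → Fin 4 → ZMod m)
    {L : Type} [Fintype L] (ξ : L → Fin n → Fin 4 → K) (hc : ∀ l j, ∑ i, ξ l j i ^ m = 0)
    {V V' : ValuationSubring K} (hV : IsPlace V) (hV' : IsPlace V')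
    (x x' : L → Fin n → Fin 4 → ℂ) (hx : ∀ l j, x l j ≠ 0) (hx' : ∀ l j, x' l j ≠ 0)
    (hl : ∀ l j i, Lim V (ξ l j i) (x l j i)) (hl' : ∀ l j i, Lim V' (ξ l j i) (x' l j i))
    (hg : ∀ σ : K ≃ₐ[F] K, ∃ π : Equiv.Perm L, ∀ l, ∃ k : Fin n → Fin 4 → ZMod m, pr χ k = 0 ∧
      ∀ j i, σ (ξ l j i) = algebraMap ℂ K (E (k j i)) * ξ (π l) j i) :
    ∑ l, comp Φ χ (x l) = ∑ l, comp Φ χ (x' l) := by
  let N := {k : Fin n → Fin 4 → ZMod m // pr χ k = 0}
  have step : ∀ k₀ : Fin n → Fin 4 → ZMod m,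
      ∑ q : L × N, ext Φ (actG (k₀ + q.2.1) (x q.1)) =
      ∑ q : L × N, ext Φ (actG (k₀ + q.2.1) (x' q.1)) := by
    intro k₀
    have h1 : ∀ (q : L × N) (j : Fin n),
        ∑ i, (algebraMap ℂ K (E ((k₀ + q.2.1) j i)) * ξ q.1 j i) ^ m = 0 := by
      intro q j
      simp only [mul_pow, ← map_pow, E_pow, map_one, one_mul]
      exact hc q.1 j
    have h2 : ∀ (y : L → Fin n → Fin 4 → ℂ) (W : ValuationSubring K), IsPlace W →
        (∀ l j i, Lim W (ξ l j i) (y l j i)) → ∀ (q : L × N) (j : Fin n) (i : Fin 4),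
        Lim W (algebraMap ℂ K (E ((k₀ + q.2.1) j i)) * ξ q.1 j i)
          (actG (k₀ + q.2.1) (y q.1) j i) := by
      intro y W hW hy q j i
      exact Lim.mul hW (lim_const (E ((k₀ + q.2.1) j i))) (hy q.1 j i)
    have h3 : ∀ σ : K ≃ₐ[F] K, ∃ π : Equiv.Perm (L × N), ∀ q j, ∃ c : K, ∀ i,
        σ (algebraMap ℂ K (E ((k₀ + q.2.1) j i)) * ξ q.1 j i) =
        c * (algebraMap ℂ K (E ((k₀ + (π q).2.1) j i)) * ξ (π q).1 j i) := by
      intro σ
      obtain ⟨π, hπ⟩ := hg σ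
      choose κ hκ0 hκ using hπ
      let π' : Equiv.Perm (L × N) :=
        ⟨fun q => (π q.1, ⟨q.2.1 + κ q.1, by rw [pr_add, q.2.2, hκ0, add_zero]⟩),
        fun q => (π.symm q.1, ⟨q.2.1 - κ (π.symm q.1), by
          rw [pr_sub, q.2.2, hκ0, sub_zero]⟩), fun q => by simp, fun q => by simp⟩
      refine ⟨π', fun q j => ⟨1, fun i => ?_⟩⟩
      have e1 : (π' q).1 = π q.1 := rfl
      have e2 : (π' q).2.1 = q.2.1 + κ q.1 := rfl
      rw [e1, e2, map_mul, aut_const, hκ, one_mul, ← mul_assoc, ← map_mul, ← E_add]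
      congr 3
      simp only [Pi.add_apply]
      ring
    exact hΦ.vec (L := L × N) (fun q j i => algebraMap ℂ K (E ((k₀ + q.2.1) j i)) * ξ q.1 j i)
      h1 hV hV' (fun q => actG (k₀ + q.2.1) (x q.1)) (fun q => actG (k₀ + q.2.1) (x' q.1))
      (fun q j => actG_ne_zero (k₀ + q.2.1) (hx q.1 j))
      (fun q j => actG_ne_zero (k₀ + q.2.1) (hx' q.1 j))
      (h2 x V hV hl) (h2 x' V' hV' hl') h3
  have expand : ∀ y : L → Fin n → Fin 4 → ℂ,
      ∑ k₀ : Fin n → Fin 4 → ZMod m, E (-pr χ k₀) * ∑ q : L × N, ext Φ (actG (k₀ + q.2.1) (y q.1))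
      = (Fintype.card N : ℂ) * ∑ l, comp Φ χ (y l) := by
    intro y
    simp only [Finset.mul_sum]
    rw [Finset.sum_comm, Fintype.sum_prod_type]
    apply Finset.sum_congr rfl
    intro l _
    have : ∀ q : N, ∑ k₀ : Fin n → Fin 4 → ZMod m, E (-pr χ k₀) * ext Φ (actG (k₀ + q.1) (y l)) =
        comp Φ χ (y l) := by
      intro q
      rw [comp, ← Equiv.sum_comp (Equiv.addRight q.1)
        (fun k => E (-pr χ k) * ext Φ (actG k (y l)))]
      apply Finset.sum_congr rfl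
      intro k₀ _
      rw [Equiv.coe_addRight, pr_add, q.2, add_zero]
    simp only [this]
    rw [Finset.sum_const, nsmul_eq_mul, Finset.card_univ]
  have hcard : (Fintype.card N : ℂ) ≠ 0 := by
    have : 0 < Fintype.card N := Fintype.card_pos_iff.2
      ⟨⟨0, by simp [pr]⟩⟩
    exact_mod_cast this.ne'
  apply mul_left_cancel₀ hcard
  rw [← expand x, ← expand x']
  apply Finset.sum_congr rfl
  intro k₀ _
  rw [step k₀]

theorem comp_tw {Φ : (Fin n → S m) → ℂ} (hΦ : Inv m n Φ) (χ : Fin n → Fin 4 → ZMod m) :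
    Tw χ (comp Φ χ) where
  equiv := comp_equiv Φ χ
  scale := comp_scale Φ χ
  ml := fun ξ hc _ _ hV hV' x x' hx hx' hl hl' hg =>
    comp_ml hΦ χ ξ hc hV hV' x x' hx hx' hl hl' hg

end Pool.Agent.K4H27.VF
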